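import Pool.Agent.W2helper96.QP.ValR

/-!
# The arithmetic for fifth powers

Coprime integers `σ`, `θ` such that the factors `σ + θ` and `σ ^ 2 + θ ^ 2` of `σ ^ 4 - θ ^ 4`, or the
factor `σ ^ 3 + θ ^ 3` of `σ ^ 6 - θ ^ 6`, have valuations divisible by five at the odd primes.
-/

set_option autoImplicit false

namespace Pool.Agent.W2helper96.F5

open Pool.Agent.W2helper96.QP

theorem five_odd : Odd 5 := by decide

theorem fifth_of_val_odd {s : ℤ} (hs : ¬ (2 : ℤ) ∣ s)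
    (h : ∀ p : ℕ, p.Prime → p ≠ 2 → 5 ∣ padicValInt p s) : ∃ z : ℤ, s = z ^ 5 := by
  apply pow_of_val five_odd (by rintro rfl; exact hs (dvd_zero _))
  intro p hp
  by_cases hp2 : p = 2
  · subst hp2
    rw [padicValInt.eq_zero_of_not_dvd (by exact_mod_cast hs)]
    exact dvd_zero _
  · exact h p hp hp2

theorem pairE {σ θ : ℤ} (hc : IsCoprime σ θ) (h4 : (4 : ℤ) ∣ σ - θ) (hodd : ¬ (2 : ℤ) ∣ σ)
    (h1 : ∀ p : ℕ, p.Prime → p ≠ 2 → 5 ∣ padicValInt p (σ + θ))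
    (h2 : ∀ p : ℕ, p.Prime → p ≠ 2 → 5 ∣ padicValInt p (σ ^ 2 + θ ^ 2)) : σ = θ :=
  pair_four_five (by omega) (by omega) hc h1 h2

theorem mod_four_of_fifth {B : ℤ} (h : B ^ 5 % 4 = 1) : B % 4 = 1 := by
  have h5 : B % 4 = 0 ∨ B % 4 = 1 ∨ B % 4 = 2 ∨ B % 4 = 3 := by omega
  have h6 : ∀ t : ℤ, B % 4 = t → B ^ 5 % 4 = t ^ 5 % 4 := fun t ht => by
    have h7 : B ≡ t [ZMOD 4] := by
      rw [← ht]; exact (Int.mod_modEq B 4).symm
    exact h7.pow 5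
  rcases h5 with h5 | h5 | h5 | h5
  · have := h6 _ h5; norm_num at this; omega
  · exact h5
  · have := h6 _ h5; norm_num at this; omega
  · have := h6 _ h5; norm_num at this; omega

/-- `A ^ 10 - B ^ 5 = k z ^ 2` with `k = 2, 3` -/
theorem ten_odd {A B z k : ℤ} (hk : k = 2 ∨ k = 3) (hA : ¬ (2 : ℤ) ∣ A) (hB : B ^ 5 % 4 = 1)
    (hc : IsCoprime A B) (h : A ^ 10 - B ^ 5 = k * z ^ 2) : z = 0 := by
  have hA2 := sq_mod_four hA
  have hB4 := mod_four_of_fifth hB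
  have h5 := K5 (Or.inr hk) (x := A ^ 2) (y := B) (z := z) (by omega) (by omega)
    hc.pow_left (by rw [← h]; ring)
  have h6 : k * z ^ 2 = 0 := by rw [← h, ← h5]; ring
  rcases mul_eq_zero.1 h6 with h7 | h7
  · rcases hk with rfl | rfl <;> norm_num at h7
  · exact (pow_eq_zero_iff (by norm_num)).1 h7

theorem mod_four_cases {σ θ : ℤ} (hodd : ¬ (2 : ℤ) ∣ σ + θ) :
    (σ % 2 = 0 ∧ ¬ (2 : ℤ) ∣ θ) ∨ (θ % 2 = 0 ∧ ¬ (2 : ℤ) ∣ σ) := by omega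

/-- opposite parity, `4 ∣ d` -/
theorem oddA {σ θ z : ℤ} (hc : IsCoprime σ θ) (hz : σ * θ = z ^ 2) (hodd : ¬ (2 : ℤ) ∣ σ + θ)
    (h1 : ∀ p : ℕ, p.Prime → p ≠ 2 → 5 ∣ padicValInt p (σ + θ))
    (h2 : ∀ p : ℕ, p.Prime → p ≠ 2 → 5 ∣ padicValInt p (σ ^ 2 + θ ^ 2)) : σ = 0 ∨ θ = 0 := by
  have hm : (σ ^ 2 + θ ^ 2) % 4 = 1 := by
    rcases mod_four_cases hodd with ⟨h3, h4⟩ | ⟨h3, h4⟩
    · obtain ⟨j, hj⟩ : ∃ j, σ = 2 * j := ⟨σ / 2, by omega⟩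
      have := sq_mod_four h4
      have e : σ ^ 2 = 4 * j ^ 2 := by rw [hj]; ring
      omega
    · obtain ⟨j, hj⟩ : ∃ j, θ = 2 * j := ⟨θ / 2, by omega⟩
      have := sq_mod_four h4
      have e : θ ^ 2 = 4 * j ^ 2 := by rw [hj]; ring
      omega
  obtain ⟨A, hA⟩ := fifth_of_val_odd hodd h1
  obtain ⟨B, hB⟩ := fifth_of_val_odd (by omega) h2
  have hAo : ¬ (2 : ℤ) ∣ A := by
    intro h5
    apply hodd
    rw [hA]; exact h5.pow (by norm_num)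
  have hcAB : IsCoprime A B := by
    apply isCoprime_of_prime_dvd
    · rintro ⟨h7, -⟩
      exact hAo (by rw [h7]; exact dvd_zero _)
    intro p hp hpA hpB
    have h5 : p ∣ σ + θ := by rw [hA]; exact hpA.pow (by norm_num)
    have h6 : p ∣ σ ^ 2 + θ ^ 2 := by rw [hB]; exact hpB.pow (by norm_num)
    have h7 : p ∣ 2 * θ ^ 2 := by
      have : 2 * θ ^ 2 = (σ ^ 2 + θ ^ 2) - (σ + θ) * (σ - θ) := by ring
      rw [this]; exact dvd_sub h6 (h5.mul_right _)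
    rcases hp.dvd_or_dvd h7 with h8 | h8
    · exact hAo ((hp.associated_of_dvd Int.prime_two h8).dvd'.trans hpA)
    · have h9 := hp.dvd_of_dvd_pow h8
      have h10 : p ∣ σ := by
        have : σ = (σ + θ) - θ := by ring
        rw [this]; exact dvd_sub h5 h9
      exact hp.not_isUnit (hc.isUnit_of_dvd' h10 h9)
  have h0 := ten_odd (z := z) (Or.inl rfl) hAo (by rw [← hB]; exact hm) hcAB (by
    have : A ^ 10 = (σ + θ) ^ 2 := by rw [hA]; ring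
    rw [this, ← hB, ← hz]; ring)
  rw [h0] at hz
  exact mul_eq_zero.1 (by rw [hz]; norm_num)

/-- the factors of `σ ^ 3 + θ ^ 3` -/
theorem split6 {σ θ : ℤ} (hc : IsCoprime σ θ) (h3 : ¬ (3 : ℤ) ∣ σ ^ 3 + θ ^ 3)
    (h : ∀ p : ℕ, p.Prime → p ≠ 2 → 5 ∣ padicValInt p (σ ^ 3 + θ ^ 3)) :
    ¬ (3 : ℤ) ∣ σ + θ ∧ ∀ p : ℕ, p.Prime → p ≠ 2 → 5 ∣ padicValInt p (σ + θ) ∧
      5 ∣ padicValInt p (σ ^ 2 - σ * θ + θ ^ 2) := by
  have hfac : σ ^ 3 + θ ^ 3 = (σ + θ) * (σ ^ 2 - σ * θ + θ ^ 2) := by ring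
  have hF0 : σ ^ 3 + θ ^ 3 ≠ 0 := by
    intro h0
    rw [h0] at h3
    exact h3 (dvd_zero _)
  rw [hfac] at hF0 h3 h
  have h3' : ¬ (3 : ℤ) ∣ σ + θ := fun h5 => h3 (h5.mul_right _)
  refine ⟨h3', fun p hp hp2 => ?_⟩
  have := Fact.mk hp
  have hpi := Nat.prime_iff_prime_int.1 hp
  have h1 := h p hp hp2
  rw [padicValInt.mul (left_ne_zero_of_mul hF0) (right_ne_zero_of_mul hF0)] at h1
  by_cases h5 : (p : ℤ) ∣ σ + θ
  · have h6 : ¬ (p : ℤ) ∣ σ ^ 2 - σ * θ + θ ^ 2 := by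
      intro h6
      have h7 : (p : ℤ) ∣ 3 * θ ^ 2 := by
        have : 3 * θ ^ 2 = (σ ^ 2 - σ * θ + θ ^ 2) - (σ + θ) * (σ - 2 * θ) := by ring
        rw [this]; exact dvd_sub h6 (h5.mul_right _)
      rcases hpi.dvd_or_dvd h7 with h8 | h8
      · have h9 : p ∣ 3 := by exact_mod_cast h8
        have h10 : p = 3 := (Nat.prime_dvd_prime_iff_eq hp Nat.prime_three).1 h9
        subst h10
        exact h3' (by exact_mod_cast h5)
      · have h9 := hpi.dvd_of_dvd_pow h8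
        have h10 : (p : ℤ) ∣ σ := by
          have : σ = (σ + θ) - θ := by ring
          rw [this]; exact dvd_sub h5 h9
        exact hpi.not_isUnit (hc.isUnit_of_dvd' h10 h9)
    rw [padicValInt.eq_zero_of_not_dvd h6] at h1 ⊢
    exact ⟨by simpa using h1, dvd_zero _⟩
  · rw [padicValInt.eq_zero_of_not_dvd h5] at h1 ⊢
    exact ⟨dvd_zero _, by simpa using h1⟩

theorem pairB {σ θ : ℤ} (hc : IsCoprime σ θ) (h4 : (4 : ℤ) ∣ σ - θ) (hodd : ¬ (2 : ℤ) ∣ σ)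
    (h3 : ¬ (3 : ℤ) ∣ σ ^ 3 + θ ^ 3)
    (h : ∀ p : ℕ, p.Prime → p ≠ 2 → 5 ∣ padicValInt p (σ ^ 3 + θ ^ 3)) : σ = θ := by
  obtain ⟨h5, h6⟩ := split6 hc h3 h
  exact pair_six (Or.inr rfl) (by omega) (by omega) hc h5 (fun p hp hp2 => (h6 p hp hp2).1)
    (fun p hp hp2 => (h6 p hp hp2).2)

theorem oddB {σ θ z : ℤ} (hc : IsCoprime σ θ) (hz : σ * θ = z ^ 2) (hodd : ¬ (2 : ℤ) ∣ σ + θ)
    (h3 : ¬ (3 : ℤ) ∣ σ ^ 3 + θ ^ 3)
    (h : ∀ p : ℕ, p.Prime → p ≠ 2 → 5 ∣ padicValInt p (σ ^ 3 + θ ^ 3)) : σ = 0 ∨ θ = 0 := by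
  obtain ⟨h5, h6⟩ := split6 hc h3 h
  have hz4 : (4 : ℤ) ∣ σ * θ := by
    have h7 : (2 : ℤ) ∣ z := by
      apply Int.prime_two.dvd_of_dvd_pow (n := 2)
      rw [← hz]
      rcases mod_four_cases hodd with ⟨h7, -⟩ | ⟨h7, -⟩
      · exact (Int.dvd_of_emod_eq_zero h7).mul_right _
      · exact (Int.dvd_of_emod_eq_zero h7).mul_left _
    obtain ⟨j, rfl⟩ := h7
    exact ⟨j ^ 2, by rw [hz]; ring⟩
  have hm : (σ ^ 2 - σ * θ + θ ^ 2) % 4 = 1 := by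
    rcases mod_four_cases hodd with ⟨h3, h4⟩ | ⟨h3, h4⟩
    · obtain ⟨j, hj⟩ : ∃ j, σ = 2 * j := ⟨σ / 2, by omega⟩
      have := sq_mod_four h4
      have e : σ ^ 2 = 4 * j ^ 2 := by rw [hj]; ring
      omega
    · obtain ⟨j, hj⟩ : ∃ j, θ = 2 * j := ⟨θ / 2, by omega⟩
      have := sq_mod_four h4
      have e : θ ^ 2 = 4 * j ^ 2 := by rw [hj]; ring
      omega
  obtain ⟨A, hA⟩ := fifth_of_val_odd hodd (fun p hp hp2 => (h6 p hp hp2).1)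
  obtain ⟨B, hB⟩ := fifth_of_val_odd (by omega) (fun p hp hp2 => (h6 p hp hp2).2)
  have hAo : ¬ (2 : ℤ) ∣ A := by
    intro h5
    apply hodd
    rw [hA]; exact h5.pow (by norm_num)
  have hcAB : IsCoprime A B := by
    apply isCoprime_of_prime_dvd
    · rintro ⟨h7, -⟩
      exact hAo (by rw [h7]; exact dvd_zero _)
    intro p hp hpA hpB
    have h5' : p ∣ σ + θ := by rw [hA]; exact hpA.pow (by norm_num)
    have h6 : p ∣ σ ^ 2 - σ * θ + θ ^ 2 := by rw [hB]; exact hpB.pow (by norm_num)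
    have h7 : p ∣ 3 * θ ^ 2 := by
      have : 3 * θ ^ 2 = (σ ^ 2 - σ * θ + θ ^ 2) - (σ + θ) * (σ - 2 * θ) := by ring
      rw [this]; exact dvd_sub h6 (h5'.mul_right _)
    rcases hp.dvd_or_dvd h7 with h8 | h8
    · exact h5 ((hp.associated_of_dvd Int.prime_three h8).dvd'.trans h5')
    · have h9 := hp.dvd_of_dvd_pow h8
      have h10 : p ∣ σ := by
        have : σ = (σ + θ) - θ := by ring
        rw [this]; exact dvd_sub h5' h9
      exact hp.not_isUnit (hc.isUnit_of_dvd' h10 h9)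
  have h0 := ten_odd (z := z) (Or.inr rfl) hAo (by rw [← hB]; exact hm) hcAB (by
    have : A ^ 10 = (σ + θ) ^ 2 := by rw [hA]; ring
    rw [this, ← hB, ← hz]; ring)
  rw [h0] at hz
  exact mul_eq_zero.1 (by rw [hz]; norm_num)

end Pool.Agent.W2helper96.F5
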