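import Pool.Agent.W2helper96.F5.Main

/-!
# Families (exponent five)
-/

set_option autoImplicit false

namespace Pool.Agent.W2helper96.F5

open Finset Pool.Agent.T6.H62.UB Pool.Agent.W2helper83.UC

theorem val_two_zpow {p : ℕ} (hp : p.Prime) (hp2 : p ≠ 2) (i : ℤ) {r : ℚ} (hr : r ≠ 0) :
    padicValRat p ((2 : ℚ) ^ i * r ^ 5) = 5 * padicValRat p r := by
  have := Fact.mk hp
  have h2 : padicValRat p (2 : ℚ) = 0 := by
    have : (2 : ℚ) = ((2 : ℕ) : ℚ) := by norm_num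
    rw [this, padicValRat.of_nat, padicValNat.eq_zero_of_not_dvd, Nat.cast_zero]
    intro h
    exact hp2 ((Nat.prime_dvd_prime_iff_eq hp Nat.prime_two).1 h)
  rw [padicValRat.mul (zpow_ne_zero _ (by norm_num)) (pow_ne_zero _ hr), padicValRat.zpow, h2,
    padicValRat.pow]
  push_cast
  ring

/-- For `a = 2 ^ i r ^ 5` and `5 ∣ d - 1` the valuations of `V` are divisible by five. -/
theorem five_dvd_val {d : ℕ} (h3 : 5 ∣ d - 1) (i : ℤ) {r : ℚ} (hr : r ≠ 0) {c : ℚ}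
    {OQ : Finset ℚ} {l : ℚ} {A B : ℤ} {V : ℕ} {O : Finset ℤ} {φ : ℤ → ℤ}
    (R : Red d (2 ^ i * r ^ 5) c OQ l A B V O φ) {p : ℕ} (hp : p.Prime) (hp2 : p ≠ 2)
    (hpV : p ∣ V) : 5 ∣ padicValNat p V := by
  have ha : (2 : ℚ) ^ i * r ^ 5 ≠ 0 := mul_ne_zero (zpow_ne_zero _ (by norm_num)) (pow_ne_zero _ hr)
  have h1 := R.val ha hp hpV
  rw [val_two_zpow hp hp2 i hr] at h1
  obtain ⟨k, hk⟩ := h3
  have h5 : (5 : ℤ) ∣ (padicValNat p V : ℤ) := by
    refine ⟨-(padicValRat p r + k * padicValRat p l), ?_⟩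
    rw [hk, Nat.cast_mul, Nat.cast_ofNat] at h1
    linarith
  exact_mod_cast h5

/-- the exceptional primes of `2 ^ i x ^ d + c`, `d ≡ 1 mod 5` -/
def excd (d m : ℕ) : Finset ℕ :=
  d.primeFactors.filter fun p => p ≠ 2 ∧ 2 ^ (padicValNat 2 m + 1) ∣ p - 1 ∧ ¬ 5 ∣ padicValNat p d

/-- For `2 ^ i x ^ d + c` and `5 ∣ d - 1` there are no exceptional primes of the first kind. -/
theorem hypS_mono {d : ℕ} (hd : 4 ≤ d) (h3 : 5 ∣ d - 1) {m : ℕ} (i : ℤ) (c : ℚ) {p1 p2 : ℕ}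
    (hE : excd d m ⊆ {p1, p2}) : HypS d m (2 ^ i) c p1 p2 := by
  intro OQ l A B V O φ R
  have ha : (2 : ℚ) ^ i ≠ 0 := zpow_ne_zero _ (by norm_num)
  have key : ∀ p : ℕ, p.Prime → p ≠ 2 → p ∣ V → (d - 1) ∣ padicValNat p V := by
    intro p hp hp2 hpV
    have h1 := R.val ha hp hpV
    have h2 := val_two_zpow hp hp2 i (one_ne_zero (α := ℚ))
    rw [one_pow, mul_one, padicValRat.one, mul_zero] at h2
    rw [h2, zero_add] at h1
    have h5 : ((d - 1 : ℕ) : ℤ) ∣ (padicValNat p V : ℤ) := ⟨-padicValRat p l, by linarith⟩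
    exact_mod_cast h5
  refine ⟨fun p hp hp2 hpV _ => ?_, fun p hp hp2 hpV hrel h3' => ?_⟩
  · refine ⟨h3.trans (key p hp hp2 hpV), ?_⟩
    have := Fact.mk hp
    have h6 : 1 ≤ padicValNat p V := one_le_padicValNat_of_dvd R.V0.ne' hpV
    exact (val_lt hp hd).trans_le (Nat.le_of_dvd h6 (key p hp hp2 hpV))
  · have hpd : p ∣ d := by
      by_contra hpd
      apply h3'
      rw [padicValNat.eq_zero_of_not_dvd hpd]
      exact dvd_zero _
    have hm : p ∈ excd d m := mem_filter.2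
      ⟨Nat.mem_primeFactors.2 ⟨hp, hpd, by omega⟩, hp2, hrel, h3'⟩
    simpa using hE hm

/-- the fifth power family -/
def FifthF (d m : ℕ) (a c : ℚ) : Prop :=
  (5 ∣ d - 1 ∧ ∃ (i : ℤ) (r : ℚ), a = 2 ^ i * r ^ 5) ∨
    ∀ p : ℕ, p.Prime → p ≠ 2 → 2 ^ (padicValNat 2 m + 1) ∣ p - 1 →
      5 * d ∣ padicValNat p (a * c ^ (d - 1)).den

theorem FifthF.val {d m : ℕ} {a c : ℚ} (h : FifthF d m a c) (hd0 : d ≠ 0) (ha : a ≠ 0)
    {OQ : Finset ℚ} {l : ℚ} {A B : ℤ} {V : ℕ} {O : Finset ℤ} {φ : ℤ → ℤ}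
    (R : Red d a c OQ l A B V O φ) {p : ℕ} (hp : p.Prime) (hp2 : p ≠ 2) (hpV : p ∣ V)
    (hrel : Rel m p) : 5 ∣ padicValNat p V := by
  rcases h with ⟨h3, i, r, rfl⟩ | h
  · have hr : r ≠ 0 := by
      rintro rfl
      apply ha
      ring
    exact five_dvd_val h3 i hr R hp hp2 hpV
  · have h1 := h p hp hp2 hrel
    rw [R.val_t hd0 hp, mul_comm 5 d] at h1
    exact Nat.dvd_of_mul_dvd_mul_left (Nat.pos_of_ne_zero hd0) h1

theorem FifthF.big {d m : ℕ} {a c : ℚ} (h : FifthF d m a c) (hd0 : d ≠ 0) (ha : a ≠ 0) :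
    Big d m a c (relp d m) := by
  intro OQ l A B V O φ R p hp hp2 hpV hrel hC
  have hpd : p ∣ d := by
    by_contra hpd
    exact hC ⟨h.val hd0 ha R hp hp2 hpV hrel, fun h => absurd h hpd⟩
  exact mem_filter.2 ⟨Nat.mem_primeFactors.2 ⟨hp, hpd, hd0⟩, hp2, hrel⟩

theorem FifthF.hypS {d m : ℕ} {a c : ℚ} (h : FifthF d m a c) (hd0 : d ≠ 0) (ha : a ≠ 0)
    (hv : ∀ p ∈ relp d m, padicValNat p d ≤ 4) {p1 p2 : ℕ} (h2 : relp d m ⊆ {p1, p2}) :
    HypS d m a c p1 p2 := by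
  intro OQ l A B V O φ R
  have hmem : ∀ p : ℕ, p.Prime → p ≠ 2 → p ∣ d → Rel m p → p ∈ relp d m :=
    fun p hp hp2 hpd hrel => mem_filter.2 ⟨Nat.mem_primeFactors.2 ⟨hp, hpd, hd0⟩, hp2, hrel⟩
  refine ⟨fun p hp hp2 hpV hrel => ?_, fun p hp hp2 hpV hrel h3' => ?_⟩
  · have h3 := h.val hd0 ha R hp hp2 hpV hrel
    refine ⟨h3, ?_⟩
    have := Fact.mk hp
    have h6 : 1 ≤ padicValNat p V := one_le_padicValNat_of_dvd R.V0.ne' hpV
    have h7 : padicValNat p d ≤ 4 := by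
      by_cases hpd : p ∣ d
      · exact hv p (hmem p hp hp2 hpd hrel)
      · rw [padicValNat.eq_zero_of_not_dvd hpd]; norm_num
    have h8 := Nat.le_of_dvd h6 h3
    omega
  · have hpd : p ∣ d := by
      by_contra hpd
      apply h3'
      rw [padicValNat.eq_zero_of_not_dvd hpd]
      exact dvd_zero _
    simpa using h2 (hmem p hp hp2 hpd hrel)

/-! ### few exceptional primes for `2 ^ i x ^ d + c` -/

theorem fin8 {d : ℕ} (h : 51272 ∣ d) (h0 : 0 < d) (hd : d < 65416)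
    (h16 : d % 40 = 16 ∨ d % 60 = 36) : False := by
  obtain ⟨k, rfl⟩ := h
  have : k = 1 := by omega
  subst this
  omega

theorem fin12 {d : ℕ} (h : 76908 ∣ d) (h0 : 0 < d) (hd : d < 65416) : False := by
  have := Nat.le_of_dvd h0 h
  omega

theorem three_primes {d p q r : ℕ} (hd5 : d % 5 = 1) (hd8 : 8 ∣ d ∨ 12 ∣ d)
    (h16 : d % 40 = 16 ∨ d % 60 = 36) (hd : d < 65416) (hp : p.Prime)
    (hq : q.Prime) (hr : r.Prime) (hpd : p ∣ d) (hqd : q ∣ d) (hrd : r ∣ d) (p4 : p % 4 = 1)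
    (q4 : q % 4 = 1) (r4 : r % 4 = 1) (hpq : p < q) (hqr : q < r) :
    False := by
  have n9 : ¬ Nat.Prime 9 := by norm_num
  have n21 : ¬ Nat.Prime 21 := by norm_num
  have n25 : ¬ Nat.Prime 25 := by norm_num
  have n33 : ¬ Nat.Prime 33 := by norm_num
  have hp5 : p ≠ 5 := by
    rintro rfl
    omega
  have cop : ∀ a b : ℕ, a.Prime → b.Prime → a ≠ b → Nat.Coprime a b := fun a b ha hb h =>
    (Nat.coprime_primes ha hb).2 h
  have cpq := cop p q hp hq hpq.ne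
  have cpr := cop p r hp hr (hpq.trans hqr).ne
  have cqr := cop q r hq hr hqr.ne
  have hd0 : 0 < d := by omega
  have h13 : 13 ≤ p := by
    have := hp.two_le
    by_contra hcon
    have : p = 5 ∨ p = 9 := by omega
    rcases this with h | h
    · exact hp5 h
    · exact n9 (h ▸ hp)
  have h17 : 17 ≤ q := by omega
  have h29 : 29 ≤ r := by
    by_contra hcon
    have : r = 21 ∨ r = 25 := by omega
    rcases this with h | h
    · exact n21 (h ▸ hr)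
    · exact n25 (h ▸ hr)
  -- `8 p q r ∣ d` or `12 p q r ∣ d`
  have hbig : ∀ s : ℕ, s = 8 ∨ s = 12 → s ∣ d → s * p * q * r ∣ d := by
    intro s hs hsd
    have hs2 : ∀ t : ℕ, t.Prime → 13 ≤ t → Nat.Coprime s t := by
      intro t ht h13
      rw [Nat.coprime_comm, ht.coprime_iff_not_dvd]
      intro h
      have := Nat.le_of_dvd (by omega) h
      omega
    exact (((hs2 r hr (by omega)).mul_left cpr).mul_left cqr).mul_dvd_of_dvd_of_dvd
      (((hs2 q hq (by omega)).mul_left cpq).mul_dvd_of_dvd_of_dvd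
        ((hs2 p hp h13).mul_dvd_of_dvd_of_dvd hsd hpd) hqd) hrd
  have key : ∀ s : ℕ, s = 8 ∨ s = 12 → s ∣ d → False := by
    intro s hs hsd
    have h1 := hbig s hs hsd
    have hle := Nat.le_of_dvd hd0 h1
    by_cases h37 : 37 ≤ r
    · have h8s : 8 ≤ s := by omega
      have : 8 * 13 * 17 * 37 ≤ s * p * q * r := by gcongr
      omega
    · have hr29 : r = 29 := by
        have : r = 29 ∨ r = 33 := by omega
        exact this.resolve_right fun h => n33 (h ▸ hr)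
      have hq17 : q = 17 := by
        have : q = 17 ∨ q = 21 ∨ q = 25 := by omega
        rcases this with h | h | h
        · exact h
        · exact absurd (h ▸ hq) n21
        · exact absurd (h ▸ hq) n25
      have hp13 : p = 13 := by omega
      rw [hr29, hq17, hp13] at h1
      rcases hs with hs | hs
      · rw [hs] at h1
        exact fin8 (by norm_num at h1; exact h1) hd0 hd h16
      · rw [hs] at h1
        exact fin12 (by norm_num at h1; exact h1) hd0 hd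
  rcases hd8 with h | h
  · exact key 8 (Or.inl rfl) h
  · exact key 12 (Or.inr rfl) h

theorem excd_le_two {d m : ℕ} (h16 : (d % 40 = 16 ∧ m = d / 4) ∨ (d % 60 = 36 ∧ m = d / 2))
    (hd : d < 65416) : (excd d m).card ≤ 2 := by
  by_contra hcon
  obtain ⟨p, q, r, hp, hq, hr, hpq, hpr, hqr⟩ := two_lt_card_iff.1 (not_le.1 hcon)
  have h8 : 8 ∣ d ∨ 12 ∣ d := by omega
  have h5 : d % 5 = 1 := by omega
  have hd' : d % 40 = 16 ∨ d % 60 = 36 := h16.imp And.left And.left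
  have key : ∀ p ∈ excd d m, p.Prime ∧ p ∣ d ∧ p % 4 = 1 := by
    intro p hp
    unfold F5.excd at hp
    rw [mem_filter, Nat.mem_primeFactors] at hp
    obtain ⟨⟨h1, h2, h3⟩, h4, h5, -⟩ := hp
    refine ⟨h1, h2, ?_⟩
    have h6 : 1 ≤ padicValNat 2 m := one_le_padicValNat_of_dvd (by omega) (by omega)
    have h7 : 2 ^ 2 ∣ p - 1 := (Nat.pow_dvd_pow 2 (by omega)).trans h5
    have := h1.two_le
    omega
  obtain ⟨p1, p2, p3⟩ := key p hp
  obtain ⟨q1, q2, q3⟩ := key q hq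
  obtain ⟨r1, r2, r3⟩ := key r hr
  rcases lt_or_gt_of_ne hpq with h1 | h1 <;> rcases lt_or_gt_of_ne hpr with h2 | h2 <;>
    rcases lt_or_gt_of_ne hqr with h3 | h3
  · exact three_primes h5 h8 hd' hd p1 q1 r1 p2 q2 r2 p3 q3 r3 h1 h3
  · exact three_primes h5 h8 hd' hd p1 r1 q1 p2 r2 q2 p3 r3 q3 h2 h3
  · omega
  · exact three_primes h5 h8 hd' hd r1 p1 q1 r2 p2 q2 r3 p3 q3 h2 h1
  · exact three_primes h5 h8 hd' hd q1 p1 r1 q2 p2 r2 q3 p3 r3 h1 h2
  · omega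
  · exact three_primes h5 h8 hd' hd q1 r1 p1 q2 r2 p2 q3 r3 p3 h3 h2
  · exact three_primes h5 h8 hd' hd r1 q1 p1 r2 q2 p2 r3 q3 p3 h3 h1

/-- the exceptional primes of `(A x ^ d + B) / V` -/
theorem exc_normal {d : ℕ} (m : ℕ) (hd0 : d ≠ 0) {A B : ℤ} {V : ℕ} (hV0 : 0 < V)
    (hcop : IsCoprime (A * B) (V : ℤ)) :
    exc d m ((A : ℚ) / (V : ℚ) * ((B : ℚ) / (V : ℚ)) ^ (d - 1)) =
      V.primeFactors.filter fun p => p ≠ 2 ∧ 2 ^ (padicValNat 2 m + 1) ∣ p - 1 ∧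
        ¬ (5 ∣ padicValNat p V ∧ 5 ∣ padicValNat p d ∧ padicValNat p d < padicValNat p V) := by
  have hVQ : (V : ℚ) ≠ 0 := by exact_mod_cast hV0.ne'
  have hd1 : 0 < d := Nat.pos_of_ne_zero hd0
  have ht : (A : ℚ) / (V : ℚ) * ((B : ℚ) / (V : ℚ)) ^ (d - 1) =
      ((A * B ^ (d - 1) : ℤ) : ℚ) / ((V ^ d : ℕ) : ℤ) := by
    obtain ⟨e, rfl⟩ : ∃ e, d = e + 1 := ⟨d - 1, by omega⟩
    rw [Nat.add_sub_cancel, div_pow]
    push_cast
    field_simp
    ring
  have hden : ((A : ℚ) / (V : ℚ) * ((B : ℚ) / (V : ℚ)) ^ (d - 1)).den = V ^ d := by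
    rw [ht]
    have h1 : IsCoprime (A * B ^ (d - 1)) ((V ^ d : ℕ) : ℤ) := by
      push_cast
      exact (hcop.of_mul_left_left.mul_left hcop.of_mul_left_right.pow_left).pow_right
    have h2 := Rat.den_div_eq_of_coprime (a := A * B ^ (d - 1)) (b := ((V ^ d : ℕ) : ℤ))
      (by positivity) (Int.isCoprime_iff_gcd_eq_one.1 h1)
    exact_mod_cast h2
  ext p
  unfold F5.exc
  rw [mem_filter, mem_filter, hden, Nat.primeFactors_pow _ hd0]
  have hval : p.Prime → padicValNat p (V ^ d) = d * padicValNat p V := by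
    intro hp
    have := Fact.mk hp
    rw [padicValNat.pow]
  constructor
  · rintro ⟨hp, hp2, hr, hC⟩
    refine ⟨hp, hp2, hr, fun hC' => hC ?_⟩
    rw [hval (Nat.prime_of_mem_primeFactors hp)]
    exact ⟨by rw [mul_comm 5 d]; exact Nat.mul_dvd_mul_left d hC'.1, hC'.2.1,
      Nat.mul_lt_mul_of_pos_left hC'.2.2 hd1⟩
  · rintro ⟨hp, hp2, hr, hC⟩
    refine ⟨hp, hp2, hr, fun hC' => hC ?_⟩
    rw [hval (Nat.prime_of_mem_primeFactors hp)] at hC'
    have h1 := hC'.1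
    rw [mul_comm 5 d] at h1
    exact ⟨Nat.dvd_of_mul_dvd_mul_left hd1 h1, hC'.2.1, Nat.lt_of_mul_lt_mul_left hC'.2.2⟩

end Pool.Agent.W2helper96.F5
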