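import Pool.Agent.W2helper96.F5.Ar
import Pool.Agent.W2helper83.UC.Main

/-!
# Pairs of periodic points of `(A x ^ d + B) / V`, exponent five

This follows the modules `Pool/Agent/W2helper83/UC` (exponent three, by helper83); the parts which do
not depend on the exponent are imported from there.
-/

set_option autoImplicit false

namespace Pool.Agent.W2helper96.F5

open Finset Pool.Agent.T6.H62.UB Pool.Agent.W2helper83.UC

/-- the condition at a bad odd prime -/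
def Cond (d V p : ℕ) : Prop :=
  5 ∣ padicValNat p V ∧ (p ∣ d → 5 ∣ padicValNat p d ∧ padicValNat p d < padicValNat p V)

section

variable {d : ℕ} {A B : ℤ} {V : ℕ} {O : Finset ℤ} {φ : ℤ → ℤ}

/-- **The differences have valuations divisible by five at the good bad primes.** -/
theorem val_sub_dvd (h : Sys d A B V O φ) (hA : A ≠ 0) (hd0 : d ≠ 0) (hV : 0 < V)
    {p : ℕ} (hp : p.Prime) (hp2 : p ≠ 2) (hpV : p ∣ V) (hC : Cond d V p) :
    ∀ (N : ℕ) {u w : ℤ}, u ∈ O → w ∈ O → NM φ u w → padicValInt p (u - w) = N → 5 ∣ N := by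
  have := Fact.mk hp
  intro N
  induction N using Nat.strong_induction_on with
  | _ N ih =>
    intro u w hu hw hn hN
    by_cases hdv : (p : ℤ) ∣ u - w
    · have h1 := lte_val hp hp2 hd0 hdv (h.not_dvd hd0 hp hpV hu) (NM.pow_ne h hV hu hw hn)
      have h2 := val_step h hA hV hp hu hw hn.step.ne
      rw [padicValInt.eq_zero_of_not_dvd (h.not_dvd_A hp hpV), zero_add, h1, hN] at h2
      have h3 : 1 ≤ padicValNat p V := one_le_padicValNat_of_dvd hV.ne' hpV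
      have h4 : 5 ∣ padicValNat p d ∧ padicValNat p d < padicValNat p V := by
        by_cases hpd : p ∣ d
        · exact hC.2 hpd
        · rw [padicValNat.eq_zero_of_not_dvd hpd]
          exact ⟨dvd_zero _, h3⟩
      have h5 := ih (padicValInt p (φ u - φ w)) (by omega) (h.maps u hu) (h.maps w hw) hn.step rfl
      have h6 := hC.1
      omega
    · rw [padicValInt.eq_zero_of_not_dvd hdv] at hN
      rw [← hN]; exact dvd_zero _

theorem val_pow_sub_dvd (h : Sys d A B V O φ) (hA : A ≠ 0) (hd0 : d ≠ 0) (hV : 0 < V)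
    {p : ℕ} (hp : p.Prime) (hp2 : p ≠ 2) (hpV : p ∣ V) (hC : Cond d V p) {u w : ℤ} (hu : u ∈ O)
    (hw : w ∈ O) (hn : NM φ u w) : 5 ∣ padicValInt p (u ^ d - w ^ d) := by
  have h2 := val_step h hA hV hp hu hw hn.step.ne
  rw [padicValInt.eq_zero_of_not_dvd (h.not_dvd_A hp hpV), zero_add] at h2
  rw [h2]
  exact dvd_add hC.1
    (val_sub_dvd h hA hd0 hV hp hp2 hpV hC _ (h.maps u hu) (h.maps w hw) hn.step rfl)

/-- The valuations of the factors of `u ^ d - w ^ d`. -/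
theorem factor_val (h : Sys d A B V O φ) (hA : A ≠ 0) (hV : 0 < V)
    {u w : ℤ} (hu : u ∈ O) (hw : w ∈ O) (pu : Per φ u) (pw : Per φ w) (hne : u ≠ w)
    {F K : ℤ} (hFK : u ^ d - w ^ d = F * K) (hPsi : F ∣ Psi d u w)
    (hl : ∀ p : ℕ, p.Prime → p ≠ 2 → p ∣ V → (p : ℤ) ∣ F →
      5 ∣ padicValInt p (u ^ d - w ^ d) ∧ ¬ (p : ℤ) ∣ K) :
    ∀ p : ℕ, p.Prime → p ≠ 2 → 5 ∣ padicValInt p F := by
  intro p hp hp2
  have := Fact.mk hp
  by_cases hpF : (p : ℤ) ∣ F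
  · by_cases hpV : p ∣ V
    · obtain ⟨h1, hK⟩ := hl p hp hp2 hpV hpF
      have hn := per_NM pu pw hne
      have hpow : u ^ d - w ^ d ≠ 0 := sub_ne_zero.2 (NM.pow_ne h hV hu hw hn)
      have hF0 : F ≠ 0 := by rintro rfl; rw [zero_mul] at hFK; exact hpow hFK
      have hK0 : K ≠ 0 := by rintro rfl; exact hK (dvd_zero _)
      rw [hFK, padicValInt.mul hF0 hK0, padicValInt.eq_zero_of_not_dvd hK, add_zero] at h1
      exact h1
    · exact absurd (hpF.trans hPsi) (good h hA hV hu hw pu pw hne hp hpV).2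
  · rw [padicValInt.eq_zero_of_not_dvd hpF]; exact dvd_zero _

theorem A_vals {e : ℕ} (h : Sys (4 * e) A B V O φ) (he : 0 < e) (hA : A ≠ 0) (hV : 0 < V)
    {u w : ℤ} (hu : u ∈ O) (hw : w ∈ O) (pu : Per φ u) (pw : Per φ w) (hne : u ≠ w)
    (hS : ∀ p : ℕ, p.Prime → p ≠ 2 → p ∣ V →
      5 ∣ padicValInt p (u ^ (4 * e) - w ^ (4 * e)) ∨ (p : ℤ) ∣ u ^ e - w ^ e) :
    (∀ p : ℕ, p.Prime → p ≠ 2 → 5 ∣ padicValInt p (u ^ e + w ^ e)) ∧
    (∀ p : ℕ, p.Prime → p ≠ 2 → 5 ∣ padicValInt p ((u ^ e) ^ 2 + (w ^ e) ^ 2)) := by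
  have hfac : u ^ (4 * e) - w ^ (4 * e) =
      (u ^ e - w ^ e) * ((u ^ e + w ^ e) * ((u ^ e) ^ 2 + (w ^ e) ^ 2)) := by
    rw [mul_comm 4 e, pow_mul, pow_mul]
    ring
  have hdvd := psi_factor hne hfac
  have hunit : ∀ p : ℕ, p.Prime → p ∣ V → ¬ (p : ℤ) ∣ u ^ e := by
    intro p hp hpV h1
    exact h.not_dvd (by omega) hp hpV hu ((Nat.prime_iff_prime_int.1 hp).dvd_of_dvd_pow h1)
  constructor
  · apply factor_val h hA hV hu hw pu pw hne (F := u ^ e + w ^ e)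
      (K := (u ^ e - w ^ e) * ((u ^ e) ^ 2 + (w ^ e) ^ 2)) (by rw [hfac]; ring)
      ((Dvd.intro _ rfl).trans hdvd)
    intro p hp hp2 hpV hpF
    have hpi := Nat.prime_iff_prime_int.1 hp
    have n1 : ¬ (p : ℤ) ∣ u ^ e - w ^ e := by
      intro h1
      have e3 : (p : ℤ) ∣ 2 * u ^ e := by
        have := dvd_add hpF h1
        ring_nf at this ⊢
        exact this
      exact hunit p hp hpV ((hpi.dvd_or_dvd e3).resolve_left (not_dvd_two hp hp2))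
    refine ⟨(hS p hp hp2 hpV).resolve_right n1, ?_⟩
    intro h1
    rcases hpi.dvd_or_dvd h1 with h1 | h1
    · exact n1 h1
    · have e3 : (p : ℤ) ∣ 2 * (u ^ e) ^ 2 := by
        have e4 : 2 * (u ^ e) ^ 2 = ((u ^ e) ^ 2 + (w ^ e) ^ 2) +
          (u ^ e + w ^ e) * (u ^ e - w ^ e) := by ring
        rw [e4]
        exact dvd_add h1 (Dvd.dvd.mul_right hpF _)
      exact hunit p hp hpV (hpi.dvd_of_dvd_pow
        ((hpi.dvd_or_dvd e3).resolve_left (not_dvd_two hp hp2)))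
  · apply factor_val h hA hV hu hw pu pw hne (F := (u ^ e) ^ 2 + (w ^ e) ^ 2)
      (K := (u ^ e - w ^ e) * (u ^ e + w ^ e)) (by rw [hfac]; ring)
      ((Dvd.intro_left _ rfl).trans hdvd)
    intro p hp hp2 hpV hpF
    have hpi := Nat.prime_iff_prime_int.1 hp
    have n1 : ¬ (p : ℤ) ∣ (u ^ e - w ^ e) * (u ^ e + w ^ e) := by
      intro h1
      have e3 : (p : ℤ) ∣ 2 * (u ^ e) ^ 2 := by
        have := dvd_add hpF h1
        ring_nf at this ⊢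
        exact this
      exact hunit p hp hpV (hpi.dvd_of_dvd_pow
        ((hpi.dvd_or_dvd e3).resolve_left (not_dvd_two hp hp2)))
    exact ⟨(hS p hp hp2 hpV).resolve_right fun h2 => n1 (Dvd.dvd.mul_right h2 _), n1⟩

theorem A_even {e : ℕ} (h : Sys (4 * e) A B V O φ) (he : 0 < e) (hA : A ≠ 0) (hV : 0 < V)
    (hV2 : 2 ∣ V) {u w : ℤ} (hu : u ∈ O) (hw : w ∈ O) (pu : Per φ u) (pw : Per φ w) (hne : u ≠ w)
    (hS : ∀ p : ℕ, p.Prime → p ≠ 2 → p ∣ V →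
      5 ∣ padicValInt p (u ^ (4 * e) - w ^ (4 * e)) ∨ (p : ℤ) ∣ u ^ e - w ^ e) :
    ¬ (4 : ℤ) ∣ u ^ e - w ^ e := by
  intro h4
  obtain ⟨h1, h2⟩ := A_vals h he hA hV hu hw pu pw hne hS
  have hc := (cop_per h hA hV (by omega) hu hw pu pw hne).pow (m := e) (n := e)
  have hodd : ¬ (2 : ℤ) ∣ u ^ e := fun h3 =>
    odd_of_even_V h (by omega) hV2 hu (Int.prime_two.dvd_of_dvd_pow h3)
  have h5 := pairE hc h4 hodd h1 h2
  apply NM.pow_ne h hV hu hw (per_NM pu pw hne)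
  rw [mul_comm 4 e, pow_mul, pow_mul, h5]

theorem A_odd8 {e : ℕ} (h : Sys (4 * (2 * e)) A B V O φ) (he : 0 < e) (hA : A ≠ 0) (hV : 0 < V)
    (hV2 : ¬ 2 ∣ V) {u w : ℤ} (hu : u ∈ O) (hw : w ∈ O) (pu : Per φ u) (pw : Per φ w)
    (hne : u ≠ w)
    (hS : ∀ p : ℕ, p.Prime → p ≠ 2 → p ∣ V →
      5 ∣ padicValInt p (u ^ (4 * (2 * e)) - w ^ (4 * (2 * e))) ∨
        (p : ℤ) ∣ u ^ (2 * e) - w ^ (2 * e)) : u = 0 ∨ w = 0 := by
  obtain ⟨h1, h2⟩ := A_vals h (by omega) hA hV hu hw pu pw hne hS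
  have hc := (cop_per h hA hV (by omega) hu hw pu pw hne).pow (m := 2 * e) (n := 2 * e)
  have hfac : u ^ (4 * (2 * e)) - w ^ (4 * (2 * e)) =
      (u ^ (2 * e) - w ^ (2 * e)) *
        ((u ^ (2 * e) + w ^ (2 * e)) * ((u ^ (2 * e)) ^ 2 + (w ^ (2 * e)) ^ 2)) := by
    rw [mul_comm 4 (2 * e), pow_mul u (2 * e) 4, pow_mul w (2 * e) 4]
    ring
  have hodd : ¬ (2 : ℤ) ∣ u ^ (2 * e) + w ^ (2 * e) := by
    intro h3
    have h4 := (good h hA hV hu hw pu pw hne Nat.prime_two hV2).2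
    apply h4
    exact_mod_cast (h3.trans (Dvd.intro _ rfl)).trans (psi_factor hne hfac)
  have hz : u ^ (2 * e) * w ^ (2 * e) = (u ^ e * w ^ e) ^ 2 := by
    rw [mul_comm 2 e, pow_mul, pow_mul]; ring
  rcases oddA hc hz hodd h1 h2 with h3 | h3
  · exact Or.inl (pow_eq_zero_iff (by omega) |>.1 h3)
  · exact Or.inr (pow_eq_zero_iff (by omega) |>.1 h3)

/-! ### exponents divisible by six -/

theorem B_vals {e : ℕ} (h : Sys (6 * e) A B V O φ) (he : 0 < e) (hA : A ≠ 0) (hV : 0 < V)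
    {u w : ℤ} (hu : u ∈ O) (hw : w ∈ O) (pu : Per φ u) (pw : Per φ w) (hne : u ≠ w)
    (hS : ∀ p : ℕ, p.Prime → p ≠ 2 → p ∣ V →
      5 ∣ padicValInt p (u ^ (6 * e) - w ^ (6 * e)) ∨ (p : ℤ) ∣ u ^ (3 * e) - w ^ (3 * e))
    (h3 : 3 ∣ V → (3 : ℤ) ∣ u ^ (3 * e) - w ^ (3 * e)) :
    (∀ p : ℕ, p.Prime → p ≠ 2 → 5 ∣ padicValInt p ((u ^ e) ^ 3 + (w ^ e) ^ 3)) ∧
    ¬ (3 : ℤ) ∣ (u ^ e) ^ 3 + (w ^ e) ^ 3 ∧
    ((u ^ e) ^ 3 + (w ^ e) ^ 3) ∣ Psi (6 * e) u w := by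
  have e3 : ∀ x : ℤ, x ^ (3 * e) = (x ^ e) ^ 3 := by
    intro x
    rw [← pow_mul]
    congr 1
    ring
  have hfac : u ^ (6 * e) - w ^ (6 * e) =
      (u ^ (3 * e) - w ^ (3 * e)) * ((u ^ e) ^ 3 + (w ^ e) ^ 3) := by
    have e2 : ∀ x : ℤ, x ^ (6 * e) = (x ^ e) ^ 6 := by
      intro x
      rw [← pow_mul]
      congr 1
      ring
    rw [e2, e2, e3, e3]
    ring
  have hdvd := psi_factor hne hfac
  have hunit : ∀ p : ℕ, p.Prime → p ∣ V → ¬ (p : ℤ) ∣ (u ^ e) ^ 3 := by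
    intro p hp hpV h1
    have hpi := Nat.prime_iff_prime_int.1 hp
    exact h.not_dvd (by omega) hp hpV hu (hpi.dvd_of_dvd_pow (hpi.dvd_of_dvd_pow h1))
  have n1 : ∀ p : ℕ, p.Prime → p ≠ 2 → p ∣ V → (p : ℤ) ∣ (u ^ e) ^ 3 + (w ^ e) ^ 3 →
      ¬ (p : ℤ) ∣ u ^ (3 * e) - w ^ (3 * e) := by
    intro p hp hp2 hpV hpF h1
    have hpi := Nat.prime_iff_prime_int.1 hp
    rw [e3, e3] at h1
    have e4 : (p : ℤ) ∣ 2 * (u ^ e) ^ 3 := by
      have := dvd_add hpF h1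
      ring_nf at this ⊢
      exact this
    exact hunit p hp hpV ((hpi.dvd_or_dvd e4).resolve_left (not_dvd_two hp hp2))
  refine ⟨?_, ?_, hdvd⟩
  · apply factor_val h hA hV hu hw pu pw hne (F := (u ^ e) ^ 3 + (w ^ e) ^ 3)
      (K := u ^ (3 * e) - w ^ (3 * e)) (by rw [hfac]; ring) hdvd
    intro p hp hp2 hpV hpF
    have n2 := n1 p hp hp2 hpV hpF
    exact ⟨(hS p hp hp2 hpV).resolve_right n2, n2⟩
  · intro h5
    by_cases h6 : 3 ∣ V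
    · exact n1 3 Nat.prime_three (by norm_num) h6 (by exact_mod_cast h5)
        (by exact_mod_cast h3 h6)
    · exact (good h hA hV hu hw pu pw hne Nat.prime_three h6).2 (by exact_mod_cast h5.trans hdvd)

theorem B_even {e : ℕ} (h : Sys (6 * e) A B V O φ) (he : 0 < e) (hA : A ≠ 0) (hV : 0 < V)
    (hV2 : 2 ∣ V) {u w : ℤ} (hu : u ∈ O) (hw : w ∈ O) (pu : Per φ u) (pw : Per φ w) (hne : u ≠ w)
    (hS : ∀ p : ℕ, p.Prime → p ≠ 2 → p ∣ V →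
      5 ∣ padicValInt p (u ^ (6 * e) - w ^ (6 * e)) ∨ (p : ℤ) ∣ u ^ (3 * e) - w ^ (3 * e))
    (h3 : 3 ∣ V → (3 : ℤ) ∣ u ^ (3 * e) - w ^ (3 * e)) :
    ¬ (4 : ℤ) ∣ u ^ (3 * e) - w ^ (3 * e) := by
  intro h4
  obtain ⟨h1, h2, -⟩ := B_vals h he hA hV hu hw pu pw hne hS h3
  have hu2 : ¬ (2 : ℤ) ∣ u ^ e := fun h5 =>
    odd_of_even_V h (by omega) hV2 hu (Int.prime_two.dvd_of_dvd_pow h5)
  have hw2 : ¬ (2 : ℤ) ∣ w ^ e := fun h5 =>
    odd_of_even_V h (by omega) hV2 hw (Int.prime_two.dvd_of_dvd_pow h5)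
  have e3 : ∀ x : ℤ, x ^ (3 * e) = (x ^ e) ^ 3 := by
    intro x
    rw [← pow_mul]
    congr 1
    ring
  have hc := (cop_per h hA hV (by omega) hu hw pu pw hne).pow (m := e) (n := e)
  have h4' : (4 : ℤ) ∣ u ^ e - w ^ e := by
    rw [e3, e3] at h4
    have h6 : IsCoprime (4 : ℤ) ((u ^ e) ^ 2 + u ^ e * w ^ e + (w ^ e) ^ 2) := by
      have h7 : ¬ (2 : ℤ) ∣ (u ^ e) ^ 2 + u ^ e * w ^ e + (w ^ e) ^ 2 := by
        obtain ⟨i, hi⟩ : ∃ i, u ^ e = 2 * i + 1 := ⟨u ^ e / 2, by omega⟩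
        obtain ⟨j, hj⟩ : ∃ j, w ^ e = 2 * j + 1 := ⟨w ^ e / 2, by omega⟩
        have : (u ^ e) ^ 2 + u ^ e * w ^ e + (w ^ e) ^ 2 =
            2 * (2 * i ^ 2 + 3 * i + 2 * i * j + 3 * j + 2 * j ^ 2 + 1) + 1 := by
          rw [hi, hj]; ring
        omega
      have h8 : IsCoprime (2 : ℤ) ((u ^ e) ^ 2 + u ^ e * w ^ e + (w ^ e) ^ 2) :=
        (Prime.coprime_iff_not_dvd Int.prime_two).2 h7
      have : (4 : ℤ) = 2 ^ 2 := by norm_num
      rw [this]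
      exact h8.pow_left
    apply h6.dvd_of_dvd_mul_right
    have : (u ^ e - w ^ e) * ((u ^ e) ^ 2 + u ^ e * w ^ e + (w ^ e) ^ 2) =
        (u ^ e) ^ 3 - (w ^ e) ^ 3 := by ring
    rw [this]; exact h4
  have h5 := pairB hc h4' hu2 h2 h1
  apply NM.pow_ne h hV hu hw (per_NM pu pw hne)
  rw [mul_comm 6 e, pow_mul, pow_mul, h5]

theorem B_odd12 {e : ℕ} (h : Sys (6 * (2 * e)) A B V O φ) (he : 0 < e) (hA : A ≠ 0) (hV : 0 < V)
    (hV2 : ¬ 2 ∣ V) {u w : ℤ} (hu : u ∈ O) (hw : w ∈ O) (pu : Per φ u) (pw : Per φ w)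
    (hne : u ≠ w)
    (hS : ∀ p : ℕ, p.Prime → p ≠ 2 → p ∣ V →
      5 ∣ padicValInt p (u ^ (6 * (2 * e)) - w ^ (6 * (2 * e))) ∨
        (p : ℤ) ∣ u ^ (3 * (2 * e)) - w ^ (3 * (2 * e)))
    (h3 : 3 ∣ V → (3 : ℤ) ∣ u ^ (3 * (2 * e)) - w ^ (3 * (2 * e))) :
    u = 0 ∨ w = 0 := by
  obtain ⟨h1, h2, h4⟩ := B_vals h (by omega) hA hV hu hw pu pw hne hS h3
  have hc := (cop_per h hA hV (by omega) hu hw pu pw hne).pow (m := 2 * e) (n := 2 * e)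
  have hodd : ¬ (2 : ℤ) ∣ u ^ (2 * e) + w ^ (2 * e) := by
    intro h5
    apply (good h hA hV hu hw pu pw hne Nat.prime_two hV2).2
    have h6 : u ^ (2 * e) + w ^ (2 * e) ∣ (u ^ (2 * e)) ^ 3 + (w ^ (2 * e)) ^ 3 :=
      ⟨(u ^ (2 * e)) ^ 2 - u ^ (2 * e) * w ^ (2 * e) + (w ^ (2 * e)) ^ 2, by ring⟩
    exact_mod_cast (h5.trans h6).trans h4
  have hz : u ^ (2 * e) * w ^ (2 * e) = (u ^ e * w ^ e) ^ 2 := by
    rw [mul_comm 2 e, pow_mul, pow_mul]; ring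
  rcases oddB hc hz hodd h2 h1 with h3 | h3
  · exact Or.inl (pow_eq_zero_iff (by omega) |>.1 h3)
  · exact Or.inr (pow_eq_zero_iff (by omega) |>.1 h3)

end

end Pool.Agent.W2helper96.F5
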