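import Mathlib

/-!
# Fifth powers in the Eisenstein integers

The construction of the ring and the proof that it is a principal ideal domain follow
`Pool/Agent/Y696/Eis.lean` of the starting library.
-/

set_option autoImplicit false

open Complex NumberField

namespace Pool.Agent.W2helper96.Eis

/-- a primitive cube root of unity -/
noncomputable def om : ℂ := ⟨-1 / 2, Real.sqrt 3 / 2⟩

lemma om_sq : om ^ 2 + om + 1 = 0 := by
  have h3 : Real.sqrt 3 * Real.sqrt 3 = 3 := Real.mul_self_sqrt (by norm_num)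
  apply Complex.ext
  · simp only [om, pow_two, Complex.add_re, Complex.mul_re, Complex.one_re, Complex.zero_re]
    nlinarith
  · simp only [om, pow_two, Complex.add_im, Complex.mul_im, Complex.one_im, Complex.zero_im]
    ring

lemma om_im : 0 < om.im := by
  simp only [om]
  positivity

/-- the Eisenstein integers -/
noncomputable def eis : Subring ℂ where
  carrier := {z | ∃ x y : ℤ, z = x + y * om}
  zero_mem' := ⟨0, 0, by simp⟩
  one_mem' := ⟨1, 0, by simp⟩
  add_mem' := by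
    rintro _ _ ⟨a, b, rfl⟩ ⟨c, d, rfl⟩
    exact ⟨a + c, b + d, by push_cast; ring⟩
  neg_mem' := by
    rintro _ ⟨a, b, rfl⟩
    exact ⟨-a, -b, by push_cast; ring⟩
  mul_mem' := by
    rintro _ _ ⟨a, b, rfl⟩ ⟨c, d, rfl⟩
    exact ⟨a * c - b * d, a * d + b * c - b * d, by
      push_cast
      linear_combination (b * d : ℂ) * om_sq⟩

lemma om_mem : om ∈ eis := ⟨0, 1, by simp⟩

/-- the cube root of unity as an element of the ring -/
noncomputable def w : eis := ⟨om, om_mem⟩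

lemma w_sq : w ^ 2 + w + 1 = 0 := Subtype.ext (by push_cast; exact om_sq)

lemma eis_rep (z : eis) : ∃ x y : ℤ, z = (x : eis) + y * w := by
  obtain ⟨x, y, h⟩ := z.2
  exact ⟨x, y, Subtype.ext (by push_cast; exact h)⟩

lemma eis_inj {x y x' y' : ℤ} (h : (x : eis) + y * w = (x' : eis) + y' * w) :
    x = x' ∧ y = y' := by
  have h1 : (x : ℂ) + y * om = (x' : ℂ) + y' * om := by
    have := congrArg (Subtype.val) h
    push_cast at this
    exact this
  have h2 := congrArg Complex.im h1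
  simp only [Complex.add_im, Complex.mul_im, Complex.intCast_im, Complex.intCast_re,
    zero_mul, add_zero, zero_add] at h2
  have h3 : (y : ℝ) = y' := mul_right_cancel₀ om_im.ne' h2
  have h4 : y = y' := by exact_mod_cast h3
  refine ⟨?_, h4⟩
  rw [h4] at h1
  have h5 := add_right_cancel h1
  exact_mod_cast h5

section field

variable {F : Type} [Field F] [NumberField F] [IsCyclotomicExtension {3} ℚ F] {ζ : F}

lemma int_rep (hζ : IsPrimitiveRoot ζ 3) (z : 𝓞 F) :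
    ∃ x y : ℤ, z = (x : 𝓞 F) + y * hζ.toInteger := by
  have : Fact (Nat.Prime 3) := ⟨Nat.prime_three⟩
  have h1 : z ∈ Algebra.adjoin ℤ {hζ.toInteger} := by
    have := hζ.integralPowerBasis.adjoin_gen_eq_top
    rw [hζ.integralPowerBasis_gen] at this
    rw [this]
    exact Algebra.mem_top
  have h2 : hζ.toInteger ^ 2 + hζ.toInteger + 1 = 0 := by
    have h3 : hζ.toInteger ^ 3 = 1 := hζ.toInteger_isPrimitiveRoot.pow_eq_one
    have h4 : hζ.toInteger ≠ 1 := hζ.toInteger_isPrimitiveRoot.ne_one (by norm_num)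
    have h5 : (hζ.toInteger - 1) * (hζ.toInteger ^ 2 + hζ.toInteger + 1) = 0 := by
      linear_combination h3
    exact (mul_eq_zero.1 h5).resolve_left (sub_ne_zero.2 h4)
  refine Algebra.adjoin_induction (p := fun z _ => ∃ x y : ℤ, z = (x : 𝓞 F) + y * hζ.toInteger)
    ?_ ?_ ?_ ?_ h1
  · rintro _ rfl
    exact ⟨0, 1, by simp⟩
  · intro r
    exact ⟨r, 0, by simp⟩
  · rintro _ _ _ _ ⟨a, b, rfl⟩ ⟨c, d, rfl⟩
    exact ⟨a + c, b + d, by push_cast; ring⟩
  · rintro _ _ _ _ ⟨a, b, rfl⟩ ⟨c, d, rfl⟩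
    exact ⟨a * c - b * d, a * d + b * c - b * d, by
      push_cast
      linear_combination (b * d : 𝓞 F) * h2⟩

omit [IsCyclotomicExtension {3} ℚ F] in
lemma exists_emb (hζ : IsPrimitiveRoot ζ 3) : ∃ σ : F →+* ℂ, σ ζ = om := by
  have h1 : Polynomial.aeval ζ (Polynomial.cyclotomic 3 ℚ) = 0 := by
    have := (Polynomial.isRoot_cyclotomic_iff (R := F) (n := 3)).2 hζ
    rw [Polynomial.IsRoot.def] at this
    rw [← Polynomial.map_cyclotomic 3 (algebraMap ℚ F), Polynomial.eval_map_algebraMap] at this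
    exact this
  have h2 : minpoly ℚ ζ = Polynomial.cyclotomic 3 ℚ :=
    (hζ.minpoly_eq_cyclotomic_of_irreducible (Polynomial.cyclotomic.irreducible_rat (by norm_num))).symm
  have h3 : om ∈ (minpoly ℚ ζ).aroots ℂ := by
    rw [h2, Polynomial.mem_aroots]
    refine ⟨Polynomial.cyclotomic_ne_zero 3 ℚ, ?_⟩
    rw [Polynomial.cyclotomic_three]
    simp only [map_add, map_pow, Polynomial.aeval_X, map_one]
    exact om_sq
  obtain ⟨σ, hσ⟩ := (IntermediateField.exists_algHom_of_splits_of_aeval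
    (F := ℚ) (E := F) (K := ℂ) (fun s => ⟨Algebra.IsIntegral.isIntegral s, IsAlgClosed.splits _⟩)
    (x := ζ) (y := om) (by
      rw [Polynomial.mem_aroots] at h3
      exact h3.2))
  exact ⟨σ.toRingHom, hσ⟩

/-- the isomorphism of the ring of integers with the Eisenstein integers -/
noncomputable def isoE (hζ : IsPrimitiveRoot ζ 3) (σ : F →+* ℂ) (hσ : σ ζ = om) : 𝓞 F ≃+* eis :=
  RingEquiv.ofBijective
    ((σ.comp (algebraMap (𝓞 F) F)).codRestrict eis (fun z => by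
      obtain ⟨x, y, h⟩ := int_rep hζ z
      refine ⟨x, y, ?_⟩
      rw [h, map_add, map_mul, map_intCast, map_intCast]
      congr 2
    ))
    ⟨by
      intro a b h
      have h1 : σ (algebraMap (𝓞 F) F a) = σ (algebraMap (𝓞 F) F b) := congrArg Subtype.val h
      exact (FaithfulSMul.algebraMap_injective (𝓞 F) F) (σ.injective h1), by
      rintro ⟨z, x, y, h⟩
      refine ⟨(x : 𝓞 F) + y * hζ.toInteger, Subtype.ext ?_⟩
      change (σ.comp (algebraMap (𝓞 F) F)) ((x : 𝓞 F) + y * hζ.toInteger) = z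
      rw [h, map_add, map_mul, map_intCast, map_intCast]
      congr 2⟩

end field

instance eis_pid : IsPrincipalIdealRing eis := by
  have : Fact (Nat.Prime 3) := ⟨Nat.prime_three⟩
  have : NeZero ((3 : ℕ) : ℚ) := ⟨by norm_num⟩
  have : IsCyclotomicExtension {3} ℚ (CyclotomicField 3 ℚ) :=
    CyclotomicField.isCyclotomicExtension 3 ℚ
  have : NumberField (CyclotomicField 3 ℚ) := inferInstance
  obtain ⟨ζ, hζ⟩ := IsCyclotomicExtension.exists_isPrimitiveRoot ℚ (CyclotomicField 3 ℚ)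
    (Set.mem_singleton 3) (by norm_num)
  obtain ⟨σ, hσ⟩ := exists_emb hζ
  have := IsCyclotomicExtension.Rat.three_pid (CyclotomicField 3 ℚ)
  exact IsPrincipalIdealRing.of_surjective (isoE hζ σ hσ).toRingHom (isoE hζ σ hσ).surjective

instance : IsDomain eis := inferInstance

/-- the norm of an integer multiple -/
lemma eis_mul (x y x' y' : ℤ) : ((x : eis) + y * w) * ((x' : eis) + y' * w) =
    ((x * x' - y * y' : ℤ) : eis) + ((x * y' + y * x' - y * y' : ℤ) : eis) * w := by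
  push_cast
  linear_combination (y * y' : eis) * w_sq

/-- the units are sixth roots of unity -/
lemma unit_pow {u : eis} (hu : IsUnit u) : u ^ 25 = u := by
  obtain ⟨v, hv⟩ := hu.exists_right_inv
  obtain ⟨x, y, rfl⟩ := eis_rep u
  obtain ⟨x', y', rfl⟩ := eis_rep v
  have h1 : ((x * x' - y * y' : ℤ) : eis) + ((x * y' + y * x' - y * y' : ℤ) : eis) * w =
      ((1 : ℤ) : eis) + ((0 : ℤ) : eis) * w := by
    rw [← eis_mul, hv]
    push_cast
    ring
  obtain ⟨h2, h3⟩ := eis_inj h1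
  have h4 : (x ^ 2 - x * y + y ^ 2) * (x' ^ 2 - x' * y' + y' ^ 2) = 1 := by
    have e : (x ^ 2 - x * y + y ^ 2) * (x' ^ 2 - x' * y' + y' ^ 2) =
        (x * x' - y * y') ^ 2 - (x * x' - y * y') * (x * y' + y * x' - y * y') +
          (x * y' + y * x' - y * y') ^ 2 := by ring
    rw [e, h2, h3]
    norm_num
  have h5 : x ^ 2 - x * y + y ^ 2 = 1 := by
    have h6 : 0 ≤ x ^ 2 - x * y + y ^ 2 := by nlinarith [sq_nonneg (x - y), sq_nonneg (x + y)]
    have h7 : IsUnit (x ^ 2 - x * y + y ^ 2) := IsUnit.of_mul_eq_one _ h4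
    rcases Int.isUnit_iff.1 h7 with h8 | h8
    · exact h8
    · omega
  have hx : x ^ 2 ≤ 1 := by nlinarith [sq_nonneg (2 * y - x)]
  have hy : y ^ 2 ≤ 1 := by nlinarith [sq_nonneg (2 * x - y)]
  have hx1 : -1 ≤ x ∧ x ≤ 1 := by constructor <;> nlinarith
  have hy1 : -1 ≤ y ∧ y ≤ 1 := by constructor <;> nlinarith
  have w3 : w ^ 3 = 1 := by linear_combination (w - 1) * w_sq
  have w24 : w ^ 24 = 1 := by
    have : w ^ 24 = (w ^ 3) ^ 8 := by ring
    rw [this, w3, one_pow]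
  have w25 : w ^ 25 = w := by
    have : w ^ 25 = w ^ 24 * w := by ring
    rw [this, w24, one_mul]
  have hcases : (x = 1 ∧ y = 0) ∨ (x = -1 ∧ y = 0) ∨ (x = 0 ∧ y = 1) ∨ (x = 0 ∧ y = -1) ∨
      (x = 1 ∧ y = 1) ∨ (x = -1 ∧ y = -1) := by
    obtain ⟨a1, a2⟩ := hx1
    obtain ⟨b1, b2⟩ := hy1
    have ha : x = -1 ∨ x = 0 ∨ x = 1 := by omega
    have hb : y = -1 ∨ y = 0 ∨ y = 1 := by omega
    rcases ha with rfl | rfl | rfl <;> rcases hb with rfl | rfl | rfl <;>
      first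
        | (exfalso; norm_num at h5; done)
        | simp
  have w2 : (1 : eis) + w = -w ^ 2 := by linear_combination w_sq
  rcases hcases with ⟨rfl, rfl⟩ | ⟨rfl, rfl⟩ | ⟨rfl, rfl⟩ | ⟨rfl, rfl⟩ | ⟨rfl, rfl⟩ | ⟨rfl, rfl⟩
  · push_cast; ring
  · push_cast
    have : (-1 + 0 * w : eis) = -1 := by ring
    rw [this]
    norm_num
  · push_cast
    have : (0 + 1 * w : eis) = w := by ring
    rw [this, w25]
  · push_cast
    have : (0 + -1 * w : eis) = -w := by ring
    rw [this]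
    have : (-w) ^ 25 = -w ^ 25 := by ring
    rw [this, w25]
  · push_cast
    have : (1 + 1 * w : eis) = -w ^ 2 := by rw [← w2]; ring
    rw [this]
    have : (-w ^ 2) ^ 25 = -(w ^ 25) ^ 2 := by ring
    rw [this, w25]
  · push_cast
    have : (-1 + -1 * w : eis) = w ^ 2 := by
      have : (-1 + -1 * w : eis) = -(1 + w) := by ring
      rw [this, w2]
      ring
    rw [this]
    have : (w ^ 2) ^ 25 = (w ^ 25) ^ 2 := by ring
    rw [this, w25]

/-- coprime factors of a fifth power are fifth powers -/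
lemma fifth {a b c : eis} (hab : IsCoprime a b) (h : a * b = c ^ 5) : ∃ ρ : eis, a = ρ ^ 5 := by
  obtain ⟨d, u, hd⟩ := exists_associated_pow_of_mul_eq_pow' hab h
  refine ⟨d * (u : eis) ^ 5, ?_⟩
  have h1 : ((u : eis) ^ 5) ^ 5 = u := by
    rw [← pow_mul]
    exact unit_pow u.isUnit
  rw [mul_pow, h1, hd]

/-- the primes of `1 + 2 w` -/
lemma dvd_three {π : eis} (h : π ∣ 1 + 2 * w) : π ∣ ((3 : ℤ) : eis) := by
  refine h.trans ⟨-(1 + 2 * w), ?_⟩
  push_cast
  linear_combination (4 : eis) * w_sq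

lemma int_cop {m n : ℤ} (h : IsCoprime m n) {π : eis} (hπ : Prime π) (h1 : π ∣ (m : eis))
    (h2 : π ∣ (n : eis)) : False := by
  obtain ⟨a, b, hab⟩ := h
  apply hπ.not_isUnit
  apply isUnit_of_dvd_one
  have h3 : (1 : eis) = (a : eis) * m + b * n := by exact_mod_cast hab.symm
  rw [h3]
  exact dvd_add (h1.mul_left _) (h2.mul_left _)

/-- a common prime divisor of `X ^ 2 + Y ^ 2 + Y ^ 2 w` and its conjugate `X ^ 2 - Y ^ 2 w` divides
`1 + 2 w` -/
lemma common {X Y : ℤ} (hc : IsCoprime X Y) {π : eis} (hπ : Prime π)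
    (h1 : π ∣ ((X ^ 2 + Y ^ 2 : ℤ) : eis) + ((Y ^ 2 : ℤ) : eis) * w)
    (h2 : π ∣ ((X ^ 2 : ℤ) : eis) + ((-Y ^ 2 : ℤ) : eis) * w) : π ∣ 1 + 2 * w := by
  by_contra hcon
  have h3 : π ∣ (1 + 2 * w) * ((Y ^ 2 : ℤ) : eis) := by
    have : (1 + 2 * w) * ((Y ^ 2 : ℤ) : eis) =
        (((X ^ 2 + Y ^ 2 : ℤ) : eis) + ((Y ^ 2 : ℤ) : eis) * w) -
          (((X ^ 2 : ℤ) : eis) + ((-Y ^ 2 : ℤ) : eis) * w) := by
      push_cast; ring
    rw [this]; exact dvd_sub h1 h2
  have h4 : π ∣ (1 + 2 * w) * ((X ^ 2 : ℤ) : eis) := by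
    have : (1 + 2 * w) * ((X ^ 2 : ℤ) : eis) =
        w * (((X ^ 2 + Y ^ 2 : ℤ) : eis) + ((Y ^ 2 : ℤ) : eis) * w) +
          (1 + w) * (((X ^ 2 : ℤ) : eis) + ((-Y ^ 2 : ℤ) : eis) * w) := by
      push_cast; ring
    rw [this]; exact dvd_add (h1.mul_left _) (h2.mul_left _)
  exact int_cop (hc.pow (m := 2) (n := 2)) hπ ((hπ.dvd_or_dvd h4).resolve_left hcon)
    ((hπ.dvd_or_dvd h3).resolve_left hcon)

lemma norm_Theta (X Y : ℤ) : (((X ^ 2 + Y ^ 2 : ℤ) : eis) + ((Y ^ 2 : ℤ) : eis) * w) *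
    (((X ^ 2 : ℤ) : eis) + ((-Y ^ 2 : ℤ) : eis) * w) =
      ((X ^ 4 + X ^ 2 * Y ^ 2 + Y ^ 4 : ℤ) : eis) := by
  push_cast
  linear_combination (-(Y : eis) ^ 4) * w_sq

/-- the coordinates of a fifth power -/
lemma coord {P Q x y : ℤ} (h : ((P : ℤ) : eis) + (Q : eis) * w = ((x : eis) + y * w) ^ 5) :
    P = x ^ 5 - 10 * x ^ 3 * y ^ 2 + 10 * x ^ 2 * y ^ 3 - y ^ 5 ∧
      Q = 5 * x ^ 4 * y - 10 * x ^ 3 * y ^ 2 + 5 * x * y ^ 4 - y ^ 5 := by
  apply eis_inj
  rw [h]
  push_cast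
  have w3 : w ^ 3 = 1 := by linear_combination (w - 1) * w_sq
  linear_combination (10 * (x : eis) ^ 2 * y ^ 3 + 5 * x * y ^ 4 * w + y ^ 5 * w ^ 2) * w3 +
    (10 * (x : eis) ^ 3 * y ^ 2 + y ^ 5) * w_sq

end Pool.Agent.W2helper96.Eis
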