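import Pool.Agent.W2helper96.F5.Weak
import Pool.Agent.W2helper83.UC.Cor

/-!
# From integers to rational numbers (exponent five)
-/

set_option autoImplicit false

namespace Pool.Agent.W2helper96.F5

open Finset Pool.Agent.T6.H62.UB Pool.Agent.W2helper83.UC

/-- The exceptional primes for the degree `d` and the parameter `t = a c ^ (d - 1)`. -/
def exc (d m : ℕ) (t : ℚ) : Finset ℕ :=
  t.den.primeFactors.filter fun p => p ≠ 2 ∧ 2 ^ (padicValNat 2 m + 1) ∣ p - 1 ∧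
    ¬ (5 * d ∣ padicValNat p t.den ∧ 5 ∣ padicValNat p d ∧
      d * padicValNat p d < padicValNat p t.den)

/-- The exceptional primes of the first kind. -/
def exc1 (d m : ℕ) (t : ℚ) : Finset ℕ :=
  t.den.primeFactors.filter fun p => p ≠ 2 ∧ 2 ^ (padicValNat 2 m + 1) ∣ p - 1 ∧
    ¬ (5 * d ∣ padicValNat p t.den ∧ d * padicValNat p d < padicValNat p t.den)

section

variable {d : ℕ} {a c : ℚ} {OQ : Finset ℚ} {l : ℚ} {A B : ℤ} {V : ℕ} {O : Finset ℤ} {φ : ℤ → ℤ}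

theorem red_exc_iff (R : Red d a c OQ l A B V O φ) (hd0 : d ≠ 0) {m p : ℕ} :
    p ∈ exc d m (a * c ^ (d - 1)) ↔ p.Prime ∧ p ∣ V ∧ p ≠ 2 ∧ Rel m p ∧ ¬ Cond d V p := by
  unfold exc
  rw [mem_filter, Nat.mem_primeFactors]
  have hV := R.V0
  have hd1 : 0 < d := Nat.pos_of_ne_zero hd0
  constructor
  · rintro ⟨⟨hp, hpV, -⟩, hp2, hr, hC⟩
    rw [R.t_den hd0] at hpV
    have hpV' := hp.dvd_of_dvd_pow hpV
    refine ⟨hp, hpV', hp2, hr, fun hC' => hC ?_⟩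
    have := Fact.mk hp
    rw [R.val_t hd0 hp]
    have h2 : 5 ∣ padicValNat p d ∧ padicValNat p d < padicValNat p V := by
      by_cases hpd : p ∣ d
      · exact hC'.2 hpd
      · rw [padicValNat.eq_zero_of_not_dvd hpd]
        exact ⟨dvd_zero _, one_le_padicValNat_of_dvd hV.ne' hpV'⟩
    exact ⟨by rw [mul_comm 5 d]; exact Nat.mul_dvd_mul_left d hC'.1, h2.1,
      Nat.mul_lt_mul_of_pos_left h2.2 hd1⟩
  · rintro ⟨hp, hpV, hp2, hr, hC⟩
    refine ⟨⟨hp, by rw [R.t_den hd0]; exact dvd_pow hpV hd0, by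
      rw [R.t_den hd0]; exact pow_ne_zero _ hV.ne'⟩, hp2, hr, fun hC' => hC ?_⟩
    have := Fact.mk hp
    rw [R.val_t hd0 hp] at hC'
    refine ⟨?_, fun _ => ⟨hC'.2.1, Nat.lt_of_mul_lt_mul_left hC'.2.2⟩⟩
    have h1 := hC'.1
    rw [mul_comm 5 d] at h1
    exact Nat.dvd_of_mul_dvd_mul_left hd1 h1

theorem red_exc (R : Red d a c OQ l A B V O φ) (hd0 : d ≠ 0) (m : ℕ) :
    Exc d m V (exc d m (a * c ^ (d - 1))) :=
  ⟨fun _ hp => ((red_exc_iff R hd0).1 hp).1, fun _ hp => ((red_exc_iff R hd0).1 hp).2.1,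
    fun _ hp hp2 hpV hr hC => (red_exc_iff R hd0).2 ⟨hp, hpV, hp2, hr, hC⟩⟩

theorem red_hyp_one (R : Red d a c OQ l A B V O φ) (hd0 : d ≠ 0) {m : ℕ}
    (h1 : exc1 d m (a * c ^ (d - 1)) = ∅) : ∀ p : ℕ, p.Prime → p ≠ 2 → p ∣ V → Rel m p →
      5 ∣ padicValNat p V ∧ padicValNat p d < padicValNat p V := by
  intro p hp hp2 hpV hr
  by_contra hcon
  have hV := R.V0
  have hd1 : 0 < d := Nat.pos_of_ne_zero hd0
  have hmem : p ∈ exc1 d m (a * c ^ (d - 1)) := by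
    unfold exc1
    rw [mem_filter, Nat.mem_primeFactors]
    refine ⟨⟨hp, by rw [R.t_den hd0]; exact dvd_pow hpV hd0, by
      rw [R.t_den hd0]; exact pow_ne_zero _ hV.ne'⟩, hp2, hr, fun hC' => hcon ?_⟩
    rw [R.val_t hd0 hp] at hC'
    have h2 := hC'.1
    rw [mul_comm 5 d] at h2
    exact ⟨Nat.dvd_of_mul_dvd_mul_left hd1 h2, Nat.lt_of_mul_lt_mul_left hC'.2⟩
  rw [h1] at hmem
  exact absurd hmem (by simp)

/-- the hypothesis of the strong theorem -/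
theorem red_hyp (R : Red d a c OQ l A B V O φ) (hd0 : d ≠ 0) {m : ℕ}
    (h1 : exc1 d m (a * c ^ (d - 1)) = ∅) {p1 p2 : ℕ}
    (h2 : F5.exc d m (a * c ^ (d - 1)) ⊆ {p1, p2}) : Hyp d m V p1 p2 := by
  refine ⟨red_hyp_one R hd0 h1, fun p hp hp2 hpV hr h3 => ?_⟩
  have hmem : p ∈ F5.exc d m (a * c ^ (d - 1)) := by
    rw [red_exc_iff R hd0]
    refine ⟨hp, hpV, hp2, hr, fun hC => h3 ?_⟩
    by_cases hpd : p ∣ d
    · exact (hC.2 hpd).1
    · rw [padicValNat.eq_zero_of_not_dvd hpd]; exact dvd_zero _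
  simpa using h2 hmem

end

/-- the property that `S` contains all the exceptional primes -/
def Big (d m : ℕ) (a c : ℚ) (S : Finset ℕ) : Prop :=
  ∀ (OQ : Finset ℚ) (l : ℚ) (A B : ℤ) (V : ℕ) (O : Finset ℤ) (φ : ℤ → ℤ),
    Red d a c OQ l A B V O φ → ∀ p : ℕ, p.Prime → p ≠ 2 → p ∣ V → Rel m p → ¬ Cond d V p → p ∈ S

/-- the hypothesis with two primes -/
def HypS (d m : ℕ) (a c : ℚ) (p1 p2 : ℕ) : Prop :=
  ∀ (OQ : Finset ℚ) (l : ℚ) (A B : ℤ) (V : ℕ) (O : Finset ℤ) (φ : ℤ → ℤ),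
    Red d a c OQ l A B V O φ → Hyp d m V p1 p2

theorem big_exc {d : ℕ} (hd0 : d ≠ 0) (m : ℕ) (a c : ℚ) : Big d m a c (exc d m (a * c ^ (d - 1))) :=
  fun _ _ _ _ _ _ _ R p hp hp2 hpV hr hC => (red_exc R hd0 m).cond p hp hp2 hpV hr hC

theorem hypS_exc {d : ℕ} (hd0 : d ≠ 0) {m : ℕ} {a c : ℚ} (h1 : exc1 d m (a * c ^ (d - 1)) = ∅)
    {p1 p2 : ℕ} (h2 : exc d m (a * c ^ (d - 1)) ⊆ {p1, p2}) : HypS d m a c p1 p2 :=
  fun _ _ _ _ _ _ _ R => red_hyp R hd0 h1 h2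

theorem Exc.filter {d m V : ℕ} {S : Finset ℕ}
    (h : ∀ p : ℕ, p.Prime → p ≠ 2 → p ∣ V → Rel m p → ¬ Cond d V p → p ∈ S) :
    Exc d m V (S.filter fun p => p.Prime ∧ p ∣ V) :=
  ⟨fun _ hp => (mem_filter.1 hp).2.1, fun _ hp => (mem_filter.1 hp).2.2,
    fun p hp hp2 hpV hr hC => mem_filter.2 ⟨h p hp hp2 hpV hr hC, hp, hpV⟩⟩

theorem per_A {d : ℕ} (hd : 4 ∣ d) (hd0 : d ≠ 0) {a c : ℚ} (ha : a ≠ 0) {S : Finset ℕ}
    (hS : Big d (d / 4) a c S) (T : Finset ℚ) (hT : ∀ x ∈ T, x ∈ periodicPts (cen d a c)) :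
    T.card ≤ 2 * ∏ p ∈ S, Nat.gcd 4 (p - 1) := by
  classical
  have h1 := one_le_prod S (k := 4) (by norm_num)
  rcases setup (by omega) ha T (fun x hx => per_sub_pre _ (hT x hx)) with h |
    ⟨OQ, l, A, B, V, O, φ, R, hTO, -⟩
  · have := card_le_one_of_zero h
    omega
  · obtain ⟨TZ, hTZ, hcard, hper⟩ := R.lift_per hTO hT
    have hE := Exc.filter (hS _ _ _ _ _ _ _ R)
    have hs := R.sys
    obtain ⟨e, rfl⟩ := hd
    rw [show 4 * e / 4 = e by omega] at hE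
    have h2 := card_A hs (by omega) R.A0 R.V0 hE TZ hTZ hper
    have h3 := prod_filter_le S (fun p => p.Prime ∧ p ∣ V) (k := 4) (by norm_num)
    omega

theorem per_A8 {d : ℕ} (hd : 8 ∣ d) (hd0 : d ≠ 0) {a c : ℚ} (ha : a ≠ 0) {S : Finset ℕ}
    (hS : Big d (d / 4) a c S) (T : Finset ℚ) (hT : ∀ x ∈ T, x ∈ periodicPts (cen d a c)) :
    T.card ≤ max 2 (∏ p ∈ S, Nat.gcd 4 (p - 1)) := by
  classical
  rcases setup (by omega) ha T (fun x hx => per_sub_pre _ (hT x hx)) with h |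
    ⟨OQ, l, A, B, V, O, φ, R, hTO, -⟩
  · have := card_le_one_of_zero h
    exact (this.trans (by norm_num)).trans (le_max_left _ _)
  · obtain ⟨TZ, hTZ, hcard, hper⟩ := R.lift_per hTO hT
    have hE := Exc.filter (hS _ _ _ _ _ _ _ R)
    have hs := R.sys
    obtain ⟨e, rfl⟩ := hd
    rw [show 8 * e = 4 * (2 * e) by ring] at hs hE
    rw [show 4 * (2 * e) / 4 = 2 * e by omega] at hE
    have h2 := card_A8 hs (by omega) R.A0 R.V0 hE TZ hTZ hper
    have h3 := prod_filter_le S (fun p => p.Prime ∧ p ∣ V) (k := 4) (by norm_num)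
    exact hcard.trans (h2.trans (max_le_max le_rfl h3))

theorem per_B12 {d : ℕ} (hd : 12 ∣ d) (hd0 : d ≠ 0) {a c : ℚ} (ha : a ≠ 0) {S : Finset ℕ}
    (hS : Big d (d / 2) a c S) (T : Finset ℚ) (hT : ∀ x ∈ T, x ∈ periodicPts (cen d a c)) :
    T.card ≤ max 2 (2 ^ S.card) := by
  classical
  rcases setup (by omega) ha T (fun x hx => per_sub_pre _ (hT x hx)) with h |
    ⟨OQ, l, A, B, V, O, φ, R, hTO, -⟩
  · have := card_le_one_of_zero h
    exact (this.trans (by norm_num)).trans (le_max_left _ _)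
  · obtain ⟨TZ, hTZ, hcard, hper⟩ := R.lift_per hTO hT
    have hE := Exc.filter (hS _ _ _ _ _ _ _ R)
    have hs := R.sys
    obtain ⟨e, rfl⟩ := hd
    rw [show 12 * e = 6 * (2 * e) by ring] at hs hE
    rw [show 6 * (2 * e) / 2 = 3 * (2 * e) by omega] at hE
    have h2 := card_B12 hs (by omega) R.A0 R.V0 hE TZ hTZ hper
    have h3 : 2 ^ (S.filter fun p => p.Prime ∧ p ∣ V).card ≤ 2 ^ S.card :=
      Nat.pow_le_pow_right (by norm_num) (card_filter_le _ _)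
    exact hcard.trans (h2.trans (max_le_max le_rfl h3))

theorem per_B {d : ℕ} (hd : 6 ∣ d) (hd0 : d ≠ 0) (h243 : ¬ 3 ^ 5 ∣ d)
    {a c : ℚ} (ha : a ≠ 0) {S : Finset ℕ}
    (hS : Big d (d / 2) a c S) (T : Finset ℚ) (hT : ∀ x ∈ T, x ∈ periodicPts (cen d a c)) :
    T.card ≤ 2 * 2 ^ S.card := by
  classical
  have h1 : 1 ≤ 2 ^ S.card := Nat.one_le_two_pow
  rcases setup (by omega) ha T (fun x hx => per_sub_pre _ (hT x hx)) with h |
    ⟨OQ, l, A, B, V, O, φ, R, hTO, -⟩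
  · have := card_le_one_of_zero h
    omega
  · obtain ⟨TZ, hTZ, hcard, hper⟩ := R.lift_per hTO hT
    have hE := Exc.filter (hS _ _ _ _ _ _ _ R)
    have hs := R.sys
    obtain ⟨e, rfl⟩ := hd
    rw [show 6 * e / 2 = 3 * e by omega] at hE
    have hS3 := hS _ _ _ _ _ _ _ R 3 Nat.prime_three (by norm_num)
    have h3' : 3 ∣ V → Rel (3 * e) 3 → 3 ∈ S.filter fun p => p.Prime ∧ p ∣ V := by
      intro h3 hrel
      apply hE.cond 3 Nat.prime_three (by norm_num) h3 hrel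
      intro hC
      obtain ⟨h4, -⟩ := hC.2 ⟨2 * e, by ring⟩
      have h5 : 1 ≤ padicValNat 3 (6 * e) :=
        one_le_padicValNat_of_dvd hd0 ⟨2 * e, by ring⟩
      have h6 : 5 ≤ padicValNat 3 (6 * e) := Nat.le_of_dvd h5 h4
      exact h243 ((padicValNat_dvd_iff_le hd0).2 h6)
    by_cases h12 : 2 ∣ e
    · obtain ⟨e', rfl⟩ := h12
      have h2 := card_B12 hs (by omega) R.A0 R.V0 hE TZ hTZ hper
      have h3 : 2 ^ (S.filter fun p => p.Prime ∧ p ∣ V).card ≤ 2 ^ S.card :=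
        Nat.pow_le_pow_right (by norm_num) (card_filter_le _ _)
      have h4 := h2.trans (max_le_max le_rfl h3)
      have h5 : max 2 (2 ^ S.card) ≤ 2 * 2 ^ S.card := max_le (by omega) (by omega)
      omega
    have h2 := card_B hs (by omega) R.A0 R.V0 hE (fun h3 => h3' h3
      (rel_of_odd (by omega) Nat.prime_three (by norm_num))) TZ hTZ hper
    have h3 : 2 ^ (S.filter fun p => p.Prime ∧ p ∣ V).card ≤ 2 ^ S.card :=
      Nat.pow_le_pow_right (by norm_num) (card_filter_le _ _)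
    omega

/-- one exceptional prime of the second kind -/
theorem per_W {d m : ℕ} (hs : WkA d m) {a c : ℚ} (ha : a ≠ 0) {p1 : ℕ}
    (hH : HypS d m a c p1 p1) (T : Finset ℚ) (hT : ∀ x ∈ T, x ∈ periodicPts (cen d a c)) :
    T.card ≤ 4 := by
  have hd2 : 2 ≤ d := by
    obtain ⟨e, he, rfl, -⟩ := hs
    omega
  rcases setup hd2 ha T (fun x hx => per_sub_pre _ (hT x hx)) with h |
    ⟨OQ, l, A, B, V, O, φ, R, hTO, -⟩
  · have := card_le_one_of_zero h
    omega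
  · obtain ⟨TZ, hTZ, hcard, hper⟩ := R.lift_per hTO hT
    exact hcard.trans (card_four hs (hH _ _ _ _ _ _ _ R) R.sys R.A0 R.V0 TZ hTZ hper)

theorem s_three {d m : ℕ} (hs : Str d m) {a c : ℚ} (ha : a ≠ 0) {p1 p2 : ℕ}
    (hH : HypS d m a c p1 p2) (T : Finset ℚ) (hT : ∀ x ∈ T, x ∈ preperiodicPts (cen d a c)) :
    T.card ≤ 3 := by
  rcases setup hs.two_le ha T hT with h | ⟨OQ, l, A, B, V, O, φ, R, hTO, hpre⟩
  · have := card_le_one_of_zero h
    omega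
  · obtain ⟨TZ, hTZ, hcard, -⟩ := R.lift hTO
    refine hcard.trans ((card_le_card hTZ).trans ?_)
    by_cases hV1 : V = 1
    · subst hV1
      exact card_pre_strong hs.eight hs.d0 R.sys R.A0 R.V0 cond_one hpre
    · have := strong_main hs (hH _ _ _ _ _ _ _ R) R.sys R.A0 R.V0 hV1 hpre
      omega

theorem s_one {d m : ℕ} (hs : Str d m) {a c : ℚ} (ha : a ≠ 0) {p1 p2 : ℕ}
    (hH : HypS d m a c p1 p2) (h0 : a * c ^ (d - 1) ≠ 0) (h1 : a * c ^ (d - 1) ≠ -1)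
    (T : Finset ℚ) (hT : ∀ x ∈ T, x ∈ periodicPts (cen d a c)) : T.card ≤ 1 := by
  rcases setup hs.two_le ha T (fun x hx => per_sub_pre _ (hT x hx)) with h |
    ⟨OQ, l, A, B, V, O, φ, R, hTO, -⟩
  · exact card_le_one_of_zero h
  · obtain ⟨TZ, hTZ, hcard, hper⟩ := R.lift_per hTO hT
    refine hcard.trans ?_
    by_cases hV1 : V = 1
    · subst hV1
      by_contra hcon
      obtain ⟨-, h2⟩ := strong_two hs.eight hs.d0 R.sys R.A0 R.V0 cond_one hTZ hper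
        (not_le.1 hcon)
      rcases h2 with h2 | h2
      · apply h0
        have hdd : d - 1 ≠ 0 := by have := hs.two_le; omega
        rw [R.t_of_one hs.d0 rfl, h2, zero_pow hdd, mul_zero, Int.cast_zero]
      · apply h1
        rw [R.t_of_one hs.d0 rfl, h2]
        norm_num
    · rw [card_le_one]
      intro x hx y hy
      exact strong_one hs (hH _ _ _ _ _ _ _ R) R.sys R.A0 R.V0 hV1 (hTZ hx) (hTZ hy)
        (hper x hx) (hper y hy)

theorem s_two {d m : ℕ} (hs : Str d m) {a c : ℚ} (ha : a ≠ 0) {p1 p2 : ℕ}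
    (hH : HypS d m a c p1 p2) (h0 : a * c ^ (d - 1) ≠ 0) (h1 : a * c ^ (d - 1) ≠ -1)
    (h2 : a * c ^ (d - 1) ≠ -2)
    (T : Finset ℚ) (hT : ∀ x ∈ T, x ∈ preperiodicPts (cen d a c)) : T.card ≤ 2 := by
  have hd' : 4 ∣ d ∨ 6 ∣ d := Or.inl hs.four
  rcases setup hs.two_le ha T hT with h | ⟨OQ, l, A, B, V, O, φ, R, hTO, hpre⟩
  · have := card_le_one_of_zero h
    omega
  · obtain ⟨TZ, hTZ, hcard, -⟩ := R.lift hTO
    refine hcard.trans ((card_le_card hTZ).trans ?_)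
    by_cases hV1 : V = 1
    · subst hV1
      obtain ⟨P, hPO, hPp, -, h3⟩ := pre_subset hs.even hs.d0 R.sys R.A0 R.V0
        (tailP_of_cond hd' hs.d0 R.sys R.A0 R.V0 cond_one) hpre
      have hP1 : P.card ≤ 1 := by
        by_contra hcon
        obtain ⟨-, h4⟩ := strong_two hs.eight hs.d0 R.sys R.A0 R.V0 cond_one hPO hPp
          (not_le.1 hcon)
        rcases h4 with h4 | h4
        · apply h0
          have hdd : d - 1 ≠ 0 := by have := hs.two_le; omega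
          rw [R.t_of_one hs.d0 rfl, h4, zero_pow hdd, mul_zero, Int.cast_zero]
        · apply h1
          rw [R.t_of_one hs.d0 rfl, h4]
          norm_num
      have h5 := card_sym P
      rcases h3 with h3 | ⟨h3, -, -⟩
      · have := card_le_card h3
        omega
      · exfalso
        obtain ⟨-, h7⟩ := cheb_t hs.even hs.d0 h3
        apply h2
        rw [R.t_of_one hs.d0 rfl, h7]
        norm_num
    · exact strong_main hs (hH _ _ _ _ _ _ _ R) R.sys R.A0 R.V0 hV1 hpre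

theorem s_shape {d m : ℕ} (hs : Str d m) {a c : ℚ} (ha : a ≠ 0) {p1 p2 : ℕ}
    (hH : HypS d m a c p1 p2) : Shape d a c := by
  apply shape_of hs.even hs.two_le ha
  intro OQ l A B V O φ R
  by_cases hV1 : V = 1
  · subst hV1
    exact tailP_of_cond (Or.inl hs.four) hs.d0 R.sys R.A0 R.V0 cond_one
  · exact strong_tail hs (hH _ _ _ _ _ _ _ R) R.sys R.A0 R.V0 hV1

end Pool.Agent.W2helper96.F5
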