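import Pool.Agent.W2helper96.F5.Cor

/-!
# Degrees congruent to six modulo twelve: arithmetic
-/

set_option autoImplicit false

namespace Pool.Agent.W2helper96.F5

open Pool.Agent.W2helper96.QP

/-- the valuations at the primes other than two and three are divisible by five -/
def V5 (z : ℤ) : Prop := ∀ p : ℕ, p.Prime → p ≠ 2 → p ≠ 3 → 5 ∣ padicValInt p z

theorem val_w (a b : ℕ) {p : ℕ} (hp : p.Prime) : padicValNat p (2 ^ a * 3 ^ b) =
    a * padicValNat p 2 + b * padicValNat p 3 := by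
  have := Fact.mk hp
  rw [padicValNat.mul (by positivity) (by positivity), padicValNat.pow, padicValNat.pow]

theorem form {z : ℤ} (hz : z ≠ 0) (a b : ℕ) (h2 : ∃ k, padicValInt 2 z = a + 5 * k)
    (h3 : ∃ k, padicValInt 3 z = b + 5 * k) (h : V5 z) : ∃ y : ℤ, z = 2 ^ a * 3 ^ b * y ^ 5 := by
  have f2 := Fact.mk Nat.prime_two
  have f3 := Fact.mk Nat.prime_three
  obtain ⟨k2, hk2⟩ := h2
  obtain ⟨k3, hk3⟩ := h3
  have d2 : (2 : ℤ) ^ a ∣ z := by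
    have := (padicValInt_dvd_iff (p := 2) a z).2 (Or.inr (by omega))
    exact_mod_cast this
  have d3 : (3 : ℤ) ^ b ∣ z := by
    have := (padicValInt_dvd_iff (p := 3) b z).2 (Or.inr (by omega))
    exact_mod_cast this
  have hcop : IsCoprime ((2 : ℤ) ^ a) (3 ^ b) := by
    apply IsCoprime.pow
    exact ⟨-1, 1, by norm_num⟩
  obtain ⟨y, hy⟩ := hcop.mul_dvd d2 d3
  have hy0 : y ≠ 0 := by rintro rfl; exact hz (by rw [hy]; ring)
  have hw : (2 : ℤ) ^ a * 3 ^ b = ((2 ^ a * 3 ^ b : ℕ) : ℤ) := by push_cast; rfl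
  have hw0 : ((2 ^ a * 3 ^ b : ℕ) : ℤ) ≠ 0 := by positivity
  have e22 : padicValNat 2 2 = 1 := padicValNat_self
  have e33 : padicValNat 3 3 = 1 := padicValNat_self
  have e23 : padicValNat 2 3 = 0 := padicValNat_primes (by norm_num)
  have e32 : padicValNat 3 2 = 0 := padicValNat_primes (by norm_num)
  obtain ⟨t, ht⟩ := pow_of_val five_odd hy0 (by
    intro p hp
    have := Fact.mk hp
    have e : padicValInt p z = padicValNat p (2 ^ a * 3 ^ b) + padicValInt p y := by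
      rw [hy, hw, padicValInt.mul hw0 hy0, padicValInt.of_nat]
    rw [val_w a b hp] at e
    by_cases hp2 : p = 2
    · subst hp2
      rw [e22, e23] at e
      omega
    · by_cases hp3 : p = 3
      · subst hp3
        rw [e32, e33] at e
        omega
      · have f1 : padicValNat p 2 = 0 := padicValNat_primes hp2
        have f4 : padicValNat p 3 = 0 := padicValNat_primes hp3
        rw [f1, f4] at e
        have := h p hp hp2 hp3
        omega)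
  exact ⟨t, by rw [hy, ht]⟩

theorem val_two_of {z : ℤ} (h : z % 4 = 2) : padicValInt 2 z = 1 := by
  have f2 := Fact.mk Nat.prime_two
  have hz : z ≠ 0 := by rintro rfl; norm_num at h
  have h1 : 1 ≤ padicValInt 2 z := by
    rcases (padicValInt_dvd_iff (p := 2) 1 z).1 (by push_cast; omega) with h1 | h1
    · exact absurd h1 hz
    · exact h1
  have h2 : ¬ 2 ≤ padicValInt 2 z := by
    intro h2
    have := (padicValInt_dvd_iff (p := 2) 2 z).2 (Or.inr h2)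
    push_cast at this
    omega
  omega

theorem val_two_odd {z : ℤ} (h : z % 2 = 1) : padicValInt 2 z = 0 := by
  apply padicValInt.eq_zero_of_not_dvd
  push_cast
  omega

theorem val_three_not {z : ℤ} (h : ¬ (3 : ℤ) ∣ z) : padicValInt 3 z = 0 := by
  apply padicValInt.eq_zero_of_not_dvd
  exact_mod_cast h

theorem val_three_of {z : ℤ} (h : z % 9 = 3 ∨ z % 9 = 6) : padicValInt 3 z = 1 := by
  have f3 := Fact.mk Nat.prime_three
  have hz : z ≠ 0 := by rintro rfl; norm_num at h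
  have h1 : 1 ≤ padicValInt 3 z := by
    rcases (padicValInt_dvd_iff (p := 3) 1 z).1 (by push_cast; omega) with h1 | h1
    · exact absurd h1 hz
    · exact h1
  have h2 : ¬ 2 ≤ padicValInt 3 z := by
    intro h2
    have := (padicValInt_dvd_iff (p := 3) 2 z).2 (Or.inr h2)
    push_cast at this
    omega
  omega

/-- `3 ∣ u + w`: the valuation of `u ^ 2 - u w + w ^ 2` is one -/
theorem phi6_mod {u w : ℤ} (hu : ¬ (3 : ℤ) ∣ u) (h : (3 : ℤ) ∣ u + w) :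
    (u ^ 2 - u * w + w ^ 2) % 9 = 3 := by
  obtain ⟨k, hk⟩ := h
  have hw : w = 3 * k - u := by linarith
  have hu' : u % 3 = 1 ∨ u % 3 = 2 := by omega
  have hsq : ∃ j : ℤ, u ^ 2 = 3 * j + 1 := by
    rcases hu' with h | h
    · obtain ⟨i, hi⟩ : ∃ i, u = 3 * i + 1 := ⟨u / 3, by omega⟩
      exact ⟨3 * i ^ 2 + 2 * i, by rw [hi]; ring⟩
    · obtain ⟨i, hi⟩ : ∃ i, u = 3 * i + 2 := ⟨u / 3, by omega⟩
      exact ⟨3 * i ^ 2 + 4 * i + 1, by rw [hi]; ring⟩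
  obtain ⟨j, hj⟩ := hsq
  have : u ^ 2 - u * w + w ^ 2 = 9 * (k ^ 2 - k * u + j) + 3 := by
    rw [hw]; linear_combination 3 * hj
  omega

theorem phi3_not {u w : ℤ} (hu : ¬ (3 : ℤ) ∣ u) (h : (3 : ℤ) ∣ u + w) :
    ¬ (3 : ℤ) ∣ u ^ 2 + u * w + w ^ 2 := by
  intro h3
  have h4 : (3 : ℤ) ∣ u ^ 2 := by
    have : u ^ 2 = (u ^ 2 + u * w + w ^ 2) - w * (u + w) := by ring
    rw [this]; exact dvd_sub h3 (h.mul_left _)
  exact hu (Int.prime_three.dvd_of_dvd_pow h4)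

theorem phi3_mod {u w : ℤ} (hu : ¬ (3 : ℤ) ∣ u) (h : (3 : ℤ) ∣ u - w) :
    (u ^ 2 + u * w + w ^ 2) % 9 = 3 := by
  have := phi6_mod (w := -w) hu (by rwa [← sub_eq_add_neg])
  rw [show u ^ 2 - u * -w + (-w) ^ 2 = u ^ 2 + u * w + w ^ 2 by ring] at this
  exact this

theorem odd_phi {u w : ℤ} (hu : u % 2 = 1) (hw : w % 2 = 1) :
    (u ^ 2 + u * w + w ^ 2) % 2 = 1 ∧ (u ^ 2 - u * w + w ^ 2) % 2 = 1 := by
  obtain ⟨i, hi⟩ : ∃ i, u = 2 * i + 1 := ⟨u / 2, by omega⟩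
  obtain ⟨j, hj⟩ : ∃ j, w = 2 * j + 1 := ⟨w / 2, by omega⟩
  constructor
  · have : u ^ 2 + u * w + w ^ 2 = 2 * (2 * i ^ 2 + 3 * i + 2 * i * j + 3 * j + 2 * j ^ 2 + 1) + 1 := by
      rw [hi, hj]; ring
    omega
  · have : u ^ 2 - u * w + w ^ 2 = 2 * (2 * i ^ 2 + i - 2 * i * j + j + 2 * j ^ 2) + 1 := by
      rw [hi, hj]; ring
    omega

/-- **`v_3 (u + w) ≡ 3 mod 5` is impossible.** -/
theorem no_three {u w : ℤ} (hc : IsCoprime u w) (hu2 : u % 2 = 1) (h4 : (4 : ℤ) ∣ u - w)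
    (hu3 : ¬ (3 : ℤ) ∣ u) (h3 : (3 : ℤ) ∣ u + w) (h5 : ∃ k, padicValInt 3 (u + w) = 3 + 5 * k)
    (v1 : V5 (u + w)) (v2 : V5 (u ^ 2 - u * w + w ^ 2)) : False := by
  have hw2 : w % 2 = 1 := by omega
  obtain ⟨A, hA⟩ := form (z := u + w) (by omega) 1 3 ⟨0, by rw [val_two_of (by omega)]⟩ h5 v1
  have hodd := (odd_phi hu2 hw2).2
  obtain ⟨C, hC⟩ := form (z := u ^ 2 - u * w + w ^ 2) (by omega) 0 1
    ⟨0, by rw [val_two_odd hodd]⟩ ⟨0, by rw [val_three_of (Or.inl (phi6_mod hu3 h3))]⟩ v2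
  obtain ⟨D, hD⟩ : (2 : ℤ) ∣ (u - w) / 2 := by omega
  have hD2 : u - w = 4 * D := by omega
  have hAo : ¬ (2 : ℤ) ∣ A := by
    rintro ⟨i, rfl⟩
    have : u + w = 4 * (432 * i ^ 5) := by rw [hA]; ring
    omega
  have e1 : u = 27 * A ^ 5 + 2 * D := by linarith
  have e2 : w = 27 * A ^ 5 - 2 * D := by linarith
  have e3 : C ^ 5 - (3 * A ^ 2) ^ 5 = 1 * (2 * D) ^ 2 := by
    have h6 : 3 * (C ^ 5) = u ^ 2 - u * w + w ^ 2 := by rw [hC]; ring
    rw [e1, e2] at h6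
    have h7 : 3 * (C ^ 5) = 3 * ((3 * A ^ 2) ^ 5 + 1 * (2 * D) ^ 2) := by rw [h6]; ring
    linarith
  have hCo : ¬ (2 : ℤ) ∣ C := by
    rintro ⟨i, rfl⟩
    have : u ^ 2 - u * w + w ^ 2 = 2 * (48 * i ^ 5) := by rw [hC]; ring
    omega
  have hA2 := sq_mod_four hAo
  have hmod : (C - 3 * A ^ 2) % 4 = 0 := by
    have hy : (3 * A ^ 2) % 4 = 3 := by omega
    have hy5 : (3 * A ^ 2) ^ 5 % 4 = 3 := by
      have : 3 * A ^ 2 ≡ 3 [ZMOD 4] := hy
      have := this.pow 5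
      exact this
    have hC5 : C ^ 5 % 4 = 3 := by
      have : (2 * D) ^ 2 = 4 * D ^ 2 := by ring
      omega
    have hC4 : C % 4 = 1 ∨ C % 4 = 3 := by omega
    rcases hC4 with h | h
    · have h6 : C ≡ 1 [ZMOD 4] := h
      have h7 := h6.pow 5
      have h8 : C ^ 5 % 4 = 1 := h7
      omega
    · omega
  have hc' : IsCoprime C (3 * A ^ 2) := by
    apply isCoprime_of_prime_dvd
    · rintro ⟨h7, -⟩
      exact hCo (by rw [h7]; exact dvd_zero _)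
    intro p hp hpC hpA
    have hpD : p ∣ 2 * D := by
      apply hp.dvd_of_dvd_pow (n := 2)
      have : (2 * D) ^ 2 = C ^ 5 - (3 * A ^ 2) ^ 5 := by rw [e3]; ring
      rw [this]; exact dvd_sub (hpC.pow (by norm_num)) (hpA.pow (by norm_num))
    have hps : p ∣ 27 * A ^ 5 := by
      rcases hp.dvd_or_dvd hpA with h | h
      · exact (h.trans ⟨9, by norm_num⟩).mul_right _
      · exact ((hp.dvd_of_dvd_pow h).pow (by norm_num)).mul_left _
    exact hp.not_isUnit (hc.isUnit_of_dvd' (by rw [e1]; exact dvd_add hps hpD)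
      (by rw [e2]; exact dvd_sub hps hpD))
  have h6 := K5 (Or.inl rfl) hCo hmod hc' e3
  rw [h6, sub_self] at e3
  have hD0 : D = 0 := by
    have : D ^ 2 = 0 := by linarith
    exact (pow_eq_zero_iff (by norm_num)).1 this
  rw [hD0] at hD2
  have : u = w := by linarith
  subst this
  omega

/-! ### modulo eleven -/

theorem e11a : ∀ α β γ : ZMod 11, 8 * (81 * α ^ 5) ^ 2 = 3 * (β ^ 5 - γ ^ 5) → α = 0 := by decide

theorem e11b : ∀ κ δ ε : ZMod 11, κ ≠ 0 → κ + κ = 16 * δ ^ 5 →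
    κ ^ 2 + κ * κ + κ ^ 2 = 3 * ε ^ 5 → False := by decide

theorem e11c : ∀ κ η θ : ZMod 11, κ ≠ 0 → κ + κ = 27 * η ^ 5 →
    κ ^ 2 + κ * κ + κ ^ 2 = θ ^ 5 → False := by decide

theorem cast11 {z : ℤ} (h : (11 : ℤ) ∣ z) : (z : ZMod 11) = 0 :=
  (ZMod.intCast_zmod_eq_zero_iff_dvd z 11).2 (by exact_mod_cast h)

theorem of_cast11 {z : ℤ} (h : (z : ZMod 11) = 0) : (11 : ℤ) ∣ z := by
  exact_mod_cast (ZMod.intCast_zmod_eq_zero_iff_dvd z 11).1 h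

theorem pureA {a b : ℤ} (oa : a % 2 = 1) (h4 : (4 : ℤ) ∣ a - b) (na : ¬ (3 : ℤ) ∣ a)
    (h3 : (3 : ℤ) ∣ a + b) (h5 : ∃ k, padicValInt 3 (a + b) = 4 + 5 * k) (v1 : V5 (a + b))
    (v2 : V5 (a ^ 2 + a * b + b ^ 2)) (v3 : V5 (a ^ 2 - a * b + b ^ 2)) : (11 : ℤ) ∣ a + b := by
  have ob : b % 2 = 1 := by omega
  have m4 : (a + b) % 4 = 2 := by omega
  obtain ⟨o1, o2⟩ := odd_phi oa ob
  obtain ⟨α, hα⟩ := form (z := a + b) (by omega) 1 4 ⟨0, by rw [val_two_of m4]⟩ h5 v1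
  obtain ⟨β, hβ⟩ := form (z := a ^ 2 + a * b + b ^ 2) (by omega) 0 0
    ⟨0, by rw [val_two_odd o1]⟩ ⟨0, by rw [val_three_not (phi3_not na h3)]⟩ v2
  obtain ⟨γ, hγ⟩ := form (z := a ^ 2 - a * b + b ^ 2) (by omega) 0 1
    ⟨0, by rw [val_two_odd o2]⟩ ⟨0, by rw [val_three_of (Or.inl (phi6_mod na h3))]⟩ v3
  have f1 : 81 * α ^ 5 * 2 = a + b := by rw [hα]; ring
  have f2 : β ^ 5 = a ^ 2 + a * b + b ^ 2 := by rw [hβ]; ring
  have f3 : 3 * γ ^ 5 = a ^ 2 - a * b + b ^ 2 := by rw [hγ]; ring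
  have e2 : 8 * (81 * α ^ 5) ^ 2 = 3 * (β ^ 5 - γ ^ 5) := by
    have f4 : 8 * (81 * α ^ 5) ^ 2 = 2 * (81 * α ^ 5 * 2) ^ 2 := by ring
    rw [f4, f1]
    linear_combination (-3) * f2 + f3
  have e1 : 8 * (81 * (α : ZMod 11) ^ 5) ^ 2 = 3 * ((β : ZMod 11) ^ 5 - (γ : ZMod 11) ^ 5) := by
    have := congrArg (fun z : ℤ => (z : ZMod 11)) e2
    push_cast at this
    exact this
  have e4 := of_cast11 (e11a _ _ _ e1)
  rw [hα]
  exact (e4.pow (by norm_num)).mul_left _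

theorem pureB {c a : ℤ} (oc : c % 2 = 1) (oa : a % 2 = 1) (nc : ¬ (3 : ℤ) ∣ c)
    (h3 : (3 : ℤ) ∣ c - a) (n3 : ¬ (3 : ℤ) ∣ c + a)
    (h2 : ∃ k, padicValInt 2 (c + a) = 4 + 5 * k) (v1 : V5 (c + a))
    (v2 : V5 (c ^ 2 + c * a + a ^ 2)) (h11 : (11 : ℤ) ∣ c - a) : (11 : ℤ) ∣ a := by
  obtain ⟨o1, -⟩ := odd_phi oc oa
  have hs : c + a ≠ 0 := by
    intro h0
    rw [h0] at n3
    exact n3 (dvd_zero _)
  obtain ⟨δ, hδ⟩ := form hs 4 0 h2 ⟨0, by rw [val_three_not n3]⟩ v1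
  obtain ⟨ε, hε⟩ := form (z := c ^ 2 + c * a + a ^ 2) (by omega) 0 1
    ⟨0, by rw [val_two_odd o1]⟩ ⟨0, by rw [val_three_of (Or.inl (phi3_mod nc h3))]⟩ v2
  by_contra hcon
  have hca : (c : ZMod 11) = a := by
    have := cast11 h11
    push_cast at this
    exact sub_eq_zero.1 this
  have a0 : (a : ZMod 11) ≠ 0 := fun h => hcon (of_cast11 h)
  have cδ := congrArg (fun z : ℤ => (z : ZMod 11)) hδ
  have cε := congrArg (fun z : ℤ => (z : ZMod 11)) hε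
  push_cast at cδ cε
  rw [hca] at cδ cε
  exact e11b _ (δ : ZMod 11) (ε : ZMod 11) a0 (by rw [cδ]) (by rw [cε])

theorem pureC {b c : ℤ} (ob : b % 2 = 1) (oc : c % 2 = 1) (nb : ¬ (3 : ℤ) ∣ b)
    (h3 : (3 : ℤ) ∣ b + c) (hs : b + c ≠ 0) (h2 : ∃ k, padicValInt 2 (b + c) = 0 + 5 * k)
    (h3' : ∃ k, padicValInt 3 (b + c) = 3 + 5 * k) (v1 : V5 (b + c))
    (v2 : V5 (b ^ 2 + b * c + c ^ 2)) (h11 : (11 : ℤ) ∣ b - c) : (11 : ℤ) ∣ c := by
  obtain ⟨o1, -⟩ := odd_phi ob oc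
  obtain ⟨η, hη⟩ := form hs 0 3 h2 h3' v1
  obtain ⟨θ, hθ⟩ := form (z := b ^ 2 + b * c + c ^ 2) (by omega) 0 0
    ⟨0, by rw [val_two_odd o1]⟩ ⟨0, by rw [val_three_not (phi3_not nb h3)]⟩ v2
  by_contra hcon
  have hbc : (b : ZMod 11) = c := by
    have := cast11 h11
    push_cast at this
    exact sub_eq_zero.1 this
  have c0 : (c : ZMod 11) ≠ 0 := fun h => hcon (of_cast11 h)
  have cη := congrArg (fun z : ℤ => (z : ZMod 11)) hη
  have cθ := congrArg (fun z : ℤ => (z : ZMod 11)) hθ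
  push_cast at cη cθ
  rw [hbc] at cη cθ
  exact e11c _ (η : ZMod 11) (θ : ZMod 11) c0 (by rw [cη]) (by rw [cθ]; ring)

end Pool.Agent.W2helper96.F5
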