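import Pool.Agent.W2helper96.F5.SixA

/-!
# Degrees congruent to six modulo twelve: no cycles of length three or more
-/

set_option autoImplicit false

namespace Pool.Agent.W2helper96.F5

open Finset Pool.Agent.T6.H62.UB Pool.Agent.W2helper83.UC

theorem three_add_of {x y : ℤ} (hx : ¬ (3 : ℤ) ∣ x) (hy : ¬ (3 : ℤ) ∣ y)
    (h : ¬ (3 : ℤ) ∣ x - y) : (3 : ℤ) ∣ x + y := by
  have h1 : x % 3 = 1 ∨ x % 3 = 2 := by omega
  have h2 : y % 3 = 1 ∨ y % 3 = 2 := by omega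
  rcases h1 with h1 | h1 <;> rcases h2 with h2 | h2 <;> omega

theorem not_three_sub {x y z : ℤ} (h1 : ¬ (3 : ℤ) ∣ x - y) (h2 : (3 : ℤ) ∣ y - z) :
    ¬ (3 : ℤ) ∣ z - x := by
  intro h3
  apply h1
  have : x - y = -((y - z) + (z - x)) := by ring
  rw [this, dvd_neg]
  exact dvd_add h2 h3

/-- the conditions on the degree and on the denominator -/
structure Hyp6 (d V : ℕ) : Prop where
  d12 : d % 12 = 6
  d9 : ¬ 9 ∣ d
  d5 : ¬ 5 ∣ d
  five : ∀ p : ℕ, p.Prime → 5 ∣ padicValNat p V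
  cond : ∀ p : ℕ, p.Prime → p ≠ 2 → p ≠ 3 → p ∣ V → Cond d V p

section

variable {d : ℕ} {A B : ℤ} {V : ℕ} {O : Finset ℤ} {φ : ℤ → ℤ}

theorem Hyp6.six (H : Hyp6 d V) : 6 ∣ d := by have := H.d12; omega

theorem Hyp6.ev (H : Hyp6 d V) : Even d := even_iff_two_dvd.2 (by have := H.d12; omega)

theorem Hyp6.d0 (H : Hyp6 d V) : d ≠ 0 := by have := H.d12; omega

theorem Hyp6.v2 (H : Hyp6 d V) : padicValNat 2 d = 1 := by
  have f2 := Fact.mk Nat.prime_two
  have h1 : 1 ≤ padicValNat 2 d := one_le_padicValNat_of_dvd H.d0 (by have := H.d12; omega)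
  have h2 : ¬ 2 ≤ padicValNat 2 d := by
    intro h2
    have := (padicValNat_dvd_iff_le (p := 2) (n := 2) H.d0).2 h2
    have := H.d12
    omega
  omega

theorem Hyp6.v3 (H : Hyp6 d V) : padicValNat 3 d = 1 := by
  have f3 := Fact.mk Nat.prime_three
  have h1 : 1 ≤ padicValNat 3 d := one_le_padicValNat_of_dvd H.d0 (by have := H.d12; omega)
  have h2 : ¬ 2 ≤ padicValNat 3 d := by
    intro h2
    have := (padicValNat_dvd_iff_le (p := 3) (n := 2) H.d0).2 h2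
    exact H.d9 this
  omega

theorem psi6 (hd : 6 ∣ d) {u w : ℤ} (hne : u ≠ w) :
    (u + w) * (u ^ 2 + u * w + w ^ 2) * (u ^ 2 - u * w + w ^ 2) ∣ Psi d u w := by
  obtain ⟨e, rfl⟩ := hd
  obtain ⟨k, hk⟩ : u ^ 6 - w ^ 6 ∣ (u ^ 6) ^ e - (w ^ 6) ^ e := sub_dvd_pow_sub_pow _ _ e
  refine ⟨k, ?_⟩
  apply mul_left_cancel₀ (sub_ne_zero.2 hne)
  rw [psi_mul, pow_mul, pow_mul, hk]
  ring

/-- the valuations at the primes `p ≥ 5` -/
theorem pair_V5 (H : Hyp6 d V) (h : Sys d A B V O φ) (hA : A ≠ 0) (hV : 0 < V)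
    {u w : ℤ} (hu : u ∈ O) (hw : w ∈ O) (pu : Per φ u) (pw : Per φ w) (hne : u ≠ w) :
    V5 (u + w) ∧ V5 (u ^ 2 + u * w + w ^ 2) ∧ V5 (u ^ 2 - u * w + w ^ 2) := by
  have hn := per_NM pu pw hne
  have hpow := NM.pow_ne h hV hu hw hn
  have hdv := psi6 H.six hne
  have key : ∀ p : ℕ, p.Prime → p ≠ 2 → p ≠ 3 → 5 ∣ padicValInt p (u + w) ∧
      5 ∣ padicValInt p (u ^ 2 + u * w + w ^ 2) ∧ 5 ∣ padicValInt p (u ^ 2 - u * w + w ^ 2) := by
    intro p hp hp2 hp3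
    by_cases hpV : p ∣ V
    · have hC := H.cond p hp hp2 hp3 hpV
      have h5 := val_pow_sub_dvd h hA H.d0 hV hp hp2 hpV hC hu hw hn
      have hd5 : 5 ∣ padicValNat p d := by
        by_cases hpd : p ∣ d
        · exact (hC.2 hpd).1
        · rw [padicValNat.eq_zero_of_not_dvd hpd]; exact dvd_zero _
      have hx := h.not_dvd H.d0 hp hpV hu
      refine ⟨QP.val_addR hp hp2 hx H.d0 H.ev hpow h5 hd5, ?_,
        QP.val_phiR hp hp2 hp3 hx H.d0 H.six hpow h5 hd5⟩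
      have := QP.val_phiR (y := -w) hp hp2 hp3 hx H.d0 H.six (by rwa [H.ev.neg_pow])
        (by rwa [H.ev.neg_pow]) hd5
      rwa [show u ^ 2 - u * -w + (-w) ^ 2 = u ^ 2 + u * w + w ^ 2 by ring] at this
    · have hg := (good h hA hV hu hw pu pw hne hp hpV).2
      have h1 : ¬ (p : ℤ) ∣ u + w := fun h1 => hg ((h1.trans ⟨(u ^ 2 + u * w + w ^ 2) *
        (u ^ 2 - u * w + w ^ 2), by ring⟩).trans hdv)
      have h2 : ¬ (p : ℤ) ∣ u ^ 2 + u * w + w ^ 2 := fun h1 => hg ((h1.trans ⟨(u + w) *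
        (u ^ 2 - u * w + w ^ 2), by ring⟩).trans hdv)
      have h3 : ¬ (p : ℤ) ∣ u ^ 2 - u * w + w ^ 2 := fun h1 => hg ((h1.trans ⟨(u + w) *
        (u ^ 2 + u * w + w ^ 2), by ring⟩).trans hdv)
      rw [padicValInt.eq_zero_of_not_dvd h1, padicValInt.eq_zero_of_not_dvd h2,
        padicValInt.eq_zero_of_not_dvd h3]
      exact ⟨dvd_zero _, dvd_zero _, dvd_zero _⟩
  exact ⟨fun p h1 h2 h3 => (key p h1 h2 h3).1, fun p h1 h2 h3 => (key p h1 h2 h3).2.1,
    fun p h1 h2 h3 => (key p h1 h2 h3).2.2⟩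

/-- different periodic points differ modulo four or modulo three -/
theorem inj12 (H : Hyp6 d V) (h : Sys d A B V O φ) (hA : A ≠ 0) (hV : 0 < V) (hV2 : 2 ∣ V)
    {u w : ℤ} (hu : u ∈ O) (hw : w ∈ O) (pu : Per φ u) (pw : Per φ w) (hne : u ≠ w)
    (h4 : (4 : ℤ) ∣ u - w) (h3 : 3 ∣ V → (3 : ℤ) ∣ u - w) : False := by
  obtain ⟨e, he⟩ := H.six
  have hd0 := H.d0
  subst he
  have hn := per_NM pu pw hne
  have h3' : 3 ∣ V → (3 : ℤ) ∣ u ^ (3 * e) - w ^ (3 * e) := fun h5 =>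
    (h3 h5).trans (sub_dvd_pow_sub_pow _ _ _)
  apply B_even h (by omega) hA hV hV2 hu hw pu pw hne _ h3'
    (h4.trans (sub_dvd_pow_sub_pow _ _ _))
  intro p hp hp2 hpV
  by_cases hp3 : p = 3
  · subst hp3
    exact Or.inr (by exact_mod_cast h3' hpV)
  · exact Or.inl (val_pow_sub_dvd h hA hd0 hV hp hp2 hpV (H.cond p hp hp2 hp3 hpV) hu hw hn)

/-- one step at the prime two -/
theorem two_step (H : Hyp6 d V) (h : Sys d A B V O φ) (hA : A ≠ 0) (hV : 0 < V) (hV2 : 2 ∣ V)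
    {u w : ℤ} (hu : u ∈ O) (hw : w ∈ O) (pu : Per φ u) (pw : Per φ w) (hne : u ≠ w) :
    padicValInt 2 (u + w) + padicValInt 2 (u - w) =
      padicValNat 2 V + padicValInt 2 (φ u - φ w) := by
  have hn := per_NM pu pw hne
  have hpow := NM.pow_ne h hV hu hw hn
  have ou := odd_of_even_V h H.d0 hV2 hu
  have ow := odd_of_even_V h H.d0 hV2 hw
  have hsum : u + w ≠ 0 := by
    intro h0
    apply hpow
    rw [show u = -w by linarith, H.ev.neg_pow]
  have h1 := val_step h hA hV Nat.prime_two hu hw hn.step.ne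
  rw [padicValInt.eq_zero_of_not_dvd (h.not_dvd_A Nat.prime_two hV2), zero_add] at h1
  have h2 := Int.two_pow_sub_pow (x := u) (y := w) (n := d) (by omega) ou H.ev
  have e1 : ∀ z : ℤ, z ≠ 0 → emultiplicity (2 : ℤ) z = (padicValInt 2 z : ℕ∞) := by
    intro z hz
    have := emul_eq Nat.prime_two hz
    exact_mod_cast this
  rw [e1 _ (sub_ne_zero.2 hpow), e1 _ hsum, e1 _ (sub_ne_zero.2 hne),
    e1 (d : ℤ) (by exact_mod_cast H.d0), padicValInt.of_nat, H.v2] at h2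
  have h3 : padicValInt 2 (u ^ d - w ^ d) + 1 = padicValInt 2 (u + w) + padicValInt 2 (u - w) + 1 := by
    exact_mod_cast h2
  omega

theorem three_sub (H : Hyp6 d V) (h : Sys d A B V O φ) (hA : A ≠ 0) (hV : 0 < V) (hV3 : 3 ∣ V)
    {u w : ℤ} (hu : u ∈ O) (hw : w ∈ O) (pu : Per φ u) (pw : Per φ w) (hne : u ≠ w)
    (h3 : (3 : ℤ) ∣ u - w) :
    padicValInt 3 (u - w) + 1 = padicValNat 3 V + padicValInt 3 (φ u - φ w) := by
  have hn := per_NM pu pw hne
  have hpow := NM.pow_ne h hV hu hw hn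
  have h1 := val_step h hA hV Nat.prime_three hu hw hn.step.ne
  rw [padicValInt.eq_zero_of_not_dvd (h.not_dvd_A Nat.prime_three hV3), zero_add] at h1
  have h2 := lte_val Nat.prime_three (by norm_num) H.d0 (by exact_mod_cast h3)
    (h.not_dvd H.d0 Nat.prime_three hV3 hu) hpow
  rw [H.v3] at h2
  omega

theorem three_add (H : Hyp6 d V) (h : Sys d A B V O φ) (hA : A ≠ 0) (hV : 0 < V) (hV3 : 3 ∣ V)
    {u w : ℤ} (hu : u ∈ O) (hw : w ∈ O) (pu : Per φ u) (pw : Per φ w) (hne : u ≠ w)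
    (h3 : (3 : ℤ) ∣ u + w) :
    padicValInt 3 (u + w) + 1 = padicValNat 3 V + padicValInt 3 (φ u - φ w) := by
  have hn := per_NM pu pw hne
  have hpow := NM.pow_ne h hV hu hw hn
  have h1 := val_step h hA hV Nat.prime_three hu hw hn.step.ne
  rw [padicValInt.eq_zero_of_not_dvd (h.not_dvd_A Nat.prime_three hV3), zero_add] at h1
  have h2 := lte_val (w := -w) Nat.prime_three (by norm_num) H.d0
    (by rw [sub_neg_eq_add]; exact_mod_cast h3)
    (h.not_dvd H.d0 Nat.prime_three hV3 hu) (by rwa [H.ev.neg_pow])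
  rw [H.v3, H.ev.neg_pow, sub_neg_eq_add] at h2
  omega

theorem Hyp6.K (H : Hyp6 d V) (hV : 0 < V) {p : ℕ} (hp : p.Prime) (hpV : p ∣ V) :
    ∃ k, padicValNat p V = 5 * k + 5 := by
  have := Fact.mk hp
  have h1 : 1 ≤ padicValNat p V := one_le_padicValNat_of_dvd hV.ne' hpV
  obtain ⟨k, hk⟩ := H.five p hp
  exact ⟨k - 1, by omega⟩

theorem sub_comm_val {p : ℕ} (u w : ℤ) : padicValInt p (u - w) = padicValInt p (w - u) := by
  rw [← val_neg, neg_sub]

/-- **A pattern which cannot occur.** -/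
theorem quad (H : Hyp6 d V) (h : Sys d A B V O φ) (hA : A ≠ 0) (hV : 0 < V) (hV2 : 2 ∣ V)
    (hV3 : 3 ∣ V) {a b c e : ℤ} (ha : a ∈ O) (hb : b ∈ O) (hc : c ∈ O)
    (pa : Per φ a) (pb : Per φ b) (pc : Per φ c) (hab : a ≠ b) (hbc : b ≠ c)
    (ea : φ a = b) (eb : φ b = c) (ec : φ c = e) (h4 : (4 : ℤ) ∣ a - b) (h3 : (3 : ℤ) ∣ b - c)
    (h3' : ¬ (3 : ℤ) ∣ c - e) : False := by
  have na := h.not_dvd H.d0 Nat.prime_three hV3 ha
  have nb := h.not_dvd H.d0 Nat.prime_three hV3 hb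
  have oa := odd_of_even_V h H.d0 hV2 ha
  push_cast at na nb
  have hnab : ¬ (3 : ℤ) ∣ a - b := fun h5 => inj12 H h hA hV hV2 ha hb pa pb hab h4 (fun _ => h5)
  have h3s : (3 : ℤ) ∣ a + b := three_add_of na nb hnab
  obtain ⟨k, hk⟩ := H.K hV Nat.prime_three hV3
  have e1 := three_add H h hA hV hV3 ha hb pa pb hab h3s
  have e2 := three_sub H h hA hV hV3 hb hc pb pc hbc h3
  rw [ea, eb] at e1
  rw [eb, ec, val_three_not h3'] at e2
  obtain ⟨v1, -, v3⟩ := pair_V5 H h hA hV ha hb pa pb hab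
  have hd2 : 2 ≤ d := by have := H.d12; omega
  exact no_three (cop_per h hA hV hd2 ha hb pa pb hab) (by omega) h4 na h3s
    ⟨2 * k + 1, by omega⟩ v1 v3

/-- **Three-cycles.** -/
theorem cyc3 (H : Hyp6 d V) (h : Sys d A B V O φ) (hA : A ≠ 0) (hV : 0 < V) (hV2 : 2 ∣ V)
    (hV3 : 3 ∣ V) {a b c : ℤ} (ha : a ∈ O) (hb : b ∈ O) (hc : c ∈ O)
    (pa : Per φ a) (pb : Per φ b) (pc : Per φ c) (hab : a ≠ b) (hbc : b ≠ c) (hca : c ≠ a)
    (ea : φ a = b) (eb : φ b = c) (ec : φ c = a) (h4 : (4 : ℤ) ∣ a - b) : False := by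
  have na := h.not_dvd H.d0 Nat.prime_three hV3 ha
  have nb := h.not_dvd H.d0 Nat.prime_three hV3 hb
  have nc := h.not_dvd H.d0 Nat.prime_three hV3 hc
  have oa := odd_of_even_V h H.d0 hV2 ha
  have ob := odd_of_even_V h H.d0 hV2 hb
  have oc := odd_of_even_V h H.d0 hV2 hc
  push_cast at na nb nc
  have hd2 : 2 ≤ d := by have := H.d12; omega
  have hnab : ¬ (3 : ℤ) ∣ a - b := fun h5 => inj12 H h hA hV hV2 ha hb pa pb hab h4 (fun _ => h5)
  by_cases h3 : (3 : ℤ) ∣ b - c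
  · exact quad H h hA hV hV2 hV3 ha hb hc pa pb pc hab hbc ea eb ec h4 h3
      (not_three_sub hnab h3)
  obtain ⟨k2, hk2⟩ := H.K hV Nat.prime_two hV2
  obtain ⟨k3, hk3⟩ := H.K hV Nat.prime_three hV3
  have t1 := two_step H h hA hV hV2 ha hb pa pb hab
  have t2 := two_step H h hA hV hV2 hb hc pb pc hbc
  have t3 := two_step H h hA hV hV2 hc ha pc pa hca
  rw [ea, eb] at t1
  rw [eb, ec] at t2
  rw [ec, ea] at t3
  have v1 : padicValInt 2 (a + b) = 1 := val_two_of (by omega)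
  -- `c` is in the other class modulo four
  have hbc4 : ¬ (4 : ℤ) ∣ b - c := by
    intro h5
    have v2 : padicValInt 2 (b + c) = 1 := val_two_of (by omega)
    have v3 : padicValInt 2 (c + a) = 1 := val_two_of (by omega)
    omega
  have w2 : padicValInt 2 (b - c) = 1 := val_two_of (by omega)
  have w3 : padicValInt 2 (c - a) = 1 := val_two_of (by omega)
  have s1 : (3 : ℤ) ∣ a + b := three_add_of na nb hnab
  have s2 : (3 : ℤ) ∣ b + c := three_add_of nb nc h3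
  have r3 : (3 : ℤ) ∣ c - a := by
    have : c - a = (b + c) - (a + b) := by ring
    rw [this]
    exact dvd_sub s2 s1
  have n3 : ¬ (3 : ℤ) ∣ c + a := by
    intro h5
    have h6 : (3 : ℤ) ∣ 2 * c := by
      have : 2 * c = (c - a) + (c + a) := by ring
      rw [this]
      exact dvd_add r3 h5
    rcases Int.prime_three.dvd_or_dvd h6 with h7 | h7
    · norm_num at h7
    · exact nc h7
  have u1 := three_add H h hA hV hV3 ha hb pa pb hab s1
  have u2 := three_add H h hA hV hV3 hb hc pb pc hbc s2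
  have u3 := three_sub H h hA hV hV3 hc ha pc pa hca r3
  rw [ea, eb, val_three_not h3] at u1
  rw [eb, ec] at u2
  rw [ec, ea, val_three_not hnab] at u3
  obtain ⟨x1, y1, z1⟩ := pair_V5 H h hA hV ha hb pa pb hab
  obtain ⟨x2, y2, -⟩ := pair_V5 H h hA hV hb hc pb pc hbc
  obtain ⟨x3, y3, -⟩ := pair_V5 H h hA hV hc ha pc pa hca
  have q1 : ∃ k, padicValInt 3 (a + b) = 4 + 5 * k := ⟨k3, by omega⟩
  have q2 : ∃ k, padicValInt 2 (c + a) = 4 + 5 * k := ⟨2 * k2 + 1, by omega⟩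
  have q3 : ∃ k, padicValInt 2 (b + c) = 0 + 5 * k := ⟨k2 + 1, by omega⟩
  have q4 : ∃ k, padicValInt 3 (b + c) = 3 + 5 * k := ⟨2 * k3 + 1, by omega⟩
  have oa' : a % 2 = 1 := by omega
  have ob' : b % 2 = 1 := by omega
  have oc' : c % 2 = 1 := by omega
  have hsbc : b + c ≠ 0 := by
    intro h0
    have h9 : φ b = φ c := phi_eq h hV hb hc (by
      rw [show b = -c by linarith, H.ev.neg_pow])
    exact hbc (per_inj pb pc (k := 1) h9)
  clear t1 t2 t3 v1 w2 w3 u1 u2 u3 hk2 hk3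
  have h11 := pureA oa' h4 na s1 q1 x1 y1 z1
  have hV11 : 11 ∣ V := by
    by_contra hcon
    apply (good h hA hV ha hb pa pb hab (q := 11) (by norm_num) hcon).2
    exact_mod_cast h11.trans (add_dvd_psi H.ev hab)
  have p11 : Nat.Prime 11 := by norm_num
  have hg : Nat.gcd d (11 - 1) ∣ 2 := by
    have h1 : Nat.Coprime d 5 := by
      rw [Nat.coprime_comm, Nat.prime_five.coprime_iff_not_dvd]
      exact H.d5
    have h3 : (11 : ℕ) - 1 = 2 * 5 := by norm_num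
    rw [h3, Nat.Coprime.gcd_mul_right_cancel_right 2 h1.symm]
    exact Nat.gcd_dvd_right _ _
  have na11 : ¬ (11 : ℤ) ∣ a := by exact_mod_cast h.not_dvd H.d0 p11 hV11 ha
  have nc11 : ¬ (11 : ℤ) ∣ c := by exact_mod_cast h.not_dvd H.d0 p11 hV11 hc
  have sq : (11 : ℤ) ∣ c ^ 2 - a ^ 2 := by
    exact_mod_cast pow_of_gcd p11 H.d0 (dvd_pow_sub h p11 hV11 hc ha)
      (by exact_mod_cast na11) hg
  have sq' : (11 : ℤ) ∣ (c - a) * (c + a) := by
    have : (c - a) * (c + a) = c ^ 2 - a ^ 2 := by ring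
    rw [this]; exact sq
  have p11' : Prime (11 : ℤ) := by exact_mod_cast Nat.prime_iff_prime_int.1 p11
  rcases p11'.dvd_or_dvd sq' with h5 | h5
  · exact na11 (pureB oc' oa' nc r3 n3 q2 x3 y3 h5)
  · apply nc11
    apply pureC ob' oc' nb s2 hsbc q3 q4 x2 y2
    have : b - c = (a + b) - (c + a) := by ring
    rw [this]
    exact dvd_sub h11 h5

end

end Pool.Agent.W2helper96.F5
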