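import Pool.Agent.W2helper96.F5.SixB

/-!
# Degrees congruent to six modulo twelve: all periods are at most two
-/

set_option autoImplicit false

namespace Pool.Agent.W2helper96.F5

open Finset Pool.Agent.T6.H62.UB Pool.Agent.W2helper83.UC

theorem bool4 : ∀ sa sb sc se ra rb rc re : Bool, ¬ (sa = sb ∧ ra = rb) → ¬ (sa = sc ∧ ra = rc) →
    ¬ (sa = se ∧ ra = re) → ¬ (sb = sc ∧ rb = rc) → ¬ (sb = se ∧ rb = re) →
    ¬ (sc = se ∧ rc = re) → ¬ (sa = sc ∧ sb = se) → ¬ (ra = rc ∧ rb = re) →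
    (sa = sb ∧ rb = rc ∧ ¬ rc = re) ∨ (sb = sc ∧ rc = re ∧ ¬ re = ra) := by
  intro sa sb sc se ra rb rc re
  cases sa <;> cases sb <;> cases sc <;> cases se <;> cases ra <;> cases rb <;> cases rc <;>
    cases re <;> simp

theorem four_iff {x y : ℤ} (hx : x % 2 = 1) (hy : y % 2 = 1) :
    (4 : ℤ) ∣ x - y ↔ decide (x % 4 = 1) = decide (y % 4 = 1) := by
  rw [decide_eq_decide]
  omega

theorem three_iff {x y : ℤ} (hx : ¬ (3 : ℤ) ∣ x) (hy : ¬ (3 : ℤ) ∣ y) :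
    (3 : ℤ) ∣ x - y ↔ decide (x % 3 = 1) = decide (y % 3 = 1) := by
  rw [decide_eq_decide]
  have h1 : x % 3 = 1 ∨ x % 3 = 2 := by omega
  have h2 : y % 3 = 1 ∨ y % 3 = 2 := by omega
  rcases h1 with h1 | h1 <;> rcases h2 with h2 | h2 <;> omega

theorem comb4 {a b c e : ℤ} (oa : a % 2 = 1) (ob : b % 2 = 1) (oc : c % 2 = 1) (oe : e % 2 = 1)
    (na : ¬ (3 : ℤ) ∣ a) (nb : ¬ (3 : ℤ) ∣ b) (nc : ¬ (3 : ℤ) ∣ c) (ne : ¬ (3 : ℤ) ∣ e)
    (iab : ¬ ((4 : ℤ) ∣ a - b ∧ (3 : ℤ) ∣ a - b)) (iac : ¬ ((4 : ℤ) ∣ a - c ∧ (3 : ℤ) ∣ a - c))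
    (iae : ¬ ((4 : ℤ) ∣ a - e ∧ (3 : ℤ) ∣ a - e)) (ibc : ¬ ((4 : ℤ) ∣ b - c ∧ (3 : ℤ) ∣ b - c))
    (ibe : ¬ ((4 : ℤ) ∣ b - e ∧ (3 : ℤ) ∣ b - e)) (ice : ¬ ((4 : ℤ) ∣ c - e ∧ (3 : ℤ) ∣ c - e))
    (h4 : ¬ ((4 : ℤ) ∣ a - c ∧ (4 : ℤ) ∣ b - e)) (h3 : ¬ ((3 : ℤ) ∣ a - c ∧ (3 : ℤ) ∣ b - e)) :
    ((4 : ℤ) ∣ a - b ∧ (3 : ℤ) ∣ b - c ∧ ¬ (3 : ℤ) ∣ c - e) ∨
      ((4 : ℤ) ∣ b - c ∧ (3 : ℤ) ∣ c - e ∧ ¬ (3 : ℤ) ∣ e - a) := by
  rw [four_iff oa ob, three_iff na nb] at iab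
  rw [four_iff oa oc, three_iff na nc] at iac
  rw [four_iff oa oe, three_iff na ne] at iae
  rw [four_iff ob oc, three_iff nb nc] at ibc
  rw [four_iff ob oe, three_iff nb ne] at ibe
  rw [four_iff oc oe, three_iff nc ne] at ice
  rw [four_iff oa oc, four_iff ob oe] at h4
  rw [three_iff na nc, three_iff nb ne] at h3
  rw [four_iff oa ob, three_iff nb nc, three_iff nc ne, four_iff ob oc, three_iff ne na]
  exact bool4 _ _ _ _ _ _ _ _ iab iac iae ibc ibe ice h4 h3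

section

variable {d : ℕ} {A B : ℤ} {V : ℕ} {O : Finset ℤ} {φ : ℤ → ℤ}

/-- **Four-cycles.** -/
theorem cyc4 (H : Hyp6 d V) (h : Sys d A B V O φ) (hA : A ≠ 0) (hV : 0 < V) (hV2 : 2 ∣ V)
    (hV3 : 3 ∣ V) {a b c e : ℤ} (ha : a ∈ O) (hb : b ∈ O) (hc : c ∈ O) (he : e ∈ O)
    (pa : Per φ a) (pb : Per φ b) (pc : Per φ c) (pe : Per φ e) (hab : a ≠ b) (hac : a ≠ c)
    (hae : a ≠ e) (hbc : b ≠ c) (hbe : b ≠ e) (hce : c ≠ e)
    (ea : φ a = b) (eb : φ b = c) (ec : φ c = e) (ee : φ e = a) : False := by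
  have na := h.not_dvd H.d0 Nat.prime_three hV3 ha
  have nb := h.not_dvd H.d0 Nat.prime_three hV3 hb
  have nc := h.not_dvd H.d0 Nat.prime_three hV3 hc
  have ne := h.not_dvd H.d0 Nat.prime_three hV3 he
  have oa := odd_of_even_V h H.d0 hV2 ha
  have ob := odd_of_even_V h H.d0 hV2 hb
  have oc := odd_of_even_V h H.d0 hV2 hc
  have oe := odd_of_even_V h H.d0 hV2 he
  push_cast at na nb nc ne
  obtain ⟨k2, hk2⟩ := H.K hV Nat.prime_two hV2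
  obtain ⟨k3, hk3⟩ := H.K hV Nat.prime_three hV3
  have inj : ∀ {u w : ℤ}, u ∈ O → w ∈ O → Per φ u → Per φ w → u ≠ w →
      ¬ ((4 : ℤ) ∣ u - w ∧ (3 : ℤ) ∣ u - w) := fun hu hw pu pw hne h5 =>
    inj12 H h hA hV hV2 hu hw pu pw hne h5.1 (fun _ => h5.2)
  have h4 : ¬ ((4 : ℤ) ∣ a - c ∧ (4 : ℤ) ∣ b - e) := by
    rintro ⟨h5, h6⟩
    have t1 := two_step H h hA hV hV2 ha hc pa pc hac
    have t2 := two_step H h hA hV hV2 hb he pb pe hbe
    rw [ea, ec] at t1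
    rw [eb, ee] at t2
    have v1 : padicValInt 2 (a + c) = 1 := val_two_of (by omega)
    have v2 : padicValInt 2 (b + e) = 1 := val_two_of (by omega)
    have v3 : padicValInt 2 (a - c) = padicValInt 2 (c - a) := sub_comm_val a c
    omega
  have h3 : ¬ ((3 : ℤ) ∣ a - c ∧ (3 : ℤ) ∣ b - e) := by
    rintro ⟨h5, h6⟩
    have t1 := three_sub H h hA hV hV3 ha hc pa pc hac h5
    have t2 := three_sub H h hA hV hV3 hb he pb pe hbe h6
    rw [ea, ec] at t1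
    rw [eb, ee] at t2
    have v3 : padicValInt 3 (a - c) = padicValInt 3 (c - a) := sub_comm_val a c
    omega
  rcases comb4 (by omega) (by omega) (by omega) (by omega) na nb nc ne
    (inj ha hb pa pb hab) (inj ha hc pa pc hac) (inj ha he pa pe hae)
    (inj hb hc pb pc hbc) (inj hb he pb pe hbe) (inj hc he pc pe hce) h4 h3 with
    ⟨r1, r2, r3⟩ | ⟨r1, r2, r3⟩
  · exact quad H h hA hV hV2 hV3 ha hb hc pa pb pc hab hbc ea eb ec r1 r2 r3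
  · exact quad H h hA hV hV2 hV3 hb hc he pb pc pe hbc hce eb ec ee r1 r2 r3

/-- **All periods are at most two.** -/
theorem main6 (H : Hyp6 d V) (h : Sys d A B V O φ) (hA : A ≠ 0) (hV : 0 < V)
    {x : ℤ} (hx : x ∈ O) (px : Per φ x) : φ (φ x) = x := by
  by_contra hcon
  have m1 := h.maps x hx
  have m2 := h.maps _ m1
  have p1 : Per φ (φ x) := px.iter 1
  have p2 : Per φ (φ (φ x)) := px.iter 2
  have n01 : x ≠ φ x := by
    intro h0
    exact hcon (by rw [← h0, ← h0])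
  have n12 : φ x ≠ φ (φ x) := by
    intro h0
    exact n01 (per_inj px p1 (k := 1) h0)
  have n02 : x ≠ φ (φ x) := fun h0 => hcon h0.symm
  by_cases hV2 : 2 ∣ V
  swap
  · have s1 := odd_sum h H.ev hA hV hV2 hx m1 px p1 n01
    have s2 := odd_sum h H.ev hA hV hV2 m1 m2 p1 p2 n12
    have s3 := odd_sum h H.ev hA hV hV2 hx m2 px p2 n02
    omega
  have o0 := odd_of_even_V h H.d0 hV2 hx
  have o1 := odd_of_even_V h H.d0 hV2 m1
  have o2 := odd_of_even_V h H.d0 hV2 m2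
  have f4 : (4 : ℤ) ∣ x - φ x ∨ (4 : ℤ) ∣ φ x - φ (φ x) ∨ (4 : ℤ) ∣ φ (φ x) - x := by omega
  by_cases hV3 : 3 ∣ V
  swap
  · rcases f4 with h4 | h4 | h4
    · exact inj12 H h hA hV hV2 hx m1 px p1 n01 h4 (fun h3 => absurd h3 hV3)
    · exact inj12 H h hA hV hV2 m1 m2 p1 p2 n12 h4 (fun h3 => absurd h3 hV3)
    · exact inj12 H h hA hV hV2 m2 hx p2 px n02.symm h4 (fun h3 => absurd h3 hV3)
  by_cases c3 : φ (φ (φ x)) = x
  · rcases f4 with h4 | h4 | h4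
    · exact cyc3 H h hA hV hV2 hV3 hx m1 m2 px p1 p2 n01 n12 n02.symm rfl rfl c3 h4
    · exact cyc3 H h hA hV hV2 hV3 m1 m2 hx p1 p2 px n12 n02.symm n01 rfl c3 rfl h4
    · exact cyc3 H h hA hV hV2 hV3 m2 hx m1 p2 px p1 n02.symm n01 n12 c3 rfl rfl h4
  have m3 := h.maps _ m2
  have p3 : Per φ (φ (φ (φ x))) := px.iter 3
  have n03 : x ≠ φ (φ (φ x)) := fun h0 => c3 h0.symm
  have n13 : φ x ≠ φ (φ (φ x)) := fun h0 => n02 (per_inj px p2 (k := 1) h0)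
  have n23 : φ (φ x) ≠ φ (φ (φ x)) := fun h0 => n12 (per_inj p1 p2 (k := 1) h0)
  by_cases c4 : φ (φ (φ (φ x))) = x
  · exact cyc4 H h hA hV hV2 hV3 hx m1 m2 m3 px p1 p2 p3 n01 n02 n03 n12 n13 n23 rfl rfl rfl c4
  -- five different points
  have key : ∀ k : ℕ, 0 < k → k < 5 → φ^[k] x ≠ x := by
    intro k h0 h5
    have : k = 1 ∨ k = 2 ∨ k = 3 ∨ k = 4 := by omega
    rcases this with rfl | rfl | rfl | rfl
    · exact fun h => n01 h.symm
    · exact fun h => n02 h.symm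
    · exact fun h => n03 h.symm
    · exact c4
  obtain ⟨i, j, hij, hf⟩ := Fintype.exists_ne_map_eq_of_card_lt
    (fun i : Fin 5 => (decide (φ^[(i : ℕ)] x % 4 = 1), decide (φ^[(i : ℕ)] x % 3 = 1)))
    (by simp)
  have hne : φ^[(i : ℕ)] x ≠ φ^[(j : ℕ)] x := by
    intro h0
    have hij' : (i : ℕ) ≠ (j : ℕ) := fun h => hij (Fin.ext h)
    rcases lt_or_gt_of_ne hij' with hlt | hlt
    · apply key (j - i) (by omega) (by omega)
      apply per_inj (px.iter _) px (k := i)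
      rw [← Function.iterate_add_apply, Nat.add_sub_cancel' hlt.le]
      exact h0.symm
    · apply key (i - j) (by omega) (by omega)
      apply per_inj (px.iter _) px (k := j)
      rw [← Function.iterate_add_apply, Nat.add_sub_cancel' hlt.le]
      exact h0
  have mi := h.iter_mem hx i
  have mj := h.iter_mem hx j
  have oi := odd_of_even_V h H.d0 hV2 mi
  have oj := odd_of_even_V h H.d0 hV2 mj
  have ni := h.not_dvd H.d0 Nat.prime_three hV3 mi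
  have nj := h.not_dvd H.d0 Nat.prime_three hV3 mj
  push_cast at ni nj
  simp only [Prod.mk.injEq] at hf
  exact inj12 H h hA hV hV2 mi mj (px.iter _) (px.iter _) hne
    ((four_iff (by omega) (by omega)).2 hf.1) (fun _ => (three_iff ni nj).2 hf.2)

end

end Pool.Agent.W2helper96.F5
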