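import Pool.Agent.W2helper96.F5.SixC

/-!
# Degrees congruent to six modulo twelve: further arithmetic
-/

set_option autoImplicit false

namespace Pool.Agent.W2helper96.QP

theorem K6 {x y z k : ℤ} (hk : k = 6) (hx : ¬ (2 : ℤ) ∣ x) (h4 : (x - y) % 4 = 0)
    (hc : IsCoprime x y) (he : x ^ 5 - y ^ 5 = k * z ^ 2) : x = y := by
  have hy : ¬ (2 : ℤ) ∣ y := by omega
  have hx0 : x ≠ 0 := by rintro rfl; exact hx (dvd_zero _)
  have hQpos := Q5_pos (y := y) hx0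
  have hQ8 := Q5_mod8 hx h4
  have hQ3 := Q5_mod3 hc
  have hprod : (x - y) * Q5 x y = k * z ^ 2 := by rw [Q5_mul, he]
  have hQk : IsCoprime (Q5 x y) k := by
    rw [hk, show (6 : ℤ) = 2 * 3 by norm_num]
    exact ((Prime.coprime_iff_not_dvd Int.prime_two).2 (by omega)).symm.mul_right
      ((Prime.coprime_iff_not_dvd Int.prime_three).2 hQ3).symm
  have hQy : ∀ p : ℤ, Prime p → p ∣ x - y → p ∣ Q5 x y → p ∣ 5 := by
    intro p hp h1 h2
    have h3 : p ∣ 5 * y ^ 4 := by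
      have : 5 * y ^ 4 = Q5 x y - (x - y) * (x ^ 3 + 2 * x ^ 2 * y + 3 * x * y ^ 2 + 4 * y ^ 3) := by
        unfold Q5; ring
      rw [this]; exact dvd_sub h2 (h1.mul_right _)
    rcases hp.dvd_or_dvd h3 with h4 | h4
    · exact h4
    · have h5 := hp.dvd_of_dvd_pow h4
      have h6 : p ∣ x := by
        have : x = (x - y) + y := by ring
        rw [this]; exact dvd_add h1 h5
      exact absurd (hc.isUnit_of_dvd' h6 h5) hp.not_isUnit
  by_cases h5 : (5 : ℤ) ∣ x - y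
  · -- `Q = 5 t ^ 2`
    obtain ⟨R, hR⟩ := h5
    have hxR : x = y + 5 * R := by linarith
    have h5y : ¬ (5 : ℤ) ∣ y := by
      intro h1
      have h2 : (5 : ℤ) ∣ x := by rw [hxR]; exact dvd_add h1 (dvd_mul_right _ _)
      exact five_prime.not_isUnit (hc.isUnit_of_dvd' h2 h1)
    set Q' : ℤ := y ^ 4 + 10 * R * y ^ 3 + 50 * R ^ 2 * y ^ 2 + 125 * R ^ 3 * y + 125 * R ^ 4
      with hQ'
    have hQQ : Q5 x y = 5 * Q' := by rw [hxR, hQ', Q5]; ring
    have h5k : ¬ (5 : ℤ) ∣ k := by rw [hk]; norm_num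
    have hz5 : (5 : ℤ) ∣ z := by
      have h1 : (5 : ℤ) ∣ k * z ^ 2 := by rw [← hprod, hR]; exact (dvd_mul_right _ _).mul_right _
      exact five_prime.dvd_of_dvd_pow ((five_prime.dvd_or_dvd h1).resolve_left h5k)
    obtain ⟨z', rfl⟩ := hz5
    have h1 : R * Q' = k * z' ^ 2 := by
      have : 25 * (R * Q') = 25 * (k * z' ^ 2) := by
        have e : 25 * (R * Q') = (x - y) * Q5 x y := by rw [hR, hQQ]; ring
        rw [e, hprod]; ring
      linarith
    have hcQR : IsCoprime Q' R := by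
      have hyR : IsCoprime y R := by
        apply isCoprime_of_prime_dvd
        · rintro ⟨h2, -⟩
          exact hy (by rw [h2]; exact dvd_zero _)
        intro p hp h2 h3
        exact hp.not_isUnit (hc.isUnit_of_dvd' (by rw [hxR]; exact dvd_add h2 (h3.mul_left _)) h2)
      have e : Q' = y ^ 4 + R * (10 * y ^ 3 + 50 * R * y ^ 2 + 125 * R ^ 2 * y + 125 * R ^ 3) := by
        rw [hQ']; ring
      rw [e]
      exact (hyR.pow_left).add_mul_left_left _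
    have hQ'pos : 0 < Q' := by
      rw [hQQ] at hQpos; linarith
    have hQ'k : IsCoprime Q' k := by
      rw [hQQ] at hQk
      exact hQk.of_isCoprime_of_dvd_left (dvd_mul_left _ _)
    have hkR : k ∣ R := by
      apply hQ'k.symm.dvd_of_dvd_mul_right
      exact ⟨z' ^ 2, h1⟩
    obtain ⟨R1, rfl⟩ := hkR
    have hk0 : k ≠ 0 := by rw [hk]; norm_num
    have h2 : Q' * R1 = z' ^ 2 := by
      apply mul_left_cancel₀ hk0
      rw [← h1]; ring
    obtain ⟨t, ht⟩ := pow_split (hcQR.of_isCoprime_of_dvd_right (dvd_mul_left _ _)) h2 hQ'pos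
      (by decide)
    exact quartic5 hx hy hc ⟨_, hR⟩ (by rw [hQQ, ht])
  · exfalso
    have hcop : IsCoprime (Q5 x y) (x - y) := by
      apply isCoprime_of_prime_dvd (fun h1 => hQpos.ne' h1.1)
      intro p hp h1 h2
      exact h5 (((hp.associated_of_dvd five_prime (hQy p hp h2 h1)).dvd').trans h2)
    have hkd : k ∣ x - y := by
      apply hQk.symm.dvd_of_dvd_mul_right
      exact ⟨z ^ 2, hprod⟩
    obtain ⟨R1, hR1⟩ := hkd
    have hk0 : k ≠ 0 := by rw [hk]; norm_num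
    have h2 : Q5 x y * R1 = z ^ 2 := by
      apply mul_left_cancel₀ hk0
      rw [← hprod, hR1]; ring
    rw [hR1] at hcop
    obtain ⟨t, ht⟩ := pow_split (hcop.of_isCoprime_of_dvd_right (dvd_mul_left _ _)) h2 hQpos
      (by decide)
    have hto : ¬ (2 : ℤ) ∣ t := by
      rintro ⟨i, rfl⟩
      have : (2 * i) ^ 2 = 4 * i ^ 2 := by ring
      omega
    have := sq_odd hto
    omega


end Pool.Agent.W2helper96.QP

namespace Pool.Agent.W2helper96.F5

open Pool.Agent.W2helper96.QP Pool.Agent.W2helper83.UC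

theorem pow5_mod4 {x : ℤ} (hx : x % 2 = 1) : (x ^ 5 - x) % 4 = 0 := by
  obtain ⟨i, hi⟩ : ∃ i, x = 2 * i + 1 := ⟨x / 2, by omega⟩
  have : x ^ 5 - x = 4 * (8 * i ^ 5 + 20 * i ^ 4 + 20 * i ^ 3 + 10 * i ^ 2 + 2 * i) := by
    rw [hi]; ring
  omega

theorem odd_of_pow5 {x : ℤ} (h : x ^ 5 % 2 = 1) : x % 2 = 1 := by
  by_contra hcon
  obtain ⟨i, hi⟩ : ∃ i, x = 2 * i := ⟨x / 2, by omega⟩
  have : x ^ 5 = 2 * (16 * i ^ 5) := by rw [hi]; ring
  omega

/-- no pair with `v_2 (u + w) ≡ 0`, `v_3 (u + w) ≡ 4` -/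
theorem no_pm {u w : ℤ} (hc : IsCoprime u w) (ou : u % 2 = 1) (ow : w % 2 = 1)
    (hu3 : ¬ (3 : ℤ) ∣ u) (h3 : (3 : ℤ) ∣ u + w) (hs : u + w ≠ 0)
    (h2 : ∃ k, padicValInt 2 (u + w) = 0 + 5 * k) (h5 : ∃ k, padicValInt 3 (u + w) = 4 + 5 * k)
    (v1 : V5 (u + w)) (v2 : V5 (u ^ 2 + u * w + w ^ 2)) (v3 : V5 (u ^ 2 - u * w + w ^ 2)) :
    False := by
  obtain ⟨o1, o2⟩ := odd_phi ou ow
  obtain ⟨α, hα⟩ := form hs 0 4 h2 h5 v1
  obtain ⟨β, hβ⟩ := form (z := u ^ 2 + u * w + w ^ 2) (by omega) 0 0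
    ⟨0, by rw [val_two_odd o1]⟩ ⟨0, by rw [val_three_not (phi3_not hu3 h3)]⟩ v2
  obtain ⟨γ, hγ⟩ := form (z := u ^ 2 - u * w + w ^ 2) (by omega) 0 1
    ⟨0, by rw [val_two_odd o2]⟩ ⟨0, by rw [val_three_of (Or.inl (phi6_mod hu3 h3))]⟩ v3
  have f1 : 81 * α ^ 5 = u + w := by rw [hα]; ring
  have f2 : β ^ 5 = u ^ 2 + u * w + w ^ 2 := by rw [hβ]; ring
  have f3 : 3 * γ ^ 5 = u ^ 2 - u * w + w ^ 2 := by rw [hγ]; ring
  have hα2 : (2 : ℤ) ∣ α := by
    apply Int.prime_two.dvd_of_dvd_pow (n := 5)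
    omega
  have oβ : β % 2 = 1 := odd_of_pow5 (by omega)
  have oγ : γ % 2 = 1 := odd_of_pow5 (by omega)
  have e1 : β ^ 5 - γ ^ 5 = 6 * (27 * α ^ 5) ^ 2 := by
    have h6 : 3 * (β ^ 5 - γ ^ 5) = 3 * (6 * (27 * α ^ 5) ^ 2) := by
      have h7 : 3 * (6 * (27 * α ^ 5) ^ 2) = 2 * (81 * α ^ 5) ^ 2 := by ring
      rw [h7, f1]
      linear_combination 3 * f2 - f3
    linarith
  have hmod : (β - γ) % 4 = 0 := by
    have m1 := pow5_mod4 oβ
    have m2 := pow5_mod4 oγ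
    obtain ⟨i, hi⟩ := hα2
    have m3 : 6 * (27 * α ^ 5) ^ 2 = 4 * (6 * 27 ^ 2 * 2 ^ 8 * i ^ 10) := by rw [hi]; ring
    omega
  have hcop : IsCoprime β γ := by
    apply isCoprime_of_prime_dvd
    · rintro ⟨h7, -⟩
      rw [h7] at oβ
      norm_num at oβ
    intro p hp hpβ hpγ
    have h6 : p ∣ u ^ 2 + u * w + w ^ 2 := by rw [← f2]; exact hpβ.pow (by norm_num)
    have h7 : p ∣ u ^ 2 - u * w + w ^ 2 := by
      rw [← f3]; exact (hpγ.pow (by norm_num)).mul_left _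
    have h8 : p ∣ 2 * (u * w) := by
      have : 2 * (u * w) = (u ^ 2 + u * w + w ^ 2) - (u ^ 2 - u * w + w ^ 2) := by ring
      rw [this]; exact dvd_sub h6 h7
    rcases hp.dvd_or_dvd h8 with h9 | h9
    · have h10 : (2 : ℤ) ∣ β := (hp.associated_of_dvd Int.prime_two h9).dvd'.trans hpβ
      omega
    · rcases hp.dvd_or_dvd h9 with h10 | h10
      · have h11 : p ∣ w ^ 2 := by
          have : w ^ 2 = (u ^ 2 + u * w + w ^ 2) - u * (u + w) := by ring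
          rw [this]; exact dvd_sub h6 (h10.mul_right _)
        exact hp.not_isUnit (hc.isUnit_of_dvd' h10 (hp.dvd_of_dvd_pow h11))
      · have h11 : p ∣ u ^ 2 := by
          have : u ^ 2 = (u ^ 2 + u * w + w ^ 2) - w * (u + w) := by ring
          rw [this]; exact dvd_sub h6 (h10.mul_right _)
        exact hp.not_isUnit (hc.isUnit_of_dvd' (hp.dvd_of_dvd_pow h11) h10)
  have h6 := K6 rfl (x := β) (y := γ) (z := 27 * α ^ 5) (by omega) hmod hcop e1
  rw [h6, sub_self] at e1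
  have h7 : (27 * α ^ 5) ^ 2 = 0 := by linarith
  have h8 : 27 * α ^ 5 = 0 := (pow_eq_zero_iff (by norm_num)).1 h7
  apply hs
  rw [← f1]
  linarith

/-! ### `x ^ 6 - y ^ 6` -/

theorem V5_fac {x y : ℤ} (hc : IsCoprime x y) (hne : x ^ 6 ≠ y ^ 6) (h : V5 (x ^ 6 - y ^ 6)) :
    V5 (x + y) ∧ V5 (x - y) ∧ V5 (x ^ 2 - x * y + y ^ 2) ∧ V5 (x ^ 2 + x * y + y ^ 2) := by
  have key : ∀ p : ℕ, p.Prime → p ≠ 2 → p ≠ 3 → 5 ∣ padicValInt p (x + y) ∧
      5 ∣ padicValInt p (x - y) ∧ 5 ∣ padicValInt p (x ^ 2 - x * y + y ^ 2) ∧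
      5 ∣ padicValInt p (x ^ 2 + x * y + y ^ 2) := by
    intro p hp hp2 hp3
    have := Fact.mk hp
    have hpi := Nat.prime_iff_prime_int.1 hp
    have hev : Even 6 := by decide
    have h6 : 5 ∣ padicValNat p 6 := by
      rw [padicValNat.eq_zero_of_not_dvd]
      · exact dvd_zero _
      · intro h6
        have h7 : p ∣ 2 * 3 := h6
        rcases hp.dvd_mul.1 h7 with h8 | h8
        · exact hp2 ((Nat.prime_dvd_prime_iff_eq hp Nat.prime_two).1 h8)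
        · exact hp3 ((Nat.prime_dvd_prime_iff_eq hp Nat.prime_three).1 h8)
    by_cases hx : (p : ℤ) ∣ x
    · have hy : ¬ (p : ℤ) ∣ y := fun h7 => hpi.not_isUnit (hc.isUnit_of_dvd' hx h7)
      have g1 : ¬ (p : ℤ) ∣ x + y := fun h7 => hy ((dvd_add_right hx).1 h7)
      have g2 : ¬ (p : ℤ) ∣ x - y := fun h7 => hy ((dvd_sub_right hx).1 h7)
      have g3 : ¬ (p : ℤ) ∣ x ^ 2 - x * y + y ^ 2 := by
        intro h7
        apply hy
        apply hpi.dvd_of_dvd_pow (n := 2)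
        have : y ^ 2 = (x ^ 2 - x * y + y ^ 2) - x * (x - y) := by ring
        rw [this]; exact dvd_sub h7 (hx.mul_right _)
      have g4 : ¬ (p : ℤ) ∣ x ^ 2 + x * y + y ^ 2 := by
        intro h7
        apply hy
        apply hpi.dvd_of_dvd_pow (n := 2)
        have : y ^ 2 = (x ^ 2 + x * y + y ^ 2) - x * (x + y) := by ring
        rw [this]; exact dvd_sub h7 (hx.mul_right _)
      rw [padicValInt.eq_zero_of_not_dvd g1, padicValInt.eq_zero_of_not_dvd g2,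
        padicValInt.eq_zero_of_not_dvd g3, padicValInt.eq_zero_of_not_dvd g4]
      exact ⟨dvd_zero _, dvd_zero _, dvd_zero _, dvd_zero _⟩
    · have h0 := h p hp hp2 hp3
      have a1 := val_addR (r := 5) hp hp2 hx (n := 6) (by norm_num) hev hne h0 h6
      have a2 := val_phiR (r := 5) hp hp2 hp3 hx (n := 6) (by norm_num) (dvd_refl 6) hne h0 h6
      have e6 : (-y) ^ 6 = y ^ 6 := hev.neg_pow y
      have a3 := val_addR (r := 5) hp hp2 (y := -y) hx (n := 6) (by norm_num) hev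
        (by rw [e6]; exact hne) (by rw [e6]; exact h0) h6
      have a4 := val_phiR (r := 5) hp hp2 hp3 (y := -y) hx (n := 6) (by norm_num) (dvd_refl 6)
        (by rw [e6]; exact hne) (by rw [e6]; exact h0) h6
      rw [← sub_eq_add_neg] at a3
      rw [show x ^ 2 - x * -y + (-y) ^ 2 = x ^ 2 + x * y + y ^ 2 by ring] at a4
      exact ⟨a1, a3, a2, a4⟩
  exact ⟨fun p h1 h2 h3 => (key p h1 h2 h3).1, fun p h1 h2 h3 => (key p h1 h2 h3).2.1,
    fun p h1 h2 h3 => (key p h1 h2 h3).2.2.1, fun p h1 h2 h3 => (key p h1 h2 h3).2.2.2⟩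

theorem e11d : ∀ q a b : ZMod 11, 4 * q ^ 5 = (16 * b ^ 5) ^ 2 + 3 * (162 * a ^ 5) ^ 2 →
    a = 0 ∧ b = 0 := by decide

theorem e11e : ∀ q a b : ZMod 11, 4 * q ^ 5 = (1 * b ^ 5) ^ 2 + 3 * (162 * a ^ 5) ^ 2 →
    a = 0 ∧ b = 0 := by decide

theorem e11f : ∀ q a b : ZMod 11, 12 * q ^ 5 = (81 * a ^ 5) ^ 2 + 3 * (b ^ 5) ^ 2 →
    a = 0 ∧ b = 0 := by decide

theorem e11g : ∀ q a b : ZMod 11, 12 * q ^ 5 = (27 * a ^ 5) ^ 2 + 3 * (b ^ 5) ^ 2 →
    a = 0 ∧ b = 0 := by decide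

theorem cop_eleven {x y : ℤ} (hc : IsCoprime x y) (h1 : (11 : ℤ) ∣ x + y) (h2 : (11 : ℤ) ∣ x - y) :
    False := by
  have p11 : Nat.Prime 11 := by norm_num
  have p11' : Prime (11 : ℤ) := by exact_mod_cast Nat.prime_iff_prime_int.1 p11
  have h3 : (11 : ℤ) ∣ x := by omega
  have h4 : (11 : ℤ) ∣ y := by omega
  exact p11'.not_isUnit (hc.isUnit_of_dvd' h3 h4)

theorem val2_six {x y : ℤ} (ox : x % 2 = 1) (oy : y % 2 = 1) (hne : x ^ 6 ≠ y ^ 6) :
    padicValInt 2 (x ^ 6 - y ^ 6) = padicValInt 2 (x + y) + padicValInt 2 (x - y) := by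
  have f2 := Fact.mk Nat.prime_two
  have hev : Even 6 := by decide
  have hs : x + y ≠ 0 := by
    intro h0
    apply hne
    rw [show x = -y by linarith, hev.neg_pow]
  have ht : x - y ≠ 0 := by
    intro h0
    apply hne
    rw [show x = y by linarith]
  have h2 := Int.two_pow_sub_pow (x := x) (y := y) (n := 6) (by omega) (by omega) hev
  have e1 : ∀ z : ℤ, z ≠ 0 → emultiplicity (2 : ℤ) z = (padicValInt 2 z : ℕ∞) := by
    intro z hz
    have := emul_eq Nat.prime_two hz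
    exact_mod_cast this
  have e6 : padicValNat 2 6 = 1 := by
    rw [show (6 : ℕ) = 2 * 3 by norm_num, padicValNat.mul (by norm_num) (by norm_num),
      padicValNat_self, padicValNat_primes (by norm_num)]
  have e7 : emultiplicity (2 : ℤ) ((6 : ℕ) : ℤ) = 1 := by
    rw [e1 _ (by norm_num), padicValInt.of_nat, e6]
    rfl
  rw [e1 _ (sub_ne_zero.2 hne), e1 _ hs, e1 _ ht, e7] at h2
  have h3 : padicValInt 2 (x ^ 6 - y ^ 6) + 1 =
      padicValInt 2 (x + y) + padicValInt 2 (x - y) + 1 := by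
    exact_mod_cast h2
  omega

theorem val3_six {x y : ℤ} (hx : ¬ (3 : ℤ) ∣ x) (h : (3 : ℤ) ∣ x - y) (hne : x ^ 6 ≠ y ^ 6) :
    padicValInt 3 (x ^ 6 - y ^ 6) = padicValInt 3 (x - y) + 1 := by
  have f3 := Fact.mk Nat.prime_three
  have e6 : padicValNat 3 6 = 1 := by
    rw [show (6 : ℕ) = 2 * 3 by norm_num, padicValNat.mul (by norm_num) (by norm_num),
      padicValNat_self, padicValNat_primes (by norm_num)]
  have h1 := lte_val Nat.prime_three (by norm_num) (d := 6) (by norm_num) (by exact_mod_cast h)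
    (by exact_mod_cast hx) hne
  rw [e6] at h1
  exact h1

theorem three_of_cop {x y : ℤ} (hc : IsCoprime x y) (h : (3 : ℤ) ∣ x - y) : ¬ (3 : ℤ) ∣ x := by
  intro h1
  have h2 : (3 : ℤ) ∣ y := by omega
  exact Int.prime_three.not_isUnit (hc.isUnit_of_dvd' h1 h2)

theorem core_even_aux {x y : ℤ} (hc : IsCoprime x y) (ox : x % 2 = 1) (oy : y % 2 = 1)
    (h4 : (4 : ℤ) ∣ x + y) (hne : x ^ 6 ≠ y ^ 6) (h5 : V5 (x ^ 6 - y ^ 6))
    (h3 : 5 ∣ padicValInt 3 (x ^ 6 - y ^ 6))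
    (h2 : ∃ k, padicValInt 2 (x ^ 6 - y ^ 6) = 5 * k ∨ padicValInt 2 (x ^ 6 - y ^ 6) = 5 * k + 1) :
    False := by
  obtain ⟨v1, v2, v3, v4⟩ := V5_fac hc hne h5
  obtain ⟨o1, o2⟩ := odd_phi ox oy
  have hs : x + y ≠ 0 := by
    intro h0
    apply hne
    rw [show x = -y by linarith, (show Even 6 by decide).neg_pow]
  have w2 : padicValInt 2 (x - y) = 1 := val_two_of (by omega)
  by_cases t3 : (3 : ℤ) ∣ x - y
  · have hx3 := three_of_cop hc t3
    have hs3 : ¬ (3 : ℤ) ∣ x + y := by omega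
    have l3 := val3_six hx3 t3 hne
    have l2 := val2_six ox oy hne
    obtain ⟨k3, hk3⟩ := h3
    obtain ⟨a, ha⟩ := form (z := x - y) (by omega) 1 4 ⟨0, by rw [w2]⟩ ⟨k3 - 1, by omega⟩ v2
    obtain ⟨q, hq⟩ := form (z := x ^ 2 - x * y + y ^ 2) (by omega) 0 0
      ⟨0, by rw [val_two_odd o2]⟩ ⟨0, by
        rw [val_three_not]
        have := phi3_not (w := -y) hx3 (by rwa [← sub_eq_add_neg])
        rwa [show x ^ 2 + x * -y + (-y) ^ 2 = x ^ 2 - x * y + y ^ 2 by ring] at this⟩ v3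
    have hfin : (∃ b : ℤ, x + y = 16 * b ^ 5) ∨ ∃ b : ℤ, x + y = 1 * b ^ 5 := by
      obtain ⟨k, hk | hk⟩ := h2
      · left
        obtain ⟨b, hb⟩ := form hs 4 0 ⟨k - 1, by omega⟩ ⟨0, by rw [val_three_not hs3]⟩ v1
        exact ⟨b, by rw [hb]; ring⟩
      · right
        obtain ⟨b, hb⟩ := form hs 0 0 ⟨k, by omega⟩ ⟨0, by rw [val_three_not hs3]⟩ v1
        exact ⟨b, by rw [hb]; ring⟩
    have fa : x - y = 162 * a ^ 5 := by rw [ha]; ring
    have fq : q ^ 5 = x ^ 2 - x * y + y ^ 2 := by rw [hq]; ring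
    have e0 : 4 * q ^ 5 = (x + y) ^ 2 + 3 * (x - y) ^ 2 := by rw [fq]; ring
    rcases hfin with ⟨b, hb⟩ | ⟨b, hb⟩
    · rw [hb, fa] at e0
      have e1 := congrArg (fun z : ℤ => (z : ZMod 11)) e0
      push_cast at e1
      obtain ⟨a0, b0⟩ := e11d _ _ _ e1
      exact cop_eleven hc (by rw [hb]; exact ((of_cast11 b0).pow (by norm_num)).mul_left _)
        (by rw [fa]; exact ((of_cast11 a0).pow (by norm_num)).mul_left _)
    · rw [hb, fa] at e0
      have e1 := congrArg (fun z : ℤ => (z : ZMod 11)) e0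
      push_cast at e1
      obtain ⟨a0, b0⟩ := e11e _ _ _ e1
      exact cop_eleven hc (by rw [hb]; exact ((of_cast11 b0).pow (by norm_num)).mul_left _)
        (by rw [fa]; exact ((of_cast11 a0).pow (by norm_num)).mul_left _)
  · have hq3 : ¬ (3 : ℤ) ∣ x ^ 2 + x * y + y ^ 2 := by
      intro h6
      apply t3
      apply Int.prime_three.dvd_of_dvd_pow (n := 2)
      have : (x - y) ^ 2 = (x ^ 2 + x * y + y ^ 2) - 3 * (x * y) := by ring
      rw [this]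
      exact dvd_sub h6 (dvd_mul_right _ _)
    obtain ⟨a, ha⟩ := form (z := x - y) (by omega) 1 0 ⟨0, by rw [w2]⟩
      ⟨0, by rw [val_three_not t3]⟩ v2
    obtain ⟨q, hq⟩ := form (z := x ^ 2 + x * y + y ^ 2) (by omega) 0 0
      ⟨0, by rw [val_two_odd o1]⟩ ⟨0, by rw [val_three_not hq3]⟩ v4
    have fa : x - y = 2 * a ^ 5 := by rw [ha]; ring
    have fq : q ^ 5 = x ^ 2 + x * y + y ^ 2 := by rw [hq]; ring
    obtain ⟨D, hD⟩ := h4
    have e3 : q ^ 5 - (a ^ 2) ^ 5 = 3 * (2 * D) ^ 2 := by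
      have h6 : 4 * q ^ 5 = 3 * (x + y) ^ 2 + (x - y) ^ 2 := by rw [fq]; ring
      rw [hD, fa] at h6
      have h7 : 4 * (q ^ 5 - (a ^ 2) ^ 5) = 4 * (3 * (2 * D) ^ 2) := by
        linear_combination h6
      linarith
    have hao : ¬ (2 : ℤ) ∣ a := by
      rintro ⟨i, rfl⟩
      have : x - y = 4 * (16 * i ^ 5) := by rw [fa]; ring
      omega
    have hqo : q % 2 = 1 := odd_of_pow5 (by omega)
    have ha2 := sq_mod_four hao
    have hmod : (q - a ^ 2) % 4 = 0 := by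
      have m1 := pow5_mod4 hqo
      have m2 := pow5_mod4 (x := a ^ 2) (by omega)
      have m3 : 3 * (2 * D) ^ 2 = 4 * (3 * D ^ 2) := by ring
      omega
    have hcop : IsCoprime q (a ^ 2) := by
      apply IsCoprime.pow_right
      apply isCoprime_of_prime_dvd
      · rintro ⟨h7, -⟩
        rw [h7] at hqo
        norm_num at hqo
      intro p hp hpq hpa
      have h6 : p ∣ x ^ 2 + x * y + y ^ 2 := by rw [← fq]; exact hpq.pow (by norm_num)
      have h7 : p ∣ x - y := by rw [fa]; exact (hpa.pow (by norm_num)).mul_left _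
      have h8 : p ∣ 3 * x ^ 2 := by
        have : 3 * x ^ 2 = (x ^ 2 + x * y + y ^ 2) + (x - y) * (2 * x + y) := by ring
        rw [this]; exact dvd_add h6 (h7.mul_right _)
      rcases hp.dvd_or_dvd h8 with h9 | h9
      · exact t3 ((hp.associated_of_dvd Int.prime_three h9).dvd'.trans h7)
      · have h10 := hp.dvd_of_dvd_pow h9
        have h11 : p ∣ y := by
          have : y = x - (x - y) := by ring
          rw [this]; exact dvd_sub h10 h7
        exact hp.not_isUnit (hc.isUnit_of_dvd' h10 h11)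
    have h6 := K5 (Or.inr (Or.inr rfl)) (x := q) (y := a ^ 2) (z := 2 * D) (by omega) hmod hcop e3
    rw [h6, sub_self] at e3
    have h7 : (2 * D) ^ 2 = 0 := by linarith
    have h8 : 2 * D = 0 := (pow_eq_zero_iff (by norm_num)).1 h7
    apply hs
    rw [hD]
    linarith

theorem core_even {x y : ℤ} (hc : IsCoprime x y) (ox : x % 2 = 1) (oy : y % 2 = 1)
    (hne : x ^ 6 ≠ y ^ 6) (h5 : V5 (x ^ 6 - y ^ 6))
    (h3 : 5 ∣ padicValInt 3 (x ^ 6 - y ^ 6))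
    (h2 : ∃ k, padicValInt 2 (x ^ 6 - y ^ 6) = 5 * k ∨ padicValInt 2 (x ^ 6 - y ^ 6) = 5 * k + 1) :
    False := by
  by_cases h4 : (4 : ℤ) ∣ x + y
  · exact core_even_aux hc ox oy h4 hne h5 h3 h2
  · have e6 : (-y) ^ 6 = y ^ 6 := (show Even 6 by decide).neg_pow y
    exact core_even_aux (y := -y) hc.neg_right ox (by omega) (by omega) (by rw [e6]; exact hne)
      (by rw [e6]; exact h5) (by rw [e6]; exact h3) (by rw [e6]; exact h2)

theorem core_odd3_aux {x y : ℤ} (hc : IsCoprime x y) (par : (x + y) % 2 = 1)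
    (s3 : (3 : ℤ) ∣ x + y) (hne : x ^ 6 ≠ y ^ 6) (h5 : V5 (x ^ 6 - y ^ 6))
    (h3 : ∃ k, padicValInt 3 (x ^ 6 - y ^ 6) = 5 * k ∨ padicValInt 3 (x ^ 6 - y ^ 6) = 5 * k + 4) :
    False := by
  obtain ⟨v1, v2, v3, v4⟩ := V5_fac hc hne h5
  have e6 : (-y) ^ 6 = y ^ 6 := (show Even 6 by decide).neg_pow y
  have hx3 : ¬ (3 : ℤ) ∣ x := three_of_cop (y := -y) hc.neg_right (by rwa [sub_neg_eq_add])
  have l3 := val3_six (y := -y) hx3 (by rwa [sub_neg_eq_add]) (by rw [e6]; exact hne)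
  rw [e6, sub_neg_eq_add] at l3
  have ht3 : ¬ (3 : ℤ) ∣ x - y := by omega
  have oq : (x ^ 2 - x * y + y ^ 2) % 2 = 1 := by
    have h6 : x % 2 = 0 ∧ y % 2 = 1 ∨ x % 2 = 1 ∧ y % 2 = 0 := by omega
    rcases h6 with ⟨h6, h7⟩ | ⟨h6, h7⟩
    · obtain ⟨i, hi⟩ : ∃ i, x = 2 * i := ⟨x / 2, by omega⟩
      obtain ⟨j, hj⟩ : ∃ j, y = 2 * j + 1 := ⟨y / 2, by omega⟩
      have : x ^ 2 - x * y + y ^ 2 =
          2 * (2 * i ^ 2 - 2 * i * j - i + 2 * j ^ 2 + 2 * j) + 1 := by rw [hi, hj]; ring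
      omega
    · obtain ⟨i, hi⟩ : ∃ i, x = 2 * i + 1 := ⟨x / 2, by omega⟩
      obtain ⟨j, hj⟩ : ∃ j, y = 2 * j := ⟨y / 2, by omega⟩
      have : x ^ 2 - x * y + y ^ 2 =
          2 * (2 * i ^ 2 + 2 * i - 2 * i * j - j + 2 * j ^ 2) + 1 := by rw [hi, hj]; ring
      omega
  obtain ⟨b, hb⟩ := form (z := x - y) (by omega) 0 0 ⟨0, by rw [val_two_odd (by omega)]⟩
    ⟨0, by rw [val_three_not ht3]⟩ v2
  obtain ⟨q, hq⟩ := form (z := x ^ 2 - x * y + y ^ 2) (by omega) 0 1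
    ⟨0, by rw [val_two_odd oq]⟩ ⟨0, by rw [val_three_of (Or.inl (phi6_mod hx3 s3))]⟩ v3
  have hfin : (∃ a : ℤ, x + y = 81 * a ^ 5) ∨ ∃ a : ℤ, x + y = 27 * a ^ 5 := by
    obtain ⟨k, hk | hk⟩ := h3
    · left
      obtain ⟨a, ha⟩ := form (z := x + y) (by omega) 0 4 ⟨0, by rw [val_two_odd par]⟩
        ⟨k - 1, by omega⟩ v1
      exact ⟨a, by rw [ha]; ring⟩
    · right
      obtain ⟨a, ha⟩ := form (z := x + y) (by omega) 0 3 ⟨0, by rw [val_two_odd par]⟩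
        ⟨k, by omega⟩ v1
      exact ⟨a, by rw [ha]; ring⟩
  have fb : x - y = b ^ 5 := by rw [hb]; ring
  have fq : 3 * q ^ 5 = x ^ 2 - x * y + y ^ 2 := by rw [hq]; ring
  have e0 : 12 * q ^ 5 = (x + y) ^ 2 + 3 * (x - y) ^ 2 := by linear_combination 4 * fq
  rcases hfin with ⟨a, ha⟩ | ⟨a, ha⟩
  · rw [ha, fb] at e0
    have e1 := congrArg (fun z : ℤ => (z : ZMod 11)) e0
    push_cast at e1
    obtain ⟨a0, b0⟩ := e11f _ _ _ e1
    exact cop_eleven hc (by rw [ha]; exact ((of_cast11 a0).pow (by norm_num)).mul_left _)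
      (by rw [fb]; exact (of_cast11 b0).pow (by norm_num))
  · rw [ha, fb] at e0
    have e1 := congrArg (fun z : ℤ => (z : ZMod 11)) e0
    push_cast at e1
    obtain ⟨a0, b0⟩ := e11g _ _ _ e1
    exact cop_eleven hc (by rw [ha]; exact ((of_cast11 a0).pow (by norm_num)).mul_left _)
      (by rw [fb]; exact (of_cast11 b0).pow (by norm_num))

theorem core_odd3 {x y : ℤ} (hc : IsCoprime x y) (par : (x + y) % 2 = 1)
    (hW : (3 : ℤ) ∣ x ^ 6 - y ^ 6) (hne : x ^ 6 ≠ y ^ 6) (h5 : V5 (x ^ 6 - y ^ 6))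
    (h3 : ∃ k, padicValInt 3 (x ^ 6 - y ^ 6) = 5 * k ∨ padicValInt 3 (x ^ 6 - y ^ 6) = 5 * k + 4) :
    False := by
  have hx : ¬ (3 : ℤ) ∣ x := by
    intro h6
    have h7 : (3 : ℤ) ∣ y ^ 6 := by
      have h8 := dvd_sub (dvd_pow h6 (show 6 ≠ 0 by norm_num)) hW
      rwa [sub_sub_cancel] at h8
    exact Int.prime_three.not_isUnit (hc.isUnit_of_dvd' h6 (Int.prime_three.dvd_of_dvd_pow h7))
  have hy : ¬ (3 : ℤ) ∣ y := by
    intro h6
    have h7 : (3 : ℤ) ∣ x ^ 6 := by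
      have h8 := dvd_add hW (dvd_pow h6 (show 6 ≠ 0 by norm_num))
      rwa [sub_add_cancel] at h8
    exact Int.prime_three.not_isUnit (hc.isUnit_of_dvd' (Int.prime_three.dvd_of_dvd_pow h7) h6)
  by_cases s3 : (3 : ℤ) ∣ x - y
  · have e6 : (-y) ^ 6 = y ^ 6 := (show Even 6 by decide).neg_pow y
    exact core_odd3_aux (y := -y) hc.neg_right (by omega) (by rwa [← sub_eq_add_neg])
      (by rw [e6]; exact hne) (by rw [e6]; exact h5) (by rw [e6]; exact h3)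
  · exact core_odd3_aux hc par (three_add_of hx hy s3) hne h5 h3

end Pool.Agent.W2helper96.F5
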