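import Pool.Agent.W2helper96.F5.SixD

/-!
# Degrees congruent to six modulo twelve: two periodic points and their preimages
-/

set_option autoImplicit false

namespace Pool.Agent.W2helper96.F5

open Finset Pool.Agent.T6.H62.UB Pool.Agent.W2helper83.UC

section

variable {d : ℕ} {A B : ℤ} {V : ℕ} {O : Finset ℤ} {φ : ℤ → ℤ}

theorem val_pm {p : ℕ} {a b c e : ℤ} (h : a - b = c - e ∨ a - b = e - c) :
    padicValInt p (a - b) = padicValInt p (c - e) := by
  rcases h with h | h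
  · rw [h]
  · rw [h]; exact sub_comm_val e c

theorem no_pair6 (H : Hyp6 d V) (h : Sys d A B V O φ) (hA : A ≠ 0) (hV : 0 < V) (hV2 : 2 ∣ V)
    (hV3 : 3 ∣ V) {u w : ℤ} (hu : u ∈ O) (hw : w ∈ O) (pu : Per φ u) (pw : Per φ w) (hne : u ≠ w)
    (hv : φ u - φ w = u - w ∨ φ u - φ w = w - u) : False := by
  have nu := h.not_dvd H.d0 Nat.prime_three hV3 hu
  have nw := h.not_dvd H.d0 Nat.prime_three hV3 hw
  have ou := odd_of_even_V h H.d0 hV2 hu
  have ow := odd_of_even_V h H.d0 hV2 hw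
  push_cast at nu nw
  obtain ⟨k2, hk2⟩ := H.K hV Nat.prime_two hV2
  obtain ⟨k3, hk3⟩ := H.K hV Nat.prime_three hV3
  have t1 := two_step H h hA hV hV2 hu hw pu pw hne
  rw [val_pm hv] at t1
  by_cases h3 : (3 : ℤ) ∣ u - w
  · have t2 := three_sub H h hA hV hV3 hu hw pu pw hne h3
    rw [val_pm hv] at t2
    omega
  have s3 := three_add_of nu nw h3
  have t2 := three_add H h hA hV hV3 hu hw pu pw hne s3
  rw [val_pm hv, val_three_not h3] at t2
  obtain ⟨v1, v2, v3⟩ := pair_V5 H h hA hV hu hw pu pw hne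
  have hd2 : 2 ≤ d := by have := H.d12; omega
  have hs : u + w ≠ 0 := by
    intro h0
    have h9 : φ u = φ w := phi_eq h hV hu hw (by
      rw [show u = -w by linarith, H.ev.neg_pow])
    exact hne (per_inj pu pw (k := 1) h9)
  exact no_pm (cop_per h hA hV hd2 hu hw pu pw hne) (by omega) (by omega) nu s3 hs
    ⟨k2 + 1, by omega⟩ ⟨k3, by omega⟩ v1 v2 v3

/-- **At most one periodic point if `6 ∣ V`.** -/
theorem one6 (H : Hyp6 d V) (h : Sys d A B V O φ) (hA : A ≠ 0) (hV : 0 < V) (hV2 : 2 ∣ V)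
    (hV3 : 3 ∣ V) {u w : ℤ} (hu : u ∈ O) (hw : w ∈ O) (pu : Per φ u) (pw : Per φ w) : u = w := by
  have fix : ∀ {x : ℤ}, x ∈ O → Per φ x → φ x = x := by
    intro x hx px
    by_contra hne
    have hcyc := main6 H h hA hV hx px
    exact no_pair6 H h hA hV hV2 hV3 hx (h.maps x hx) px (px.iter 1) (Ne.symm hne)
      (Or.inr (by rw [hcyc]))
  by_contra hne
  exact no_pair6 H h hA hV hV2 hV3 hu hw pu pw hne
    (Or.inl (by rw [fix hu pu, fix hw pw]))

/-- **At most two periodic points.** -/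
theorem two6 (H : Hyp6 d V) (h : Sys d A B V O φ) (hA : A ≠ 0) (hV : 0 < V)
    (P : Finset ℤ) (hP : P ⊆ O) (hPp : ∀ x ∈ P, Per φ x) : P.card ≤ 2 := by
  by_contra hcon
  obtain ⟨a, b, c, ha, hb, hc, hab, hac, hbc⟩ := two_lt_card_iff.1 (not_le.1 hcon)
  by_cases hV2 : 2 ∣ V
  · by_cases hV3 : 3 ∣ V
    · exact hab (one6 H h hA hV hV2 hV3 (hP ha) (hP hb) (hPp a ha) (hPp b hb))
    · have o0 := odd_of_even_V h H.d0 hV2 (hP ha)
      have o1 := odd_of_even_V h H.d0 hV2 (hP hb)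
      have o2 := odd_of_even_V h H.d0 hV2 (hP hc)
      have f4 : (4 : ℤ) ∣ a - b ∨ (4 : ℤ) ∣ a - c ∨ (4 : ℤ) ∣ b - c := by omega
      rcases f4 with h4 | h4 | h4
      · exact inj12 H h hA hV hV2 (hP ha) (hP hb) (hPp a ha) (hPp b hb) hab h4
          (fun h3 => absurd h3 hV3)
      · exact inj12 H h hA hV hV2 (hP ha) (hP hc) (hPp a ha) (hPp c hc) hac h4
          (fun h3 => absurd h3 hV3)
      · exact inj12 H h hA hV hV2 (hP hb) (hP hc) (hPp b hb) (hPp c hc) hbc h4
          (fun h3 => absurd h3 hV3)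
  · have s1 := odd_sum h H.ev hA hV hV2 (hP ha) (hP hb) (hPp a ha) (hPp b hb) hab
    have s2 := odd_sum h H.ev hA hV hV2 (hP ha) (hP hc) (hPp a ha) (hPp c hc) hac
    have s3 := odd_sum h H.ev hA hV hV2 (hP hb) (hP hc) (hPp b hb) (hPp c hc) hbc
    omega

/-- `d = 6 e` with `e` odd -/
theorem Hyp6.form (H : Hyp6 d V) : ∃ e : ℕ, d = 6 * e ∧ e ≠ 0 := by
  obtain ⟨e, he⟩ := H.six
  refine ⟨e, he, ?_⟩
  rintro rfl
  have := H.d12
  omega

theorem pow_par {x : ℤ} {e : ℕ} (he : e ≠ 0) : (x ^ e) % 2 = x % 2 := by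
  have h1 : Even (x ^ e) ↔ Even x := by
    rw [Int.even_pow]
    exact ⟨fun h => h.1, fun h => ⟨h, he⟩⟩
  rw [even_iff_two_dvd, even_iff_two_dvd] at h1
  omega

/-- the values of `Θ ^ d - b ^ d` which do not occur, `V` even -/
theorem six_even (H : Hyp6 d V) {x y W : ℤ} (hc : IsCoprime x y) (hW0 : W ≠ 0)
    (hW2 : (2 : ℤ) ∣ W) (hV5 : V5 W) (h3 : 5 ∣ padicValInt 3 W)
    (h2 : ∃ k, padicValInt 2 W = 5 * k ∨ padicValInt 2 W = 5 * k + 1)
    (he : x ^ d - y ^ d = W) : False := by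
  obtain ⟨e, rfl, he0⟩ := H.form
  have e1 : ∀ z : ℤ, z ^ (6 * e) = (z ^ e) ^ 6 := fun z => by rw [← pow_mul, mul_comm]
  rw [e1, e1] at he
  have hcp : IsCoprime (x ^ e) (y ^ e) := hc.pow
  have hne : (x ^ e) ^ 6 ≠ (y ^ e) ^ 6 := fun h0 => hW0 (by rw [← he, h0, sub_self])
  have px := pow_par (x := x) he0
  have py := pow_par (x := y) he0
  have px6 := pow_par (x := x ^ e) (e := 6) (by norm_num)
  have py6 := pow_par (x := y ^ e) (e := 6) (by norm_num)
  have hodd : (x ^ e) % 2 = 1 ∧ (y ^ e) % 2 = 1 := by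
    by_contra hcon
    have h4 : (2 : ℤ) ∣ x ^ e ∧ (2 : ℤ) ∣ y ^ e := by omega
    exact Int.prime_two.not_isUnit (hcp.isUnit_of_dvd' h4.1 h4.2)
  exact core_even hcp hodd.1 hodd.2 hne (by rw [he]; exact hV5) (by rw [he]; exact h3)
    (by rw [he]; exact h2)

/-- the values of `Θ ^ d - b ^ d` which do not occur, `V` odd and divisible by three -/
theorem six_odd (H : Hyp6 d V) {x y W : ℤ} (hc : IsCoprime x y)
    (hW2 : ¬ (2 : ℤ) ∣ W) (hW3 : (3 : ℤ) ∣ W) (hV5 : V5 W)
    (h3 : ∃ k, padicValInt 3 W = 5 * k ∨ padicValInt 3 W = 5 * k + 4)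
    (he : x ^ d - y ^ d = W) : False := by
  obtain ⟨e, rfl, he0⟩ := H.form
  have e1 : ∀ z : ℤ, z ^ (6 * e) = (z ^ e) ^ 6 := fun z => by rw [← pow_mul, mul_comm]
  rw [e1, e1] at he
  have hcp : IsCoprime (x ^ e) (y ^ e) := hc.pow
  have hne : (x ^ e) ^ 6 ≠ (y ^ e) ^ 6 := by
    intro h0
    apply hW2
    rw [← he, h0, sub_self]
    exact dvd_zero _
  have px6 := pow_par (x := x ^ e) (e := 6) (by norm_num)
  have py6 := pow_par (x := y ^ e) (e := 6) (by norm_num)
  exact core_odd3 hcp (by omega) (by rw [he]; exact hW3) hne (by rw [he]; exact hV5)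
    (by rw [he]; exact h3)

theorem H6_V5 (H : Hyp6 d V) : V5 (V : ℤ) := by
  intro p hp _ _
  rw [padicValInt.of_nat]
  exact H.five p hp

theorem V5_mul {x y : ℤ} (hx : x ≠ 0) (hy : y ≠ 0) (h1 : V5 x) (h2 : V5 y) : V5 (x * y) := by
  intro p hp hp2 hp3
  have := Fact.mk hp
  rw [padicValInt.mul hx hy]
  exact dvd_add (h1 p hp hp2 hp3) (h2 p hp hp2 hp3)

theorem V5_two : V5 2 := by
  intro p hp hp2 _
  rw [padicValInt.eq_zero_of_not_dvd]
  · exact dvd_zero _
  · intro h5
    exact hp2 ((Nat.prime_dvd_prime_iff_eq hp Nat.prime_two).1 (by exact_mod_cast h5))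

theorem V5_neg {x : ℤ} (h : V5 x) : V5 (-x) := by
  intro p hp hp2 hp3
  rw [val_neg]
  exact h p hp hp2 hp3

theorem core6 (H : Hyp6 d V) (hV : 0 < V) (h23 : 2 ∣ V ∨ 3 ∣ V) : Core d V := by
  intro x y W hW hc he
  exfalso
  have f2 := Fact.mk Nat.prime_two
  have f3 := Fact.mk Nat.prime_three
  have hVz : (V : ℤ) ≠ 0 := by exact_mod_cast hV.ne'
  have hW0 := W_ne hV hW
  have hV5 := H6_V5 H
  have hW5 : V5 W := by
    rcases hW with rfl | rfl | rfl | rfl
    · exact hV5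
    · exact V5_neg hV5
    · exact V5_mul two_ne_zero hVz V5_two hV5
    · exact V5_neg (V5_mul two_ne_zero hVz V5_two hV5)
  have v32 : padicValInt 3 2 = 0 := by
    apply padicValInt.eq_zero_of_not_dvd
    norm_num
  have v22 : padicValInt 2 2 = 1 := by
    rw [show (2 : ℤ) = ((2 : ℕ) : ℤ) by norm_num, padicValInt.of_nat, padicValNat_self]
  have a3 := H.five 3 Nat.prime_three
  obtain ⟨k2, hk2⟩ := H.five 2 Nat.prime_two
  have w3 : padicValInt 3 W = padicValNat 3 V := by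
    rcases hW with rfl | rfl | rfl | rfl
    · rw [padicValInt.of_nat]
    · rw [val_neg, padicValInt.of_nat]
    · rw [padicValInt.mul two_ne_zero hVz, v32, padicValInt.of_nat, zero_add]
    · rw [val_neg, padicValInt.mul two_ne_zero hVz, v32, padicValInt.of_nat, zero_add]
  have w2 : padicValInt 2 W = padicValNat 2 V ∨ padicValInt 2 W = padicValNat 2 V + 1 := by
    rcases hW with rfl | rfl | rfl | rfl
    · left; rw [padicValInt.of_nat]
    · left; rw [val_neg, padicValInt.of_nat]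
    · right; rw [padicValInt.mul two_ne_zero hVz, v22, padicValInt.of_nat, add_comm]
    · right; rw [val_neg, padicValInt.mul two_ne_zero hVz, v22, padicValInt.of_nat, add_comm]
  by_cases hV2 : 2 ∣ V
  · have hV2z : (2 : ℤ) ∣ V := by exact_mod_cast hV2
    apply six_even H hc hW0 _ hW5 (by rw [w3]; exact a3) ⟨k2, by omega⟩ he
    rcases hW with rfl | rfl | rfl | rfl
    · exact hV2z
    · exact hV2z.neg_right
    · exact dvd_mul_right _ _
    · exact (dvd_mul_right _ _).neg_right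
  · have hV3 := h23.resolve_left hV2
    have hV2z : ¬ (2 : ℤ) ∣ V := by exact_mod_cast hV2
    have hV3z : (3 : ℤ) ∣ V := by exact_mod_cast hV3
    obtain ⟨k3, hk3⟩ := a3
    have hW' : W = V ∨ W = -V := by
      rcases hW with h1 | h1 | h1 | h1
      · exact Or.inl h1
      · exact Or.inr h1
      all_goals
        exfalso
        have hev : (2 : ℤ) ∣ x ^ d - y ^ d := by rw [he, h1]; omega
        obtain ⟨e, he1, he0⟩ := H.form
        have px := pow_par (x := x) H.d0
        have py := pow_par (x := y) H.d0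
        have hodd : x % 2 = 1 ∧ y % 2 = 1 := by
          by_contra hcon
          have h4 : (2 : ℤ) ∣ x ∧ (2 : ℤ) ∣ y := by omega
          exact Int.prime_two.not_isUnit (hc.isUnit_of_dvd' h4.1 h4.2)
        have h8 : (8 : ℤ) ∣ x ^ d - y ^ d := by
          have s1 := QP.sq_odd (x := x) (by omega)
          have s2 := QP.sq_odd (x := y) (by omega)
          have s3 : (8 : ℤ) ∣ x ^ 2 - y ^ 2 := by omega
          have s4 : x ^ 2 - y ^ 2 ∣ (x ^ 2) ^ (3 * e) - (y ^ 2) ^ (3 * e) :=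
            sub_dvd_pow_sub_pow _ _ _
          rw [← pow_mul, ← pow_mul, show 2 * (3 * e) = d by rw [he1]; ring] at s4
          exact s3.trans s4
        rw [he, h1] at h8
        omega
    apply six_odd H hc _ _ hW5 ⟨k3, Or.inl (by rw [w3]; exact hk3)⟩ he
    · rcases hW' with rfl | rfl
      · exact hV2z
      · omega
    · rcases hW' with rfl | rfl
      · exact hV3z
      · exact hV3z.neg_right

/-- **No preimages of the negatives of the periodic points.** -/
theorem tail6 (H : Hyp6 d V) (h : Sys d A B V O φ) (hA : A ≠ 0) (hV : 0 < V)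
    (h23 : 2 ∣ V ∨ 3 ∣ V) : TailP A B V O φ := by
  intro α y hα pα hnα hy hφy
  have hde := H.ev
  have hd0 := H.d0
  have hd4 : 4 ≤ d := by have := H.d12; omega
  have hd2 : 2 ≤ d := by omega
  have f2 := Fact.mk Nat.prime_two
  have f3 := Fact.mk Nat.prime_three
  have hVz : (V : ℤ) ≠ 0 := by exact_mod_cast hV.ne'
  have hα0 : α ≠ 0 := by
    rintro rfl
    exact hnα (by simpa using pα)
  by_cases hfix : φ α = α
  · exact tail_at_fixed hde hd4 h hA hV (core6 H hV h23) hα hα0 hfix hy hφy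
  exfalso
  have hβO : φ α ∈ O := h.maps α hα
  have pβ : Per φ (φ α) := pα.iter 1
  have hcyc := main6 H h hA hV hα pα
  set β := φ α with hβ
  have hne : α ≠ β := fun h1 => hfix h1.symm
  have hn := per_NM pα pβ hne
  have hAu := unit_A h hA hV hα hβO pα pβ hne
  have hE : A * (α ^ d - y ^ d) = V * (α + β) := by
    have h1 := eqn_sub h hα hy
    rw [← hβ, hφy] at h1
    linear_combination -h1
  have hs0 : α + β ≠ 0 := by
    intro h0
    apply hnα
    have : -α = β := by linarith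
    rw [this]; exact pβ
  have hgood : ∀ q : ℕ, q.Prime → ¬ q ∣ V → ¬ (q : ℤ) ∣ α + β := by
    intro q hq hqV h1
    exact (good h hA hV hα hβO pα pβ hne hq hqV).2 (h1.trans (add_dvd_psi hde hne))
  have hcop : IsCoprime α y := by
    apply cop_of_nat (fun h0 => hα0 h0.1)
    intro p hp h1 h2
    have hpV : ¬ p ∣ V := fun h3 => h.not_dvd hd0 hp h3 hα h1
    have h3 : (p : ℤ) ∣ V * (α + β) := by
      rw [← hE]
      exact Dvd.dvd.mul_left (dvd_sub (dvd_pow h1 hd0) (dvd_pow h2 hd0)) A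
    rcases (Nat.prime_iff_prime_int.1 hp).dvd_or_dvd h3 with h4 | h4
    · exact hpV (Int.natCast_dvd_natCast.1 h4)
    · exact hgood p hp hpV h4
  have hW : α ^ d - y ^ d = V * (α + β) ∨ α ^ d - y ^ d = -(V * (α + β)) := by
    rcases hAu with h1 | h1
    · left; rw [← hE, h1]; ring
    · right; rw [← hE, h1]; ring
  obtain ⟨W, hWd⟩ : ∃ W, W = α ^ d - y ^ d := ⟨_, rfl⟩
  have hWv : ∀ p : ℕ, p.Prime → padicValInt p W = padicValNat p V + padicValInt p (α + β) := by
    intro p hp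
    have := Fact.mk hp
    rcases hW with h1 | h1
    · rw [hWd, h1, padicValInt.mul hVz hs0, padicValInt.of_nat]
    · rw [hWd, h1, val_neg, padicValInt.mul hVz hs0, padicValInt.of_nat]
  have hVW : (V : ℤ) ∣ W := by
    rcases hW with h1 | h1
    · rw [hWd, h1]; exact dvd_mul_right _ _
    · rw [hWd, h1]; exact (dvd_mul_right _ _).neg_right
  have hW0 : W ≠ 0 := by
    rcases hW with h1 | h1
    · rw [hWd, h1]; exact mul_ne_zero hVz hs0
    · rw [hWd, h1]; exact neg_ne_zero.2 (mul_ne_zero hVz hs0)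
  obtain ⟨v1, -, -⟩ := pair_V5 H h hA hV hα hβO pα pβ hne
  have hW5 : V5 W := by
    intro p hp hp2 hp3
    rw [hWv p hp]
    exact dvd_add (H.five p hp) (v1 p hp hp2 hp3)
  by_cases hV2 : 2 ∣ V
  · by_cases hV3 : 3 ∣ V
    · exact no_pair6 H h hA hV hV2 hV3 hα hβO pα pβ hne (Or.inr (by rw [hcyc]))
    · -- `V` even, prime to three
      have t1 := two_step H h hA hV hV2 hα hβO pα pβ hne
      rw [hcyc, ← hβ, sub_comm_val β α] at t1
      have g3 : padicValInt 3 (α + β) = 0 :=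
        padicValInt.eq_zero_of_not_dvd (hgood 3 Nat.prime_three hV3)
      have a3 : padicValNat 3 V = 0 := padicValNat.eq_zero_of_not_dvd hV3
      obtain ⟨k2, hk2⟩ := H.five 2 Nat.prime_two
      have w2 := hWv 2 Nat.prime_two
      have w3 := hWv 3 Nat.prime_three
      have hW2 : (2 : ℤ) ∣ W := (show (2 : ℤ) ∣ V by exact_mod_cast hV2).trans hVW
      exact six_even H hcop hW0 hW2 hW5 (by rw [w3, g3, a3]; exact dvd_zero _)
        ⟨2 * k2, by omega⟩ hWd.symm
  · -- `V` odd, divisible by three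
    have hV3 := h23.resolve_left hV2
    have nα := h.not_dvd hd0 Nat.prime_three hV3 hα
    have nβ := h.not_dvd hd0 Nat.prime_three hV3 hβO
    push_cast at nα nβ
    obtain ⟨k3, hk3⟩ := H.K hV Nat.prime_three hV3
    have w3 := hWv 3 Nat.prime_three
    have g2 := odd_sum h hde hA hV hV2 hα hβO pα pβ hne
    have hW2 : ¬ (2 : ℤ) ∣ W := by
      intro h2
      have hV2z : ¬ (2 : ℤ) ∣ V := by exact_mod_cast hV2
      have h3 : (2 : ℤ) ∣ V * (α + β) := by
        rcases hW with h1 | h1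
        · rw [← h1, ← hWd]; exact h2
        · have : (V : ℤ) * (α + β) = -W := by rw [hWd, h1, neg_neg]
          rw [this]; exact h2.neg_right
      rcases Int.prime_two.dvd_or_dvd h3 with h4 | h4
      · exact hV2z h4
      · exact g2 h4
    have hW3 : (3 : ℤ) ∣ W := (show (3 : ℤ) ∣ V by exact_mod_cast hV3).trans hVW
    by_cases h3 : (3 : ℤ) ∣ α - β
    · have t2 := three_sub H h hA hV hV3 hα hβO pα pβ hne h3
      rw [hcyc, ← hβ, sub_comm_val β α] at t2
      omega
    have s3 := three_add_of nα nβ h3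
    have t2 := three_add H h hA hV hV3 hα hβO pα pβ hne s3
    rw [hcyc, ← hβ, sub_comm_val β α, val_three_not h3] at t2
    exact six_odd H hcop hW2 hW3 hW5 ⟨2 * k3 + 1, Or.inr (by omega)⟩ hWd.symm

end

end Pool.Agent.W2helper96.F5
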