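import Pool.Agent.W2helper96.F5.SixE

/-!
# Degrees congruent to six modulo twelve: rational points
-/

set_option autoImplicit false

namespace Pool.Agent.W2helper96.F5

open Finset Pool.Agent.T6.H62.UB Pool.Agent.W2helper83.UC

/-- all reductions satisfy the hypothesis -/
def All6 (d : ℕ) (a c : ℚ) : Prop :=
  ∀ (OQ : Finset ℚ) (l : ℚ) (A B : ℤ) (V : ℕ) (O : Finset ℤ) (φ : ℤ → ℤ),
    Red d a c OQ l A B V O φ → Hyp6 d V

section

variable {d : ℕ} {a c : ℚ}

theorem den_iff (hd0 : d ≠ 0) {OQ : Finset ℚ} {l : ℚ} {A B : ℤ} {V : ℕ} {O : Finset ℤ}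
    {φ : ℤ → ℤ} (R : Red d a c OQ l A B V O φ) {p : ℕ} (hp : p.Prime) :
    p ∣ V ↔ p ∣ (a * c ^ (d - 1)).den := by
  rw [R.t_den hd0]
  exact ⟨fun h => h.trans (dvd_pow_self V hd0), fun h => hp.dvd_of_dvd_pow h⟩

/-- the hypothesis for `5 d ∣ v_p (den t)` -/
theorem all6_of_den (h12 : d % 12 = 6) (h9 : ¬ 9 ∣ d) (h5 : ¬ 5 ∣ d)
    (hf : ∀ p : ℕ, p.Prime → 5 * d ∣ padicValNat p (a * c ^ (d - 1)).den)
    (hE : ∀ p : ℕ, p.Prime → 5 ≤ p → p ∣ d → ¬ p ∣ (a * c ^ (d - 1)).den) : All6 d a c := by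
  intro OQ l A B V O φ R
  have hd0 : d ≠ 0 := by omega
  have five : ∀ p : ℕ, p.Prime → 5 ∣ padicValNat p V := by
    intro p hp
    have h1 := hf p hp
    rw [R.val_t hd0 hp, mul_comm 5 d] at h1
    exact Nat.dvd_of_mul_dvd_mul_left (Nat.pos_of_ne_zero hd0) h1
  refine ⟨h12, h9, h5, five, fun p hp hp2 hp3 hpV => ⟨five p hp, fun hpd => ?_⟩⟩
  have h4 : p ≠ 4 := by rintro rfl; norm_num at hp
  have h2 := hp.two_le
  exact absurd ((den_iff hd0 R hp).1 hpV) (hE p hp (by omega) hpd)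

/-- the hypothesis for `a = r ^ 5`, `5 ∣ d - 1` -/
theorem all6_of_fifth (h60 : d % 60 = 6) (h9 : ¬ 9 ∣ d) {r : ℚ} (hr : r ≠ 0) (ha : a = r ^ 5)
    (hE : ∀ p : ℕ, p.Prime → 5 ≤ p → p ∣ d → ¬ p ∣ (a * c ^ (d - 1)).den) : All6 d a c := by
  intro OQ l A B V O φ R
  have hd0 : d ≠ 0 := by omega
  have ha0 : a ≠ 0 := by rw [ha]; exact pow_ne_zero _ hr
  have five : ∀ p : ℕ, p.Prime → 5 ∣ padicValNat p V := by
    intro p hp
    have := Fact.mk hp
    by_cases hpV : p ∣ V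
    · have h1 := R.val ha0 hp hpV
      rw [ha, padicValRat.pow] at h1
      obtain ⟨k, hk⟩ : 5 ∣ d - 1 := by omega
      have h5 : (5 : ℤ) ∣ (padicValNat p V : ℤ) := by
        refine ⟨-(padicValRat p r + k * padicValRat p l), ?_⟩
        rw [hk] at h1
        push_cast at h1
        rw [padicValRat.of_nat] at h1
        linarith
      exact_mod_cast h5
    · rw [padicValNat.eq_zero_of_not_dvd hpV]
      exact dvd_zero _
  refine ⟨by omega, h9, by omega, five, fun p hp hp2 hp3 hpV => ⟨five p hp, fun hpd => ?_⟩⟩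
  have h4 : p ≠ 4 := by rintro rfl; norm_num at hp
  have h2 := hp.two_le
  exact absurd ((den_iff hd0 R hp).1 hpV) (hE p hp (by omega) hpd)

theorem c_two (h12 : d % 12 = 6) (ha : a ≠ 0) (hH : All6 d a c) (T : Finset ℚ)
    (hT : ∀ x ∈ T, x ∈ periodicPts (cen d a c)) : T.card ≤ 2 := by
  rcases setup (d := d) (by omega) ha T (fun x hx => per_sub_pre _ (hT x hx)) with h |
    ⟨OQ, l, A, B, V, O, φ, R, hTO, -⟩
  · have := card_le_one_of_zero h
    omega
  · obtain ⟨TZ, hTZ, hcard, hper⟩ := R.lift_per hTO hT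
    exact hcard.trans (two6 (hH _ _ _ _ _ _ _ R) R.sys R.A0 R.V0 TZ hTZ hper)

theorem c_cyc (h12 : d % 12 = 6) (ha : a ≠ 0) (hH : All6 d a c) {x : ℚ}
    (hx : x ∈ periodicPts (cen d a c)) : cen d a c (cen d a c x) = x := by
  have hd0 : d ≠ 0 := by omega
  rcases setup (d := d) (by omega) ha {x} (fun y hy => by
    rw [mem_singleton] at hy
    rw [hy]
    exact per_sub_pre _ hx) with h | ⟨OQ, l, A, B, V, O, φ, R, hTO, -⟩
  · obtain ⟨h1, h2⟩ := h x (by simp)
    unfold cen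
    rw [h1, h2, zero_pow hd0, mul_zero, zero_add, zero_pow hd0, mul_zero, zero_add]
  · obtain ⟨n, hn, hnx⟩ := R.surj x (hTO (by simp))
    have pn : Per φ n := (R.per_iff hn).2 (by rw [hnx]; exact hx)
    have h1 := main6 (hH _ _ _ _ _ _ _ R) R.sys R.A0 R.V0 hn pn
    have h2 := R.iter hn 2
    have h3 : φ^[2] n = n := h1
    rw [h3, hnx] at h2
    exact h2.symm

theorem c_one (h12 : d % 12 = 6) (ha : a ≠ 0) (hH : All6 d a c)
    (h2 : 2 ∣ (a * c ^ (d - 1)).den) (h3 : 3 ∣ (a * c ^ (d - 1)).den) (T : Finset ℚ)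
    (hT : ∀ x ∈ T, x ∈ periodicPts (cen d a c)) : T.card ≤ 1 := by
  have hd0 : d ≠ 0 := by omega
  rcases setup (d := d) (by omega) ha T (fun x hx => per_sub_pre _ (hT x hx)) with h |
    ⟨OQ, l, A, B, V, O, φ, R, hTO, -⟩
  · exact card_le_one_of_zero h
  · obtain ⟨TZ, hTZ, hcard, hper⟩ := R.lift_per hTO hT
    refine hcard.trans ?_
    rw [card_le_one]
    intro x hx y hy
    exact one6 (hH _ _ _ _ _ _ _ R) R.sys R.A0 R.V0 ((den_iff hd0 R Nat.prime_two).2 h2)
      ((den_iff hd0 R Nat.prime_three).2 h3) (hTZ hx) (hTZ hy) (hper x hx) (hper y hy)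

theorem c_shape (h12 : d % 12 = 6) (ha : a ≠ 0) (hH : All6 d a c)
    (h23 : 2 ∣ (a * c ^ (d - 1)).den ∨ 3 ∣ (a * c ^ (d - 1)).den) {x : ℚ}
    (hx : x ∈ preperiodicPts (cen d a c)) :
    x ∈ periodicPts (cen d a c) ∨ -x ∈ periodicPts (cen d a c) := by
  have hd0 : d ≠ 0 := by omega
  rcases setup (d := d) (by omega) ha {x} (by simpa using hx) with h | ⟨OQ, l, A, B, V, O, φ, R, hTO, hpre⟩
  · left
    obtain ⟨h1, h2⟩ := h x (by simp)
    refine ⟨1, one_pos, ?_⟩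
    rw [Function.iterate_one]
    unfold cen
    rw [h1, h2, zero_pow hd0]
    ring
  · obtain ⟨n, hn, hnx⟩ := R.surj x (hTO (by simp))
    have hV23 : 2 ∣ V ∨ 3 ∣ V := h23.imp (den_iff hd0 R Nat.prime_two).2
      (den_iff hd0 R Nat.prime_three).2
    have hH' := hH _ _ _ _ _ _ _ R
    rcases struct hH'.ev hd0 R.sys R.A0 (tail6 hH' R.sys R.A0 R.V0 hV23) hn (hpre n hn) with
      h1 | ⟨h1, h2⟩ | ⟨-, h1⟩
    · left
      have := (R.per_iff hn).1 h1
      rw [hnx] at this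
      exact this
    · right
      have := (R.per_iff h1).1 h2
      rw [show l * ((-n : ℤ) : ℚ) = -x by rw [← hnx]; push_cast; ring] at this
      exact this
    · exfalso
      have hV1 := h1.1
      rw [hV1] at hV23
      rcases hV23 with h | h <;> norm_num at h

theorem c_sym (T P : Finset ℚ) (h : ∀ x ∈ T, x ∈ P ∨ -x ∈ P) : T.card ≤ 2 * P.card := by
  classical
  have h1 : T ⊆ P ∪ P.image (fun z => -z) := by
    intro x hx
    rw [mem_union, mem_image]
    rcases h x hx with h2 | h2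
    · exact Or.inl h2
    · exact Or.inr ⟨-x, h2, neg_neg x⟩
  have h2 := card_le_card h1
  have h3 := card_union_le P (P.image (fun z => -z))
  have h4 : (P.image (fun z : ℚ => -z)).card ≤ P.card := card_image_le
  omega

/-- the number of preperiodic points in terms of the number of periodic points -/
theorem c_pre (h12 : d % 12 = 6) (ha : a ≠ 0) (hH : All6 d a c)
    (h23 : 2 ∣ (a * c ^ (d - 1)).den ∨ 3 ∣ (a * c ^ (d - 1)).den) {N : ℕ}
    (hN : ∀ T : Finset ℚ, (∀ x ∈ T, x ∈ periodicPts (cen d a c)) → T.card ≤ N) (T : Finset ℚ)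
    (hT : ∀ x ∈ T, x ∈ preperiodicPts (cen d a c)) : T.card ≤ 2 * N := by
  classical
  obtain ⟨P, hP⟩ : ∃ P, P = (T ∪ T.image (fun z => -z)).filter
    fun x => x ∈ periodicPts (cen d a c) := ⟨_, rfl⟩
  have h1 := c_sym T P
    (by
      rw [hP]
      intro x hx
      rcases c_shape h12 ha hH h23 (hT x hx) with h2 | h2
      · left
        rw [mem_filter]
        exact ⟨mem_union_left _ hx, h2⟩
      · right
        rw [mem_filter]
        exact ⟨mem_union_right _ (mem_image_of_mem _ hx), h2⟩)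
  have h2 := hN P (fun x hx => by rw [hP] at hx; exact (mem_filter.1 hx).2)
  omega

end

end Pool.Agent.W2helper96.F5
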