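import Pool.Agent.W2helper96.F5.SixF

/-!
# `x ^ 6 + c`: the points eventually mapped to a fixed point
-/

set_option autoImplicit false

namespace Pool.Agent.W2helper96.F5

open Finset Pool.Agent.T6.H62.UB Pool.Agent.W2helper83.UC Pool.Agent.W2helper96.QP

theorem V5_pow (v : ℤ) : V5 (v ^ 5) := by
  intro p hp _ _
  have := Fact.mk hp
  by_cases hv : v = 0
  · rw [hv]; simp [padicValInt]
  · have h1 : padicValInt p (v ^ 5) = 5 * padicValInt p v := by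
      rw [show v ^ 5 = v * v * v * v * v by ring]
      rw [padicValInt.mul (by positivity) hv, padicValInt.mul (by positivity) hv,
        padicValInt.mul (by positivity) hv, padicValInt.mul hv hv]
      ring
    rw [h1]; exact dvd_mul_right _ _

/-- `(16 a ^ 5) ^ 6 - b ^ 6 = ± v ^ 5` with `2 a = ± A ^ 6` -/
theorem no_sq {a b v A ε ε' : ℤ} (hε : ε = 1 ∨ ε = -1) (hε' : ε' = 1 ∨ ε' = -1) (ha : a ≠ 0)
    (hab : IsCoprime a b) (hb2 : ¬ (2 : ℤ) ∣ b) (hv3 : ¬ (3 : ℤ) ∣ v)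
    (hA : 2 * a = ε' * A ^ 6) (he : (16 * a ^ 5) ^ 6 - b ^ 6 = ε * v ^ 5) : False := by
  have hcop : IsCoprime (16 * a ^ 5) b := by
    apply IsCoprime.mul_left _ hab.pow_left
    have h2 : IsCoprime (2 : ℤ) b := Int.prime_two.coprime_iff_not_dvd.2 hb2
    have : (16 : ℤ) = 2 ^ 4 := by norm_num
    rw [this]; exact h2.pow_left
  have hv5 : V5 (ε * v ^ 5) := by
    rcases hε with rfl | rfl
    · rw [one_mul]; exact V5_pow v
    · rw [neg_one_mul]; exact V5_neg (V5_pow v)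
  have hW3 : ¬ (3 : ℤ) ∣ ε * v ^ 5 := by
    intro h3
    apply hv3
    apply Int.prime_three.dvd_of_dvd_pow (n := 5)
    rcases hε with rfl | rfl
    · rwa [one_mul] at h3
    · rw [neg_one_mul] at h3; exact (dvd_neg).1 h3
  have hne : (16 * a ^ 5) ^ 6 ≠ b ^ 6 := by
    intro h0
    apply hW3
    rw [← he, h0, sub_self]
    exact dvd_zero _
  obtain ⟨v1, v2, -, -⟩ := V5_fac hcop hne (by rw [he]; exact hv5)
  have hfac : (16 * a ^ 5) ^ 6 - b ^ 6 = (16 * a ^ 5 + b) * ((16 * a ^ 5 - b) *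
      (((16 * a ^ 5) ^ 2 - 16 * a ^ 5 * b + b ^ 2) *
        ((16 * a ^ 5) ^ 2 + 16 * a ^ 5 * b + b ^ 2))) := by ring
  have g1 : ¬ (3 : ℤ) ∣ 16 * a ^ 5 + b := fun h3 => hW3 (by
    rw [← he, hfac]; exact h3.mul_right _)
  have g2 : ¬ (3 : ℤ) ∣ 16 * a ^ 5 - b := fun h3 => hW3 (by
    rw [← he, hfac]; exact (h3.mul_right _).mul_left _)
  obtain ⟨p, hp⟩ := form (z := 16 * a ^ 5 + b) (by omega) 0 0
    ⟨0, by rw [val_two_odd (by omega)]⟩ ⟨0, by rw [val_three_not g1]⟩ v1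
  obtain ⟨q, hq⟩ := form (z := 16 * a ^ 5 - b) (by omega) 0 0
    ⟨0, by rw [val_two_odd (by omega)]⟩ ⟨0, by rw [val_three_not g2]⟩ v2
  have fp : p ^ 5 = 16 * a ^ 5 + b := by rw [hp]; ring
  have fq : q ^ 5 = 16 * a ^ 5 - b := by rw [hq]; ring
  have op : p % 2 = 1 := odd_of_pow5 (by omega)
  have oq : q % 2 = 1 := odd_of_pow5 (by omega)
  have hpq : IsCoprime p q := by
    apply isCoprime_of_prime_dvd
    · rintro ⟨h7, -⟩
      rw [h7] at op
      norm_num at op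
    intro r hr hrp hrq
    have h6 : r ∣ 16 * a ^ 5 + b := by rw [← fp]; exact hrp.pow (by norm_num)
    have h7 : r ∣ 16 * a ^ 5 - b := by rw [← fq]; exact hrq.pow (by norm_num)
    have h8 : r ∣ 2 * b := by
      have : 2 * b = (16 * a ^ 5 + b) - (16 * a ^ 5 - b) := by ring
      rw [this]; exact dvd_sub h6 h7
    rcases hr.dvd_or_dvd h8 with h9 | h9
    · have h10 : (2 : ℤ) ∣ p := (hr.associated_of_dvd Int.prime_two h9).dvd'.trans hrp
      omega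
    · have h10 : r ∣ 16 * a ^ 5 := by
        have : 16 * a ^ 5 = (16 * a ^ 5 + b) - b := by ring
        rw [this]; exact dvd_sub h6 h9
      exact hr.not_isUnit (hcop.isUnit_of_dvd' h10 h9)
  have hsum : p ^ 5 + q ^ 5 = ε' * (A ^ 15) ^ 2 := by
    have h6 : p ^ 5 + q ^ 5 = (2 * a) ^ 5 := by rw [fp, fq]; ring
    rw [h6, hA]
    rcases hε' with rfl | rfl <;> ring
  have h4 : (p + q) % 4 = 0 := by
    have m1 := pow5_mod4 op
    have m2 := pow5_mod4 oq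
    have h6 : p ^ 5 + q ^ 5 = 4 * (8 * a ^ 5) := by rw [fp, fq]; ring
    omega
  have hA0 : A ≠ 0 := by
    rintro rfl
    apply ha
    have : 2 * a = 0 := by rw [hA]; ring
    linarith
  have hpos : (A ^ 15) ^ 2 ≠ 0 := by positivity
  rcases hε' with rfl | rfl
  · have h5 := K5 (Or.inl rfl) (x := p) (y := -q) (z := A ^ 15) (k := 1) (by omega)
      (by rw [sub_neg_eq_add]; exact h4) hpq.neg_right
      (by rw [show p ^ 5 - (-q) ^ 5 = p ^ 5 + q ^ 5 by ring, hsum])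
    apply hpos
    have : p ^ 5 + q ^ 5 = 0 := by rw [h5]; ring
    rw [this] at hsum
    linarith
  · have h5 := K5 (Or.inl rfl) (x := -p) (y := q) (z := A ^ 15) (k := 1) (by omega)
      (by rw [show -p - q = -(p + q) by ring]; omega) hpq.neg_left
      (by
        have h6 : (-p) ^ 5 - q ^ 5 = -(p ^ 5 + q ^ 5) := by ring
        rw [h6, hsum]; ring)
    apply hpos
    have : p ^ 5 + q ^ 5 = 0 := by rw [← h5]; ring
    rw [this] at hsum
    linarith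

/-- parity of the numerator of the fixed point -/
theorem even_of_tail {m k v : ℤ} (hv2 : ¬ (2 : ℤ) ∣ v) (h1 : m ^ 6 - k ^ 6 = 2 * (m * v ^ 5)) :
    (2 : ℤ) ∣ m := by
  by_contra hm
  have hk : ¬ (2 : ℤ) ∣ k := by
    intro hk
    apply hm
    apply Int.prime_two.dvd_of_dvd_pow (n := 6)
    have : m ^ 6 = 2 * (m * v ^ 5) + k ^ 6 := by linarith
    rw [this]
    exact dvd_add (dvd_mul_right _ _) (hk.pow (by norm_num))
  have s1 := QP.sq_odd hm
  have s2 := QP.sq_odd hk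
  have h8 : (8 : ℤ) ∣ m ^ 6 - k ^ 6 := by
    have s3 : (8 : ℤ) ∣ m ^ 2 - k ^ 2 := by omega
    have s4 : m ^ 2 - k ^ 2 ∣ (m ^ 2) ^ 3 - (k ^ 2) ^ 3 := sub_dvd_pow_sub_pow _ _ _
    rw [← pow_mul, ← pow_mul] at s4
    exact s3.trans s4
  rw [h1] at h8
  have h9 : (2 : ℤ) ∣ m * v ^ 5 := by omega
  rcases Int.prime_two.dvd_or_dvd h9 with h | h
  · exact hm h
  · exact hv2 (Int.prime_two.dvd_of_dvd_pow h)

/-- **Tails of length three at a fixed point do not exist.** -/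
theorem depth2 {m k l v : ℤ} (hm0 : m ≠ 0) (hmv : IsCoprime m v) (hv2 : ¬ (2 : ℤ) ∣ v)
    (hv3 : ¬ (3 : ℤ) ∣ v) (h1 : m ^ 6 - k ^ 6 = 2 * (m * v ^ 5))
    (h2 : l ^ 6 - m ^ 6 = v ^ 5 * (k - m)) : False := by
  obtain ⟨m1, rfl⟩ := even_of_tail hv2 h1
  have hk : (2 : ℤ) ∣ k := by
    apply Int.prime_two.dvd_of_dvd_pow (n := 6)
    have : k ^ 6 = 2 * (32 * m1 ^ 6 - 2 * m1 * v ^ 5) := by linear_combination -h1
    rw [this]
    exact dvd_mul_right _ _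
  obtain ⟨k2, rfl⟩ := hk
  have h3 : 16 * k2 ^ 6 = m1 * (16 * m1 ^ 5 - v ^ 5) := by
    have : 4 * (16 * k2 ^ 6) = 4 * (m1 * (16 * m1 ^ 5 - v ^ 5)) := by linear_combination -h1
    linarith
  have hv25 : ¬ (2 : ℤ) ∣ v ^ 5 := fun h => hv2 (Int.prime_two.dvd_of_dvd_pow h)
  have hcop16 : IsCoprime (16 : ℤ) (16 * m1 ^ 5 - v ^ 5) := by
    have h2' : IsCoprime (2 : ℤ) (16 * m1 ^ 5 - v ^ 5) :=
      Int.prime_two.coprime_iff_not_dvd.2 (by omega)
    have : (16 : ℤ) = 2 ^ 4 := by norm_num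
    rw [this]
    exact (IsCoprime.pow_left (m := 4) (by rw [← this]; exact h2'))
  obtain ⟨m2, rfl⟩ : (16 : ℤ) ∣ m1 := hcop16.dvd_of_dvd_mul_right ⟨_, h3.symm⟩
  have h4 : m2 * (16 ^ 6 * m2 ^ 5 - v ^ 5) = k2 ^ 6 := by
    have : 16 * (m2 * (16 ^ 6 * m2 ^ 5 - v ^ 5)) = 16 * k2 ^ 6 := by
      rw [h3]; ring
    linarith
  have hm20 : m2 ≠ 0 := by rintro rfl; apply hm0; ring
  have hm2v : IsCoprime m2 v := by
    have : 2 * (16 * m2) = 32 * m2 := by ring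
    rw [this] at hmv
    exact hmv.of_mul_left_right
  have hcop2 : IsCoprime m2 (16 ^ 6 * m2 ^ 5 - v ^ 5) := by
    have : 16 ^ 6 * m2 ^ 5 - v ^ 5 = -v ^ 5 + m2 * (16 ^ 6 * m2 ^ 4) := by ring
    rw [this]
    exact (IsCoprime.add_mul_left_right (hm2v.pow_right.neg_right) _)
  obtain ⟨ε, a, b, hε, hma, hnb⟩ := split_pow (by decide) (by norm_num) hm20 hcop2 h4
  have ha0 : a ≠ 0 := by rintro rfl; apply hm20; rw [hma]; ring
  have hε2 : ε * ε = 1 := by rcases hε with rfl | rfl <;> norm_num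
  have he : (16 * a ^ 5) ^ 6 - b ^ 6 = ε * v ^ 5 := by
    have h5 : ε * b ^ 6 = 16 ^ 6 * (ε * a ^ 6) ^ 5 - v ^ 5 := by rw [← hma, ← hnb]
    have h6 : (ε * a ^ 6) ^ 5 = ε * a ^ 30 := by
      rcases hε with rfl | rfl <;> ring
    rw [h6] at h5
    linear_combination (-ε) * h5 - (16 ^ 6 * a ^ 30 - b ^ 6) * hε2
  have hb2 : ¬ (2 : ℤ) ∣ b := by
    intro h5
    have h6 : (2 : ℤ) ∣ ε * b ^ 6 := (h5.pow (by norm_num)).mul_left _
    rw [← hnb] at h6
    omega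
  have hcab : IsCoprime a b := by
    rw [hnb, hma] at hcop2
    have h5 : IsCoprime (a ^ 6) (b ^ 6) := by
      rcases hε with rfl | rfl
      · rwa [one_mul, one_mul] at hcop2
      · rw [neg_one_mul, neg_one_mul] at hcop2
        exact (IsCoprime.neg_neg_iff _ _).1 hcop2
    exact (IsCoprime.pow_iff (by norm_num) (by norm_num)).1 h5
  have hcav : IsCoprime a v := by
    rw [hma] at hm2v
    have h5 : IsCoprime (a ^ 6) v := hm2v.of_mul_left_right
    exact (IsCoprime.pow_left_iff (by norm_num)).1 h5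
  -- `k2 = ± a b`
  have hk2 : k2 ^ 6 = (a * b) ^ 6 := by
    rw [← h4, hma]
    have : 16 ^ 6 * (ε * a ^ 6) ^ 5 - v ^ 5 = ε * b ^ 6 := by rw [← hma, hnb]
    rw [this, mul_pow]
    linear_combination (a ^ 6 * b ^ 6) * hε2
  obtain ⟨δ, hδ, hk2'⟩ : ∃ δ : ℤ, (δ = 1 ∨ δ = -1) ∧ k2 = δ * (a * b) := by
    have h5 : |k2| = |a * b| := by
      have h6 : |k2| ^ 6 = |a * b| ^ 6 := by
        rw [← abs_pow, ← abs_pow, hk2]
      exact (pow_left_inj₀ (abs_nonneg _) (abs_nonneg _) (by norm_num)).1 h6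
    rcases abs_eq_abs.1 h5 with h6 | h6
    · exact ⟨1, Or.inl rfl, by rw [h6]; ring⟩
    · exact ⟨-1, Or.inr rfl, by rw [h6]; ring⟩
  -- the second equation
  obtain ⟨E, hE⟩ : ∃ E : ℤ, E = 16 * ε * a ^ 5 * ((2 * (16 * m2)) ^ 5 - v ^ 5) + δ * v ^ 5 * b :=
    ⟨_, rfl⟩
  have h5 : 2 * a * E = l ^ 6 := by
    have h6 : l ^ 6 = (2 * (16 * m2)) ^ 6 + v ^ 5 * (2 * k2 - 2 * (16 * m2)) := by linarith
    rw [h6, hE, hk2']
    have h7 : (2 * (16 * m2)) ^ 6 = 32 * m2 * (2 * (16 * m2)) ^ 5 := by ring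
    have h8 : v ^ 5 * (2 * (δ * (a * b)) - 2 * (16 * m2)) =
        2 * a * (δ * v ^ 5 * b) - 32 * m2 * v ^ 5 := by ring
    rw [h7, h8]
    have h9 : 32 * m2 = 32 * (ε * a ^ 6) := by rw [hma]
    rw [h9]
    ring
  have hE2 : ¬ (2 : ℤ) ∣ E := by
    intro h6
    have h7 : (2 : ℤ) ∣ δ * v ^ 5 * b := by
      have : δ * v ^ 5 * b = E - 2 * (8 * ε * a ^ 5 * ((2 * (16 * m2)) ^ 5 - v ^ 5)) := by
        rw [hE]; ring
      rw [this]; exact dvd_sub h6 (dvd_mul_right _ _)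
    rcases Int.prime_two.dvd_or_dvd h7 with h8 | h8
    · rcases Int.prime_two.dvd_or_dvd h8 with h9 | h9
      · rcases hδ with rfl | rfl <;> norm_num at h9
      · exact hv25 h9
    · exact hb2 h8
  have hcE : IsCoprime (2 * a) E := by
    apply IsCoprime.mul_left (Int.prime_two.coprime_iff_not_dvd.2 hE2)
    apply isCoprime_of_prime_dvd (fun h0 => ha0 h0.1)
    intro p hp hpa hpE
    have h7 : p ∣ δ * v ^ 5 * b := by
      have : δ * v ^ 5 * b = E - a * (16 * ε * a ^ 4 * ((2 * (16 * m2)) ^ 5 - v ^ 5)) := by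
        rw [hE]; ring
      rw [this]; exact dvd_sub hpE (hpa.mul_right _)
    rcases hp.dvd_or_dvd h7 with h8 | h8
    · rcases hp.dvd_or_dvd h8 with h9 | h9
      · apply hp.not_isUnit
        rcases hδ with rfl | rfl
        · exact isUnit_of_dvd_one h9
        · exact isUnit_of_dvd_one ((dvd_neg).1 h9)
      · exact hp.not_isUnit (hcav.isUnit_of_dvd' hpa (hp.dvd_of_dvd_pow h9))
    · exact hp.not_isUnit (hcab.isUnit_of_dvd' hpa h8)
  obtain ⟨ε', A, B, hε', hA, -⟩ := split_pow (by decide) (by norm_num)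
    (mul_ne_zero two_ne_zero ha0) hcE h5
  exact no_sq hε hε' ha0 hcab hb2 hv3 hA he

end Pool.Agent.W2helper96.F5
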