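import Pool.Agent.W2helper96.F5.SixG

/-!
# `x ^ 6 + c`: the number of points eventually mapped to a fixed point
-/

set_option autoImplicit false

namespace Pool.Agent.W2helper96.F5

open Finset Pool.Agent.T6.H62.UB Pool.Agent.W2helper83.UC Pool.Agent.W2helper96.QP

section

variable {c : ℚ} {OQ : Finset ℚ} {l : ℚ} {A B : ℤ} {V : ℕ} {O : Finset ℤ} {φ : ℤ → ℤ}

theorem red_fifth (R : Red 6 1 c OQ l A B V O φ) : (V : ℤ) = (l.den : ℤ) ^ 5 ∧ A = l.num ^ 5 := by
  have h1 := R.ha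
  have hl : l = (l.num : ℚ) / (l.den : ℚ) := (Rat.num_div_den l).symm
  have hd : (l.den : ℚ) ≠ 0 := by exact_mod_cast l.den_pos.ne'
  have h2 : l.num ^ 5 * (V : ℤ) = A * (l.den : ℤ) ^ 5 := by
    have h3 : (l.num : ℚ) ^ 5 * V = A * (l.den : ℚ) ^ 5 := by
      have h4 : l ^ (6 - 1) = (l.num : ℚ) ^ 5 / (l.den : ℚ) ^ 5 := by
        rw [← div_pow, ← hl]
      rw [← h1, one_mul, h4]
      field_simp
    exact_mod_cast h3
  have hcop : IsCoprime l.num (l.den : ℤ) := by
    rw [Int.isCoprime_iff_gcd_eq_one]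
    exact l.reduced
  have d1 : (V : ℤ) ∣ (l.den : ℤ) ^ 5 :=
    R.sys.copA.symm.dvd_of_dvd_mul_left ⟨_, by rw [← h2, mul_comm]⟩
  have d2 : (l.den : ℤ) ^ 5 ∣ (V : ℤ) :=
    (hcop.pow (m := 5) (n := 5)).symm.dvd_of_dvd_mul_left ⟨_, by rw [h2, mul_comm]⟩
  have hV0 := R.V0
  have hl0 := l.den_pos
  have hVe : (V : ℤ) = (l.den : ℤ) ^ 5 := by
    apply Int.dvd_antisymm (by positivity) (by positivity) d1 d2
  refine ⟨hVe, ?_⟩
  rw [hVe] at h2
  have h5 : ((l.den : ℤ) ^ 5) ≠ 0 := by positivity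
  exact (mul_right_cancel₀ h5 h2).symm

theorem ev6 (R : Red 6 1 c OQ l A B V O φ) (H : Hyp6 6 V) (h2 : ¬ 2 ∣ V) (h3 : ¬ 3 ∣ V)
    (T : Finset ℤ) (hTO : T ⊆ O) (hT : ∀ x ∈ T, ∃ n : ℕ, φ^[n + 1] x = φ^[n] x) : T.card ≤ 6 := by
  classical
  have h := R.sys
  have hA := R.A0
  have hV := R.V0
  have hd0 : (6 : ℕ) ≠ 0 := by norm_num
  have hev : Even 6 := by decide
  obtain ⟨hVe, hAe⟩ := red_fifth R
  set g := l.num with hg
  set v : ℤ := (l.den : ℤ) with hv
  have hgv : IsCoprime g v := by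
    rw [Int.isCoprime_iff_gcd_eq_one]
    exact l.reduced
  have hv2 : ¬ (2 : ℤ) ∣ v := by
    intro h5
    apply h2
    have h6 : (2 : ℤ) ∣ V := by rw [hVe]; exact h5.pow (by norm_num)
    exact_mod_cast h6
  have hv3 : ¬ (3 : ℤ) ∣ v := by
    intro h5
    apply h3
    have h6 : (3 : ℤ) ∣ V := by rw [hVe]; exact h5.pow (by norm_num)
    exact_mod_cast h6
  have hg0 : g ≠ 0 := by
    intro h0
    apply hA
    rw [hAe, h0]; ring
  -- the equations for the numerators
  have k1 : ∀ α y : ℤ, α ∈ O → y ∈ O → φ α = α → φ y = -α →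
      (g * α) ^ 6 - (g * y) ^ 6 = 2 * ((g * α) * v ^ 5) := by
    intro α y hα hy e1 e2
    have h5 := eqn_sub h hα hy
    rw [e1, e2, hVe, hAe] at h5
    linear_combination (-g) * h5
  have k2 : ∀ α y z : ℤ, α ∈ O → z ∈ O → φ α = α → φ z = y →
      (g * z) ^ 6 - (g * α) ^ 6 = v ^ 5 * (g * y - g * α) := by
    intro α y z hα hz e1 e2
    have h5 := eqn_sub h hz hα
    rw [e1, e2, hVe, hAe] at h5
    linear_combination (-g) * h5
  have k3 : ∀ α ∈ O, IsCoprime (g * α) v := by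
    intro α hα
    apply IsCoprime.mul_left hgv
    have h5 := cop_V h hd0 hV hα
    rw [hVe] at h5
    exact (IsCoprime.pow_right_iff (by norm_num)).1 h5
  have hper : ∀ α, φ α = α → Per φ α := fun α e => ⟨1, one_pos, e⟩
  -- the points with one more step
  set Y := O.filter (fun y => ∃ α ∈ O, φ α = α ∧ α ≠ 0 ∧ φ y = -α) with hY
  set P := O.filter (fun x => φ x = x) with hP
  have hPc : P.card ≤ 2 := two6 H h hA hV P (filter_subset _ _)
    (fun x hx => hper x (mem_filter.1 hx).2)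
  have hsub : T ⊆ (P ∪ P.image (fun z => -z)) ∪ Y := by
    intro z hzT
    have hz := hTO hzT
    have hex := hT z hzT
    obtain ⟨N, hN, hmin⟩ : ∃ N : ℕ, φ^[N + 1] z = φ^[N] z ∧
        ∀ k < N, ¬ φ^[k + 1] z = φ^[k] z :=
      ⟨Nat.find hex, Nat.find_spec hex, fun k hk => Nat.find_min hex hk⟩
    rcases N with _ | N
    · exact mem_union_left _ (mem_union_left _ (mem_filter.2 ⟨hz, hN⟩))
    set γ := φ^[N + 1] z with hγ
    have hγO : γ ∈ O := h.iter_mem hz _
    have hγf : φ γ = γ := by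
      rw [hγ, ← Function.iterate_succ_apply' φ]; exact hN
    set x := φ^[N] z with hx
    have hxO : x ∈ O := h.iter_mem hz _
    have hφx : φ x = γ := by rw [hx, hγ, Function.iterate_succ_apply']
    have hxγ : x ≠ γ := by
      intro h0
      apply hmin N (Nat.lt_succ_self N)
      rw [← hγ, ← hx, h0]
    have hxneg : x = -γ := by
      have h5 := h.eqn x hxO
      have h6 := h.eqn γ hγO
      rw [hφx] at h5
      rw [hγf] at h6
      have h7 : A * x ^ 6 = A * γ ^ 6 := by linarith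
      have h8 := mul_left_cancel₀ hA h7
      have h9 : |x| ^ 6 = |γ| ^ 6 := by rw [← abs_pow, ← abs_pow, h8]
      have h10 := (pow_left_inj₀ (abs_nonneg _) (abs_nonneg _) (by norm_num : (6 : ℕ) ≠ 0)).1 h9
      rcases abs_eq_abs.1 h10 with h11 | h11
      · exact absurd h11 hxγ
      · exact h11
    have hγ0 : γ ≠ 0 := by
      intro h0
      apply hxγ
      rw [hxneg, h0, neg_zero]
    rcases N with _ | N
    · apply mem_union_left
      apply mem_union_right
      rw [mem_image]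
      refine ⟨γ, mem_filter.2 ⟨hγO, hγf⟩, ?_⟩
      rw [← hxneg]
      rfl
    set y := φ^[N] z with hy
    have hyO : y ∈ O := h.iter_mem hz _
    have hφy : φ y = -γ := by rw [← hxneg, hx, hy, Function.iterate_succ_apply']
    rcases N with _ | N
    · apply mem_union_right
      exact mem_filter.2 ⟨hz, γ, hγO, hγf, hγ0, hφy⟩
    exfalso
    set z' := φ^[N] z with hz'
    have hz'O : z' ∈ O := h.iter_mem hz _
    have hφz : φ z' = y := by rw [hy, hz', Function.iterate_succ_apply']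
    exact depth2 (mul_ne_zero hg0 hγ0) (k3 γ hγO) hv2 hv3 (k1 γ y hγO hyO hγf hφy)
      (k2 γ y z' hγO hz'O hγf hφz)
  have hYc : Y.card ≤ 2 := by
    rcases Y.eq_empty_or_nonempty with h0 | ⟨y, hy⟩
    · rw [h0]; simp
    have hYs : Y ⊆ {y, -y} := by
      intro y' hy'
      obtain ⟨hyO, α, hα, e1, e2, e3⟩ := mem_filter.1 hy
      obtain ⟨hyO', α', hα', e1', e2', e3'⟩ := mem_filter.1 hy'
      have q1 := even_of_tail hv2 (k1 α y hα hyO e1 e3)
      have q2 := even_of_tail hv2 (k1 α' y' hα' hyO' e1' e3')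
      have hαα : α = α' := by
        by_contra hne
        have hAu := unit_A h hA hV hα hα' (hper _ e1) (hper _ e1') hne
        have hgo : ¬ (2 : ℤ) ∣ g := by
          intro h5
          have h6 : (2 : ℤ) ∣ A := by rw [hAe]; exact h5.pow (by norm_num)
          rcases hAu with h7 | h7 <;> rw [h7] at h6 <;> norm_num at h6
        have r1 := (Int.prime_two.dvd_or_dvd q1).resolve_left hgo
        have r2 := (Int.prime_two.dvd_or_dvd q2).resolve_left hgo
        exact odd_sum h hev hA hV h2 hα hα' (hper _ e1) (hper _ e1') hne (dvd_add r1 r2)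
      subst hαα
      have h5 := h.eqn y hyO
      have h6 := h.eqn y' hyO'
      rw [e3] at h5
      rw [e3'] at h6
      have h7 : A * y' ^ 6 = A * y ^ 6 := by linarith
      have h8 := mul_left_cancel₀ hA h7
      have h9 : |y'| ^ 6 = |y| ^ 6 := by rw [← abs_pow, ← abs_pow, h8]
      have h10 := (pow_left_inj₀ (abs_nonneg _) (abs_nonneg _) (by norm_num : (6 : ℕ) ≠ 0)).1 h9
      rw [mem_insert, mem_singleton]
      exact abs_eq_abs.1 h10
    exact (card_le_card hYs).trans card_le_two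
  have h5 := card_le_card hsub
  have h6 := card_union_le (P ∪ P.image (fun z => -z)) Y
  have h7 := card_sym P
  omega

end

/-- the points eventually mapped to a fixed point -/
def evFixed (f : ℚ → ℚ) : Set ℚ := {x | ∃ n : ℕ, f^[n + 1] x = f^[n] x}

theorem evFixed_pre (f : ℚ → ℚ) : evFixed f ⊆ preperiodicPts f := by
  rintro x ⟨n, hn⟩
  exact ⟨n, n + 1, Nat.lt_succ_self n, hn.symm⟩

theorem den_pow_iff {c : ℚ} {p n : ℕ} (hp : p.Prime) (hn : n ≠ 0) :
    p ∣ ((1 : ℚ) * c ^ n).den ↔ p ∣ c.den := by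
  rw [one_mul, Rat.den_pow]
  exact ⟨fun h => hp.dvd_of_dvd_pow h, fun h => h.trans (dvd_pow_self _ hn)⟩

/-- the hypothesis for `x ^ d + c` -/
theorem all6_mono {d : ℕ} (h60 : d % 60 = 6) (h9 : ¬ 9 ∣ d) {c : ℚ}
    (hE : ∀ p : ℕ, p.Prime → 5 ≤ p → p ∣ d → ¬ p ∣ c.den) : All6 d 1 c :=
  all6_of_fifth h60 h9 one_ne_zero (by norm_num) (fun p hp h5 hpd h =>
    hE p hp h5 hpd ((den_pow_iff hp (by omega)).1 h))

theorem all6_six (c : ℚ) : All6 6 1 c := by
  apply all6_mono (by norm_num) (by norm_num)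
  intro p hp h5 h6
  exfalso
  have h7 : p ∣ 2 * 3 := h6
  rcases hp.dvd_mul.1 h7 with h8 | h8
  · have := Nat.le_of_dvd (by norm_num) h8
    omega
  · have := Nat.le_of_dvd (by norm_num) h8
    omega

/-- **At most six points are eventually mapped to a fixed point by `x ^ 6 + c`.** -/
theorem c_ev (c : ℚ) (T : Finset ℚ) (hT : ∀ x ∈ T, x ∈ evFixed (cen 6 1 c)) : T.card ≤ 6 := by
  have hTp : ∀ x ∈ T, x ∈ preperiodicPts (cen 6 1 c) := fun x hx => evFixed_pre _ (hT x hx)
  by_cases h23 : 2 ∣ ((1 : ℚ) * c ^ (6 - 1)).den ∨ 3 ∣ ((1 : ℚ) * c ^ (6 - 1)).den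
  · have := c_pre (by norm_num) one_ne_zero (all6_six c) h23 (N := 2)
      (c_two (by norm_num) one_ne_zero (all6_six c)) T hTp
    omega
  push Not at h23
  rcases setup (d := 6) (by norm_num) one_ne_zero T hTp with h |
    ⟨OQ, l, A, B, V, O, φ, R, hTO, -⟩
  · have := card_le_one_of_zero h
    omega
  · obtain ⟨TZ, hTZ, hcard, hm⟩ := R.lift hTO
    refine hcard.trans (ev6 R (all6_six c _ _ _ _ _ _ _ R)
      (fun h => h23.1 ((den_iff (by norm_num) R Nat.prime_two).1 h))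
      (fun h => h23.2 ((den_iff (by norm_num) R Nat.prime_three).1 h)) TZ hTZ ?_)
    intro n hn
    obtain ⟨k, hk⟩ := hT _ (hm n hn)
    exact ⟨k, (R.iter_eq (hTZ hn) (hTZ hn)).2 hk⟩

end Pool.Agent.W2helper96.F5
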