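import Pool.Agent.W2helper96.F5.SixH

/-!
# Degrees congruent to six modulo twelve: no tails at all

If `W` is prime to six and a fifth power up to sign then `x ^ 6 - y ^ 6 = W`, `gcd (x, y) = 1`, has
only trivial solutions: `x ^ 2 - y ^ 2 = p ^ 5`, `x ^ 4 + x ^ 2 y ^ 2 + y ^ 4 = q ^ 5` and
`q ^ 5 - (p ^ 2) ^ 5 = 3 (x y) ^ 2`.
-/

set_option autoImplicit false

namespace Pool.Agent.W2helper96.F5

open Finset Pool.Agent.T6.H62.UB Pool.Agent.W2helper83.UC Pool.Agent.W2helper96.QP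

/-- **`x ^ 6 - y ^ 6` is not a fifth power prime to six.** -/
theorem strong6 {x y : ℤ} (hc : IsCoprime x y) (h2 : ¬ (2 : ℤ) ∣ x ^ 6 - y ^ 6)
    (h3 : ¬ (3 : ℤ) ∣ x ^ 6 - y ^ 6) (h5 : V5 (x ^ 6 - y ^ 6)) : x = 0 ∨ y = 0 := by
  have hne : x ^ 6 ≠ y ^ 6 := by
    intro h0
    apply h2
    rw [h0, sub_self]
    exact dvd_zero _
  obtain ⟨v1, v2, v3, v4⟩ := V5_fac hc hne h5
  have fac : x ^ 6 - y ^ 6 = ((x + y) * (x - y)) *
      ((x ^ 2 - x * y + y ^ 2) * (x ^ 2 + x * y + y ^ 2)) := by ring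
  obtain ⟨S, hS⟩ : ∃ S, S = (x + y) * (x - y) := ⟨_, rfl⟩
  obtain ⟨T, hT⟩ : ∃ T, T = (x ^ 2 - x * y + y ^ 2) * (x ^ 2 + x * y + y ^ 2) := ⟨_, rfl⟩
  rw [← hS, ← hT] at fac
  have hST : S * T ≠ 0 := by rw [← fac]; exact sub_ne_zero.2 hne
  have hS0 : S ≠ 0 := left_ne_zero_of_mul hST
  have hT0 : T ≠ 0 := right_ne_zero_of_mul hST
  have S2 : ¬ (2 : ℤ) ∣ S := fun h => h2 (by rw [fac]; exact h.mul_right _)
  have T2 : ¬ (2 : ℤ) ∣ T := fun h => h2 (by rw [fac]; exact h.mul_left _)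
  have S3 : ¬ (3 : ℤ) ∣ S := fun h => h3 (by rw [fac]; exact h.mul_right _)
  have T3 : ¬ (3 : ℤ) ∣ T := fun h => h3 (by rw [fac]; exact h.mul_left _)
  have vS : V5 S := by
    rw [hS]
    exact V5_mul (fun h => hS0 (by rw [hS, h, zero_mul])) (fun h => hS0 (by rw [hS, h, mul_zero]))
      v1 v2
  have vT : V5 T := by
    rw [hT]
    exact V5_mul (fun h => hT0 (by rw [hT, h, zero_mul])) (fun h => hT0 (by rw [hT, h, mul_zero]))
      v3 v4
  obtain ⟨p, hp⟩ := form hS0 0 0 ⟨0, by rw [val_two_odd (by omega)]⟩ ⟨0, by rw [val_three_not S3]⟩ vS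
  obtain ⟨q, hq⟩ := form hT0 0 0 ⟨0, by rw [val_two_odd (by omega)]⟩ ⟨0, by rw [val_three_not T3]⟩ vT
  have fp : p ^ 5 = S := by rw [hp]; ring
  have fq : q ^ 5 = T := by rw [hq]; ring
  have key : q ^ 5 - (p ^ 2) ^ 5 = 3 * (x * y) ^ 2 := by
    have e : (p ^ 2) ^ 5 = (p ^ 5) ^ 2 := by ring
    rw [e, fp, fq, hS, hT]
    ring
  have po : ¬ (2 : ℤ) ∣ p := by
    intro h
    apply S2
    rw [← fp]
    exact h.pow (by norm_num)
  have qo : ¬ (2 : ℤ) ∣ q := by
    intro h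
    apply T2
    rw [← fq]
    exact h.pow (by norm_num)
  have hxy : (2 : ℤ) ∣ x * y := by
    by_contra hcon
    apply S2
    have h6 : ¬ (2 : ℤ) ∣ x := fun h => hcon (h.mul_right _)
    have h7 : ¬ (2 : ℤ) ∣ y := fun h => hcon (h.mul_left _)
    rw [hS]
    exact Dvd.dvd.mul_right (by omega) _
  have hq4 : q ^ 5 % 4 = 1 := by
    have h6 := sq_mod_four S2
    obtain ⟨k, hk⟩ := hxy
    have h7 : q ^ 5 = S ^ 2 + 4 * (3 * k ^ 2) := by
      have e : (p ^ 2) ^ 5 = (p ^ 5) ^ 2 := by ring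
      rw [e, fp, hk] at key
      linear_combination key
    omega
  have hq1 := mod_four_of_fifth hq4
  have hp1 := sq_mod_four po
  have hcop : IsCoprime q (p ^ 2) := by
    apply IsCoprime.pow_right
    apply isCoprime_of_prime_dvd
    · rintro ⟨h7, -⟩
      exact qo (by rw [h7]; exact dvd_zero _)
    intro r hr hrq hrp
    have h6 : r ∣ T := by rw [← fq]; exact hrq.pow (by norm_num)
    have h7 : r ∣ S := by rw [← fp]; exact hrp.pow (by norm_num)
    have h8 : r ∣ 3 * (x * y) ^ 2 := by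
      rw [← key]
      exact dvd_sub (hrq.pow (by norm_num)) ((hrp.pow (by norm_num)).pow (by norm_num))
    rcases hr.dvd_or_dvd h8 with h9 | h9
    · exact S3 ((hr.associated_of_dvd Int.prime_three h9).dvd'.trans h7)
    · rcases hr.dvd_or_dvd (hr.dvd_of_dvd_pow h9) with h10 | h10
      · have h11 : r ∣ y ^ 2 := by
          have : y ^ 2 = x * x - S := by rw [hS]; ring
          rw [this]; exact dvd_sub (h10.mul_right _) h7
        exact hr.not_isUnit (hc.isUnit_of_dvd' h10 (hr.dvd_of_dvd_pow h11))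
      · have h11 : r ∣ x ^ 2 := by
          have : x ^ 2 = S + y * y := by rw [hS]; ring
          rw [this]; exact dvd_add h7 (h10.mul_right _)
        exact hr.not_isUnit (hc.isUnit_of_dvd' (hr.dvd_of_dvd_pow h11) h10)
  have h6 := K5 (Or.inr (Or.inr rfl)) qo (by omega) hcop key
  rw [h6, sub_self] at key
  have h7 : (x * y) ^ 2 = 0 := by linarith
  exact mul_eq_zero.1 ((pow_eq_zero_iff (by norm_num)).1 h7)

section

variable {d : ℕ} {A B : ℤ} {V : ℕ} {O : Finset ℤ} {φ : ℤ → ℤ}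

theorem six_prime (H : Hyp6 d V) {x y W : ℤ} (hc : IsCoprime x y) (hW2 : ¬ (2 : ℤ) ∣ W)
    (hW3 : ¬ (3 : ℤ) ∣ W) (hV5 : V5 W) (he : x ^ d - y ^ d = W) : x = 0 ∨ y = 0 := by
  obtain ⟨e, rfl, he0⟩ := H.form
  have e1 : ∀ z : ℤ, z ^ (6 * e) = (z ^ e) ^ 6 := fun z => by rw [← pow_mul, mul_comm]
  rw [e1, e1] at he
  have hcp : IsCoprime (x ^ e) (y ^ e) := hc.pow
  rcases strong6 hcp (by rw [he]; exact hW2) (by rw [he]; exact hW3) (by rw [he]; exact hV5) with
    h | h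
  · exact Or.inl ((pow_eq_zero_iff he0).1 h)
  · exact Or.inr ((pow_eq_zero_iff he0).1 h)

theorem even_diff (H : Hyp6 d V) {x y : ℤ} (hc : IsCoprime x y) (h2 : (2 : ℤ) ∣ x ^ d - y ^ d) :
    (8 : ℤ) ∣ x ^ d - y ^ d := by
  obtain ⟨e, he1, he0⟩ := H.form
  have px := pow_par (x := x) H.d0
  have py := pow_par (x := y) H.d0
  have hodd : x % 2 = 1 ∧ y % 2 = 1 := by
    by_contra hcon
    have h4 : (2 : ℤ) ∣ x ∧ (2 : ℤ) ∣ y := by omega
    exact Int.prime_two.not_isUnit (hc.isUnit_of_dvd' h4.1 h4.2)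
  have s1 := QP.sq_odd (x := x) (by omega)
  have s2 := QP.sq_odd (x := y) (by omega)
  have s3 : (8 : ℤ) ∣ x ^ 2 - y ^ 2 := by omega
  have s4 : x ^ 2 - y ^ 2 ∣ (x ^ 2) ^ (3 * e) - (y ^ 2) ^ (3 * e) :=
    sub_dvd_pow_sub_pow _ _ _
  rw [← pow_mul, ← pow_mul, show 2 * (3 * e) = d by rw [he1]; ring] at s4
  exact s3.trans s4

/-- the equations for the tails have only trivial solutions, for all `V` -/
theorem core6' (H : Hyp6 d V) (hV : 0 < V) : Core d V := by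
  by_cases h23 : 2 ∣ V ∨ 3 ∣ V
  · exact core6 H hV h23
  push Not at h23
  have hV2 : ¬ (2 : ℤ) ∣ V := by exact_mod_cast h23.1
  have hV3 : ¬ (3 : ℤ) ∣ V := by exact_mod_cast h23.2
  have hV5 := H6_V5 H
  intro x y W hW hc he
  rcases hW with h1 | h1 | h1 | h1
  · exact six_prime H hc (by rw [h1]; exact hV2) (by rw [h1]; exact hV3)
      (by rw [h1]; exact hV5) he
  · exact six_prime H hc (by rw [h1, dvd_neg]; exact hV2) (by rw [h1, dvd_neg]; exact hV3)
      (by rw [h1]; exact V5_neg hV5) he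
  all_goals
    exfalso
    have := even_diff H hc (by rw [he, h1]; omega)
    rw [he, h1] at this
    omega

/-- **No preimages of the negatives of the periodic points**, for all `V`. -/
theorem tail6' (H : Hyp6 d V) (h : Sys d A B V O φ) (hA : A ≠ 0) (hV : 0 < V) :
    TailP A B V O φ := by
  by_cases h23 : 2 ∣ V ∨ 3 ∣ V
  · exact tail6 H h hA hV h23
  push Not at h23
  have hV2 : ¬ (2 : ℤ) ∣ V := by exact_mod_cast h23.1
  have hV3 : ¬ (3 : ℤ) ∣ V := by exact_mod_cast h23.2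
  intro α y hα pα hnα hy hφy
  have hde := H.ev
  have hd0 := H.d0
  have hd6 : 6 ≤ d := by have := H.d12; omega
  have hd4 : 4 ≤ d := by omega
  have hVz : (V : ℤ) ≠ 0 := by exact_mod_cast hV.ne'
  have hα0 : α ≠ 0 := by
    rintro rfl
    exact hnα (by simpa using pα)
  by_cases hfix : φ α = α
  · exact tail_at_fixed hde hd4 h hA hV (core6' H hV) hα hα0 hfix hy hφy
  exfalso
  have hβO : φ α ∈ O := h.maps α hα
  have pβ : Per φ (φ α) := pα.iter 1
  have hcyc := main6 H h hA hV hα pα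
  set β := φ α with hβ
  have hne : α ≠ β := fun h1 => hfix h1.symm
  have hn := per_NM pα pβ hne
  have hAu := unit_A h hA hV hα hβO pα pβ hne
  have hE : A * (α ^ d - y ^ d) = V * (α + β) := by
    have h1 := eqn_sub h hα hy
    rw [← hβ, hφy] at h1
    linear_combination -h1
  have hgood : ∀ q : ℕ, q.Prime → ¬ q ∣ V → ¬ (q : ℤ) ∣ α + β := by
    intro q hq hqV h1
    exact (good h hA hV hα hβO pα pβ hne hq hqV).2 (h1.trans (add_dvd_psi hde hne))
  have hs0 : α + β ≠ 0 := by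
    intro h0
    apply hnα
    have : -α = β := by linarith
    rw [this]; exact pβ
  have hcop : IsCoprime α y := by
    apply cop_of_nat (fun h0 => hα0 h0.1)
    intro p hp h1 h2
    have hpV : ¬ p ∣ V := fun h3 => h.not_dvd hd0 hp h3 hα h1
    have h3 : (p : ℤ) ∣ V * (α + β) := by
      rw [← hE]
      exact Dvd.dvd.mul_left (dvd_sub (dvd_pow h1 hd0) (dvd_pow h2 hd0)) A
    rcases (Nat.prime_iff_prime_int.1 hp).dvd_or_dvd h3 with h4 | h4
    · exact hpV (Int.natCast_dvd_natCast.1 h4)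
    · exact hgood p hp hpV h4
  have hW : α ^ d - y ^ d = V * (α + β) ∨ α ^ d - y ^ d = -(V * (α + β)) := by
    rcases hAu with h1 | h1
    · left; rw [← hE, h1]; ring
    · right; rw [← hE, h1]; ring
  obtain ⟨v1, -, -⟩ := pair_V5 H h hA hV hα hβO pα pβ hne
  have g2 : ¬ (2 : ℤ) ∣ α + β := hgood 2 Nat.prime_two h23.1
  have g3 : ¬ (3 : ℤ) ∣ α + β := hgood 3 Nat.prime_three h23.2
  have hW2 : ¬ (2 : ℤ) ∣ V * (α + β) := fun h1 =>
    (Int.prime_two.dvd_or_dvd h1).elim hV2 g2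
  have hW3 : ¬ (3 : ℤ) ∣ V * (α + β) := fun h1 =>
    (Int.prime_three.dvd_or_dvd h1).elim hV3 g3
  have hW5 : V5 (V * (α + β)) := V5_mul hVz hs0 (H6_V5 H) v1
  have hzero : α = 0 ∨ y = 0 := by
    rcases hW with h1 | h1
    · exact six_prime H hcop hW2 hW3 hW5 h1
    · exact six_prime H hcop (by rw [dvd_neg]; exact hW2) (by rw [dvd_neg]; exact hW3)
        (V5_neg hW5) h1
  have hy0 := hzero.resolve_left hα0
  rw [hy0] at hcop
  have hαu : α = 1 ∨ α = -1 := Int.isUnit_iff.1 (isCoprime_zero_right.1 hcop)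
  have hαd : α ^ d = 1 := by
    rcases hαu with h1 | h1
    · rw [h1, one_pow]
    · rw [h1, hde.neg_one_pow]
  have hVs : V * (α + β) = 1 ∨ V * (α + β) = -1 := by
    rw [hy0, zero_pow hd0, sub_zero, hαd] at hW
    rcases hW with h1 | h1
    · exact Or.inl h1.symm
    · right; linarith
  have hsu : α + β = 1 ∨ α + β = -1 := by
    apply Int.isUnit_iff.1
    apply isUnit_of_mul_isUnit_right (x := (V : ℤ))
    exact Int.isUnit_iff.2 hVs
  have hβ0 : β ≠ 0 := by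
    intro h0
    -- `φ 0 = α` and `φ 0 = - α`
    have h1 : φ β = -α := by rw [h0, ← hy0]; exact hφy
    rw [hcyc] at h1
    exact hα0 (by linarith)
  have hβ2 : β = -(2 * α) := by
    rcases hαu with h1 | h1 <;> rcases hsu with h3 | h3 <;> rw [h1] at h3 ⊢ <;> omega
  have h3 := (good h hA hV hα hβO pα pβ hne Nat.prime_three h23.2).2
  apply h3
  have h4 := psi6 H.six hne
  refine Dvd.dvd.trans ?_ h4
  rw [hβ2]
  refine ⟨(α + -(2 * α)) * α ^ 2 * (α ^ 2 - α * -(2 * α) + (-(2 * α)) ^ 2), ?_⟩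
  push_cast
  ring

end

section

variable {d : ℕ} {a c : ℚ}

/-- **The preperiodic points.** -/
theorem c_shape6 (h12 : d % 12 = 6) (ha : a ≠ 0) (hH : All6 d a c) : Shape d a c :=
  shape_of (even_iff_two_dvd.2 (by omega)) (by omega) ha
    (fun _ _ _ _ _ _ _ R => tail6' (hH _ _ _ _ _ _ _ R) R.sys R.A0 R.V0)

theorem c_pre6 (h12 : d % 12 = 6) (ha : a ≠ 0) (hH : All6 d a c) (T : Finset ℚ)
    (hT : ∀ x ∈ T, x ∈ preperiodicPts (cen d a c)) : T.card ≤ 4 := by
  rcases setup (d := d) (by omega) ha T hT with h | ⟨OQ, l, A, B, V, O, φ, R, hTO, hpre⟩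
  · have := card_le_one_of_zero h
    omega
  · obtain ⟨TZ, hTZ, hcard, -⟩ := R.lift hTO
    have hH' := hH _ _ _ _ _ _ _ R
    obtain ⟨P, hPO, hPp, -, h1⟩ := pre_subset hH'.ev hH'.d0 R.sys R.A0 R.V0
      (tail6' hH' R.sys R.A0 R.V0) hpre
    have h2 := two6 hH' R.sys R.A0 R.V0 P hPO hPp
    have h3 := card_sym P
    have h4 := card_le_card hTZ
    rcases h1 with h1 | ⟨-, h5, h1⟩
    · have := card_le_card h1
      omega
    · have := (card_le_card h1).trans (card_insert_le _ _)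
      omega

end

end Pool.Agent.W2helper96.F5
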