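import Pool.Agent.W2helper96.F5.TwC

/-!
# Degrees divisible by six

If `d` is divisible by six and `V` is a fifth power then two different periodic points are impossible
unless one of them is zero.
-/

set_option autoImplicit false

namespace Pool.Agent.W2helper96.F5

open Finset Pool.Agent.T6.H62.UB Pool.Agent.W2helper83.UC Pool.Agent.W2helper96.QP

/-- the conditions on the degree and on the denominator -/
structure HypG (d V : ℕ) : Prop where
  six : 6 ∣ d
  d0 : d ≠ 0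
  cond : ∀ p : ℕ, p.Prime → p % 3 = 1 → p ∣ V → Cond d V p

/-- primes congruent to two modulo three -/
theorem not_dvd_phi {p : ℕ} (hp : p.Prime) (h3 : p % 3 = 2) {u w : ℤ} (hc : IsCoprime u w) :
    ¬ (p : ℤ) ∣ u ^ 2 + u * w + w ^ 2 := by
  intro h
  have := Fact.mk hp
  have hpi := Nat.prime_iff_prime_int.1 hp
  have h0 : ((u : ZMod p)) ^ 2 + u * w + (w : ZMod p) ^ 2 = 0 := by
    have := (ZMod.intCast_zmod_eq_zero_iff_dvd (u ^ 2 + u * w + w ^ 2) p).2 h
    push_cast at this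
    exact this
  have hboth : ∀ {x y : ℤ}, IsCoprime x y → (x : ZMod p) = 0 → (y : ZMod p) ≠ 0 := by
    intro x y hxy h1 h2
    exact hpi.not_isUnit (hxy.isUnit_of_dvd'
      ((ZMod.intCast_zmod_eq_zero_iff_dvd x p).1 h1) ((ZMod.intCast_zmod_eq_zero_iff_dvd y p).1 h2))
  by_cases hu : (u : ZMod p) = 0
  · have hw := hboth hc hu
    rw [hu] at h0
    apply hw
    apply (pow_eq_zero_iff (n := 2) (by norm_num)).1
    linear_combination h0
  by_cases hw : (w : ZMod p) = 0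
  · rw [hw] at h0
    apply hu
    apply (pow_eq_zero_iff (n := 2) (by norm_num)).1
    linear_combination h0
  have hcube : (u : ZMod p) ^ 3 = (w : ZMod p) ^ 3 := by
    linear_combination ((u : ZMod p) - w) * h0
  obtain ⟨k, hk⟩ : ∃ k, p - 1 = 3 * k + 1 := ⟨(p - 2) / 3, by omega⟩
  have fu := ZMod.pow_card_sub_one_eq_one hu
  have fw := ZMod.pow_card_sub_one_eq_one hw
  rw [hk, pow_succ, pow_mul] at fu fw
  rw [hcube] at fu
  have h4 : ((w : ZMod p) ^ 3) ^ k ≠ 0 := pow_ne_zero _ (pow_ne_zero _ hw)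
  have huw : (u : ZMod p) = w := mul_left_cancel₀ h4 (fu.trans fw.symm)
  rw [huw] at h0
  have h5 : (3 : ZMod p) * (w : ZMod p) ^ 2 = 0 := by linear_combination h0
  rcases mul_eq_zero.1 h5 with h6 | h6
  · have h7 : ((3 : ℕ) : ZMod p) = 0 := by push_cast; exact h6
    have h8 := (ZMod.natCast_eq_zero_iff 3 p).1 h7
    have h9 := (Nat.prime_dvd_prime_iff_eq hp Nat.prime_three).1 h8
    omega
  · exact hw ((pow_eq_zero_iff (by norm_num)).1 h6)

theorem not_dvd_phi' {p : ℕ} (hp : p.Prime) (h3 : p % 3 = 2) {u w : ℤ} (hc : IsCoprime u w) :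
    ¬ (p : ℤ) ∣ u ^ 2 - u * w + w ^ 2 := by
  have := not_dvd_phi hp h3 hc.neg_right
  rwa [show u ^ 2 + u * -w + (-w) ^ 2 = u ^ 2 - u * w + w ^ 2 by ring] at this

/-- it suffices to look at the primes congruent to one modulo three -/
theorem V5_of {u w : ℤ} (hc : IsCoprime u w)
    (h : ∀ p : ℕ, p.Prime → p % 3 = 1 → 5 ∣ padicValInt p (u ^ 2 + u * w + w ^ 2) ∧
      5 ∣ padicValInt p (u ^ 2 - u * w + w ^ 2)) :
    V5 (u ^ 2 + u * w + w ^ 2) ∧ V5 (u ^ 2 - u * w + w ^ 2) := by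
  have key : ∀ p : ℕ, p.Prime → p ≠ 3 → 5 ∣ padicValInt p (u ^ 2 + u * w + w ^ 2) ∧
      5 ∣ padicValInt p (u ^ 2 - u * w + w ^ 2) := by
    intro p hp hp3
    have h3 : p % 3 = 1 ∨ p % 3 = 2 := by
      have : ¬ 3 ∣ p := fun h4 => hp3 ((Nat.prime_dvd_prime_iff_eq Nat.prime_three hp).1 h4).symm
      omega
    rcases h3 with h3 | h3
    · exact h p hp h3
    · rw [padicValInt.eq_zero_of_not_dvd (not_dvd_phi hp h3 hc),
        padicValInt.eq_zero_of_not_dvd (not_dvd_phi' hp h3 hc)]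
      exact ⟨dvd_zero _, dvd_zero _⟩
  exact ⟨fun p h1 _ h3 => (key p h1 h3).1, fun p h1 _ h3 => (key p h1 h3).2⟩

section

variable {d : ℕ} {A B : ℤ} {V : ℕ} {O : Finset ℤ} {φ : ℤ → ℤ}

theorem HypG.ev (H : HypG d V) : Even d := even_iff_two_dvd.2 (Dvd.dvd.trans ⟨3, rfl⟩ H.six)

theorem HypG.ge (H : HypG d V) : 6 ≤ d := Nat.le_of_dvd (Nat.pos_of_ne_zero H.d0) H.six

/-- the valuations at the primes `p ≥ 5` -/
theorem pairG (H : HypG d V) (h : Sys d A B V O φ) (hA : A ≠ 0) (hV : 0 < V)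
    {u w : ℤ} (hu : u ∈ O) (hw : w ∈ O) (pu : Per φ u) (pw : Per φ w) (hne : u ≠ w) :
    V5 (u ^ 2 + u * w + w ^ 2) ∧ V5 (u ^ 2 - u * w + w ^ 2) := by
  have hn := per_NM pu pw hne
  have hpow := NM.pow_ne h hV hu hw hn
  have hdv := psi6 H.six hne
  apply V5_of (cop_per h hA hV (by have := H.ge; omega) hu hw pu pw hne)
  intro p hp hp1
  have hp2 : p ≠ 2 := by rintro rfl; norm_num at hp1
  have hp3 : p ≠ 3 := by rintro rfl; norm_num at hp1
  by_cases hpV : p ∣ V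
  · have hC := H.cond p hp hp1 hpV
    have h5 := val_pow_sub_dvd h hA H.d0 hV hp hp2 hpV hC hu hw hn
    have hd5 : 5 ∣ padicValNat p d := by
      by_cases hpd : p ∣ d
      · exact (hC.2 hpd).1
      · rw [padicValNat.eq_zero_of_not_dvd hpd]; exact dvd_zero _
    have hx := h.not_dvd H.d0 hp hpV hu
    refine ⟨?_, QP.val_phiR hp hp2 hp3 hx H.d0 H.six hpow h5 hd5⟩
    have := QP.val_phiR (y := -w) hp hp2 hp3 hx H.d0 H.six (by rwa [H.ev.neg_pow])
      (by rwa [H.ev.neg_pow]) hd5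
    rwa [show u ^ 2 - u * -w + (-w) ^ 2 = u ^ 2 + u * w + w ^ 2 by ring] at this
  · have hg := (good h hA hV hu hw pu pw hne hp hpV).2
    have h2 : ¬ (p : ℤ) ∣ u ^ 2 + u * w + w ^ 2 := fun h1 => hg ((h1.trans ⟨(u + w) *
      (u ^ 2 - u * w + w ^ 2), by ring⟩).trans hdv)
    have h3 : ¬ (p : ℤ) ∣ u ^ 2 - u * w + w ^ 2 := fun h1 => hg ((h1.trans ⟨(u + w) *
      (u ^ 2 + u * w + w ^ 2), by ring⟩).trans hdv)
    rw [padicValInt.eq_zero_of_not_dvd h2, padicValInt.eq_zero_of_not_dvd h3]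
    exact ⟨dvd_zero _, dvd_zero _⟩

/-- the valuations of the factors of `x ^ 6 - y ^ 6` -/
theorem fac_p {x y : ℤ} (hc : IsCoprime x y) (hne : x ^ 6 ≠ y ^ 6) {p : ℕ} (hp : p.Prime)
    (hp2 : p ≠ 2) (hp3 : p ≠ 3) (h0 : 5 ∣ padicValInt p (x ^ 6 - y ^ 6)) :
    5 ∣ padicValInt p (x ^ 2 + x * y + y ^ 2) ∧ 5 ∣ padicValInt p (x ^ 2 - x * y + y ^ 2) := by
  have := Fact.mk hp
  have hpi := Nat.prime_iff_prime_int.1 hp
  have hev : Even 6 := by decide
  have h6 : 5 ∣ padicValNat p 6 := by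
    rw [padicValNat.eq_zero_of_not_dvd]
    · exact dvd_zero _
    · intro h6
      have h7 : p ∣ 2 * 3 := h6
      rcases hp.dvd_mul.1 h7 with h8 | h8
      · exact hp2 ((Nat.prime_dvd_prime_iff_eq hp Nat.prime_two).1 h8)
      · exact hp3 ((Nat.prime_dvd_prime_iff_eq hp Nat.prime_three).1 h8)
  by_cases hx : (p : ℤ) ∣ x
  · have hy : ¬ (p : ℤ) ∣ y := fun h7 => hpi.not_isUnit (hc.isUnit_of_dvd' hx h7)
    have g3 : ¬ (p : ℤ) ∣ x ^ 2 - x * y + y ^ 2 := by
      intro h7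
      apply hy
      apply hpi.dvd_of_dvd_pow (n := 2)
      have : y ^ 2 = (x ^ 2 - x * y + y ^ 2) - x * (x - y) := by ring
      rw [this]; exact dvd_sub h7 (hx.mul_right _)
    have g4 : ¬ (p : ℤ) ∣ x ^ 2 + x * y + y ^ 2 := by
      intro h7
      apply hy
      apply hpi.dvd_of_dvd_pow (n := 2)
      have : y ^ 2 = (x ^ 2 + x * y + y ^ 2) - x * (x + y) := by ring
      rw [this]; exact dvd_sub h7 (hx.mul_right _)
    rw [padicValInt.eq_zero_of_not_dvd g3, padicValInt.eq_zero_of_not_dvd g4]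
    exact ⟨dvd_zero _, dvd_zero _⟩
  · have a2 := val_phiR (r := 5) hp hp2 hp3 hx (n := 6) (by norm_num) (dvd_refl 6) hne h0 h6
    have e6 : (-y) ^ 6 = y ^ 6 := hev.neg_pow y
    have a4 := val_phiR (r := 5) hp hp2 hp3 (y := -y) hx (n := 6) (by norm_num) (dvd_refl 6)
      (by rw [e6]; exact hne) (by rw [e6]; exact h0) h6
    rw [show x ^ 2 - x * -y + (-y) ^ 2 = x ^ 2 + x * y + y ^ 2 by ring] at a4
    exact ⟨a4, a2⟩

/-- **Two different periodic points: one of them is zero.** -/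
theorem zeroG (H : HypG d V) (h : Sys d A B V O φ) (hA : A ≠ 0) (hV : 0 < V)
    {u w : ℤ} (hu : u ∈ O) (hw : w ∈ O) (pu : Per φ u) (pw : Per φ w) (hne : u ≠ w) :
    u = 0 ∨ w = 0 := by
  obtain ⟨v2, v3⟩ := pairG H h hA hV hu hw pu pw hne
  have hne' : u ≠ -w := by
    intro h0
    exact hne (per_inj pu pw (k := 1) (phi_eq h hV hu hw (by rw [h0, H.ev.neg_pow])))
  exact arith (cop_per h hA hV (by have := H.ge; omega) hu hw pu pw hne) hne hne' v2 v3

theorem unitG (H : HypG d V) (h : Sys d A B V O φ) (hA : A ≠ 0) (hV : 0 < V)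
    {z : ℤ} (h0 : (0 : ℤ) ∈ O) (hz : z ∈ O) (p0 : Per φ 0) (pz : Per φ z) (hz0 : z ≠ 0) :
    z = 1 ∨ z = -1 := by
  have hV1 := V_one h H.d0 hV h0
  have h1 : z.natAbs = 1 := by
    by_contra hcon
    obtain ⟨p, hp, hpz⟩ := Nat.exists_prime_and_dvd hcon
    have hpz' : (p : ℤ) ∣ z := Int.natCast_dvd.2 hpz
    have hpV : ¬ p ∣ V := by
      rw [hV1]
      exact hp.one_lt.ne' ∘ Nat.dvd_one.1
    apply (good h hA hV hz h0 pz p0 hz0 hp hpV).2
    have h2 := add_dvd_psi H.ev hz0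
    rw [add_zero] at h2
    exact hpz'.trans h2
  omega

/-- two different periodic points -/
theorem structG (H : HypG d V) (h : Sys d A B V O φ) (hA : A ≠ 0) (hV : 0 < V)
    {u w : ℤ} (hu : u ∈ O) (hw : w ∈ O) (pu : Per φ u) (pw : Per φ w) (hne : u ≠ w) :
    V = 1 ∧ (0 : ℤ) ∈ O ∧ Per φ 0 ∧ φ 0 = B ∧ (B = 0 ∨ (A = -B ∧ (B = 1 ∨ B = -1))) := by
  have key : ∀ {z : ℤ}, z ∈ O → (0 : ℤ) ∈ O → Per φ z → Per φ 0 → z ≠ 0 →
      V = 1 ∧ (0 : ℤ) ∈ O ∧ Per φ 0 ∧ φ 0 = B ∧ (B = 0 ∨ (A = -B ∧ (B = 1 ∨ B = -1))) := by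
    intro z hz h0 pz p0 hz0
    have hV1 := V_one h H.d0 hV h0
    have e0 : φ 0 = B := by
      have := h.eqn 0 h0
      rw [hV1, zero_pow H.d0] at this
      push_cast at this
      linarith
    refine ⟨hV1, h0, p0, e0, ?_⟩
    by_cases hB : B = 0
    · exact Or.inl hB
    right
    have hBO : B ∈ O := by rw [← e0]; exact h.maps 0 h0
    have pB : Per φ B := by rw [← e0]; exact p0.iter 1
    have hBu := unitG H h hA hV h0 hBO p0 pB hB
    refine ⟨?_, hBu⟩
    have hBd : B ^ d = 1 := by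
      rcases hBu with h1 | h1
      · rw [h1, one_pow]
      · rw [h1, H.ev.neg_one_pow]
    have e1 : φ B = A + B := by
      have := h.eqn B hBO
      rw [hV1, hBd] at this
      push_cast at this
      linarith
    have hAu := unit_A h hA hV hz h0 pz p0 hz0
    have hAB : A = B ∨ A = -B := by
      rcases hAu with h1 | h1 <;> rcases hBu with h2 | h2 <;> rw [h1, h2] <;> norm_num
    rcases hAB with h1 | h1
    · exfalso
      have p2 : Per φ (φ B) := pB.iter 1
      have h2O := h.maps B hBO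
      have := unitG H h hA hV h0 h2O p0 p2 (by rw [e1]; omega)
      rw [e1] at this
      omega
    · exact h1
  rcases zeroG H h hA hV hu hw pu pw hne with h1 | h1
  · subst h1
    exact key hw hu pw pu (Ne.symm hne)
  · subst h1
    exact key hu hw pu pw hne

theorem coreG (H : HypG d V) (hV : 0 < V) : Core d V := by
  obtain ⟨e, he⟩ := H.six
  have he0 : e ≠ 0 := by
    rintro rfl
    exact H.d0 (by rw [he, mul_zero])
  intro x y W hW hc hxy
  have e1 : ∀ z : ℤ, z ^ d = (z ^ e) ^ 6 := fun z => by rw [← pow_mul, he, mul_comm]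
  rw [e1, e1] at hxy
  have hW0 := W_ne hV hW
  have hVz : (V : ℤ) ≠ 0 := by exact_mod_cast hV.ne'
  obtain ⟨X, hX⟩ : ∃ X, X = x ^ e := ⟨_, rfl⟩
  obtain ⟨Y, hY⟩ : ∃ Y, Y = y ^ e := ⟨_, rfl⟩
  have hcXY : IsCoprime X Y := by rw [hX, hY]; exact hc.pow
  rw [← hX, ← hY] at hxy
  have hne : X ^ 6 ≠ Y ^ 6 := fun h0 => hW0 (by rw [← hxy, h0, sub_self])
  obtain ⟨v1, v2⟩ := V5_of hcXY (by
    intro p hp hp1
    have hp2 : p ≠ 2 := by rintro rfl; norm_num at hp1
    have hp3 : p ≠ 3 := by rintro rfl; norm_num at hp1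
    have := Fact.mk hp
    apply fac_p hcXY hne hp hp2 hp3
    have hpV : 5 ∣ padicValNat p V := by
      by_cases hpV : p ∣ V
      · exact (H.cond p hp hp1 hpV).1
      · rw [padicValNat.eq_zero_of_not_dvd hpV]; exact dvd_zero _
    have v2 : padicValInt p 2 = 0 := by
      apply padicValInt.eq_zero_of_not_dvd
      intro h5
      exact hp2 ((Nat.prime_dvd_prime_iff_eq hp Nat.prime_two).1 (by exact_mod_cast h5))
    rw [hxy]
    rcases hW with rfl | rfl | rfl | rfl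
    · rw [padicValInt.of_nat]; exact hpV
    · rw [val_neg, padicValInt.of_nat]; exact hpV
    · rw [padicValInt.mul two_ne_zero hVz, v2, padicValInt.of_nat, zero_add]; exact hpV
    · rw [val_neg, padicValInt.mul two_ne_zero hVz, v2, padicValInt.of_nat, zero_add]; exact hpV)
  have h := arith hcXY (fun h0 => hne (by rw [h0]))
    (fun h0 => hne (by rw [h0]; ring)) v1 v2
  rw [hX, hY] at h
  rcases h with h | h
  · exact Or.inl ((pow_eq_zero_iff he0).1 h)
  · exact Or.inr ((pow_eq_zero_iff he0).1 h)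

/-- **No preimages of the negatives of the periodic points.** -/
theorem tailG (H : HypG d V) (h : Sys d A B V O φ) (hA : A ≠ 0) (hV : 0 < V) :
    TailP A B V O φ := by
  intro α y hα pα hnα hy hφy
  have hd0 := H.d0
  have hα0 : α ≠ 0 := by
    rintro rfl
    exact hnα (by simpa using pα)
  by_cases hfix : φ α = α
  · exact tail_at_fixed H.ev (by have := H.ge; omega) h hA hV (coreG H hV) hα hα0 hfix hy hφy
  exfalso
  have hβO : φ α ∈ O := h.maps α hα
  have pβ : Per φ (φ α) := pα.iter 1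
  have hne : α ≠ φ α := fun h1 => hfix h1.symm
  obtain ⟨hV1, h0, p0, e0, hB⟩ := structG H h hA hV hα hβO pα pβ hne
  have hz := (zeroG H h hA hV hα hβO pα pβ hne).resolve_left hα0
  rcases hB with hB | ⟨hAB, hBu⟩
  · exact hα0 (per_inj pα p0 (k := 1) (show φ α = φ 0 by rw [hz, e0, hB]))
  · have hBO : B ∈ O := by rw [← e0]; exact h.maps 0 h0
    have pB : Per φ B := by rw [← e0]; exact p0.iter 1
    have hBd : B ^ d = 1 := by
      rcases hBu with h1 | h1
      · rw [h1, one_pow]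
      · rw [h1, H.ev.neg_one_pow]
    have e1 : φ B = 0 := by
      have := h.eqn B hBO
      rw [hV1, hBd, hAB] at this
      push_cast at this
      linarith
    have hαB : α = B := per_inj pα pB (k := 1) (show φ α = φ B by rw [hz, e1])
    have e2 := h.eqn y hy
    rw [hφy, hαB, hV1, hAB] at e2
    push_cast at e2
    have e3 : y ^ d = 2 := by
      rcases hBu with h1 | h1 <;> rw [h1] at e2 <;> linarith
    have h2 : (2 : ℤ) ∣ y := Int.prime_two.dvd_of_dvd_pow (n := d) (by rw [e3])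
    have h4 : (2 : ℤ) ^ 2 ∣ y ^ d :=
      (pow_dvd_pow_of_dvd h2 2).trans (pow_dvd_pow y (by have := H.ge; omega))
    rw [e3] at h4
    norm_num at h4

/-- the periodic points -/
theorem twoG (H : HypG d V) (h : Sys d A B V O φ) (hA : A ≠ 0) (hV : 0 < V)
    (P : Finset ℤ) (hP : P ⊆ O) (hPp : ∀ x ∈ P, Per φ x) : P.card ≤ 2 := by
  by_contra hcon
  obtain ⟨a, b, c, ha, hb, hc, hab, hac, hbc⟩ := two_lt_card_iff.1 (not_le.1 hcon)
  have h1 := zeroG H h hA hV (hP ha) (hP hb) (hPp a ha) (hPp b hb) hab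
  have h2 := zeroG H h hA hV (hP ha) (hP hc) (hPp a ha) (hPp c hc) hac
  have h3 := zeroG H h hA hV (hP hb) (hP hc) (hPp b hb) (hPp c hc) hbc
  omega

theorem cycG (H : HypG d V) (h : Sys d A B V O φ) (hA : A ≠ 0) (hV : 0 < V)
    {α : ℤ} (hα : α ∈ O) (pα : Per φ α) : φ (φ α) = α := by
  by_cases hfix : φ α = α
  · rw [hfix, hfix]
  have hβO : φ α ∈ O := h.maps α hα
  have pβ : Per φ (φ α) := pα.iter 1
  have hne : α ≠ φ α := fun h1 => hfix h1.symm
  obtain ⟨hV1, h0, p0, e0, hB⟩ := structG H h hA hV hα hβO pα pβ hne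
  rcases hB with hB | ⟨hAB, hBu⟩
  · exfalso
    rcases zeroG H h hA hV hα hβO pα pβ hne with h1 | h1
    · exact hfix (by rw [h1, e0, hB])
    · have : α = 0 := per_inj pα p0 (k := 1) (show φ α = φ 0 by rw [h1, e0, hB])
      exact hfix (by rw [h1, this])
  · have hBO : B ∈ O := by rw [← e0]; exact h.maps 0 h0
    have pB : Per φ B := by rw [← e0]; exact p0.iter 1
    have hBd : B ^ d = 1 := by
      rcases hBu with h1 | h1
      · rw [h1, one_pow]
      · rw [h1, H.ev.neg_one_pow]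
    have e1 : φ B = 0 := by
      have := h.eqn B hBO
      rw [hV1, hBd, hAB] at this
      push_cast at this
      linarith
    rcases zeroG H h hA hV hα hβO pα pβ hne with h1 | h1
    · rw [h1, e0, e1]
    · have hαB : α = B := per_inj pα pB (k := 1) (show φ α = φ B by rw [h1, e1])
      rw [h1, e0, hαB]

/-- the set of the preperiodic points -/
theorem threeG (H : HypG d V) (h : Sys d A B V O φ) (hA : A ≠ 0) (hV : 0 < V)
    (hpre : ∀ z ∈ O, ∃ m n : ℕ, m < n ∧ φ^[m] z = φ^[n] z) : O.card ≤ 3 := by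
  classical
  obtain ⟨P, hPO, hPp, -, h1⟩ := pre_subset H.ev H.d0 h hA hV (tailG H h hA hV) hpre
  rcases h1 with h1 | ⟨-, h5, h1⟩
  · by_cases h2 : P.card ≤ 1
    · have := (card_le_card h1).trans (card_sym P)
      omega
    · have h3 := twoG H h hA hV P hPO hPp
      obtain ⟨a, b, hab, hP⟩ := card_eq_two.1 (le_antisymm h3 (by omega))
      have ha : a ∈ P := by rw [hP]; simp
      have hb : b ∈ P := by rw [hP]; simp
      have hz := zeroG H h hA hV (hPO ha) (hPO hb) (hPp a ha) (hPp b hb) hab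
      have h4 : O ⊆ {0, a + b, -(a + b)} := by
        intro x hx
        have hx1 := h1 hx
        rw [hP, mem_union, mem_image] at hx1
        simp only [mem_insert, mem_singleton] at hx1 ⊢
        rcases hz with hz | hz
        · rw [hz] at hx1 ⊢
          rcases hx1 with (hx1 | hx1) | ⟨y, hy | hy, hx1⟩
          · exact Or.inl hx1
          · right; left; rw [hx1, zero_add]
          · left; rw [← hx1, hy, neg_zero]
          · right; right; rw [← hx1, hy, zero_add]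
        · rw [hz] at hx1 ⊢
          rcases hx1 with (hx1 | hx1) | ⟨y, hy | hy, hx1⟩
          · right; left; rw [hx1, add_zero]
          · exact Or.inl hx1
          · right; right; rw [← hx1, hy, add_zero]
          · left; rw [← hx1, hy, neg_zero]
      exact (card_le_card h4).trans card_le_three
  · have h6 := (card_le_card h1).trans (card_insert_le _ _)
    have := card_sym P
    omega

end

section

variable {d : ℕ} {a c : ℚ}

/-- all reductions satisfy the hypothesis -/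
def AllG (d : ℕ) (a c : ℚ) : Prop :=
  ∀ (OQ : Finset ℚ) (l : ℚ) (A B : ℤ) (V : ℕ) (O : Finset ℤ) (φ : ℤ → ℤ),
    Red d a c OQ l A B V O φ → HypG d V

/-- the hypothesis in terms of the denominator of `t` -/
theorem allG_of (h6 : 6 ∣ d) (hd0 : d ≠ 0) (h5 : ¬ 5 ∣ d)
    (hE : ∀ p : ℕ, p.Prime → p % 3 = 1 → p ∣ (a * c ^ (d - 1)).den →
      ¬ p ∣ d ∧ 5 ∣ padicValNat p (a * c ^ (d - 1)).den) : AllG d a c := by
  intro OQ l A B V O φ R
  refine ⟨h6, hd0, fun p hp hp1 hpV => ?_⟩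
  obtain ⟨h1, h2⟩ := hE p hp hp1 ((den_iff hd0 R hp).1 hpV)
  refine ⟨?_, fun hpd => absurd hpd h1⟩
  rw [R.val_t hd0 hp] at h2
  exact (Nat.prime_five.dvd_mul.1 h2).resolve_left h5

theorem AllG.two (hH : AllG d a c) (hd2 : 2 ≤ d) (ha : a ≠ 0) (T : Finset ℚ)
    (hT : ∀ x ∈ T, x ∈ periodicPts (cen d a c)) : T.card ≤ 2 := by
  rcases setup hd2 ha T (fun x hx => per_sub_pre _ (hT x hx)) with h |
    ⟨OQ, l, A, B, V, O, φ, R, hTO, -⟩
  · have := card_le_one_of_zero h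
    omega
  · obtain ⟨TZ, hTZ, hcard, hper⟩ := R.lift_per hTO hT
    exact hcard.trans (twoG (hH _ _ _ _ _ _ _ R) R.sys R.A0 R.V0 TZ hTZ hper)

/-- two periodic points in a reduction -/
theorem AllG.t_of_two (hH : AllG d a c) {OQ : Finset ℚ} {l : ℚ} {A B : ℤ} {V : ℕ} {O : Finset ℤ}
    {φ : ℤ → ℤ} (R : Red d a c OQ l A B V O φ) {P : Finset ℤ} (hPO : P ⊆ O)
    (hPp : ∀ x ∈ P, Per φ x) (hP : ¬ P.card ≤ 1) :
    a * c ^ (d - 1) = 0 ∨ a * c ^ (d - 1) = -1 := by
  have H := hH _ _ _ _ _ _ _ R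
  obtain ⟨x, y, hx, hy, hxy⟩ := one_lt_card_iff.1 (not_le.1 hP)
  obtain ⟨hV1, -, -, -, hB⟩ := structG H R.sys R.A0 R.V0 (hPO hx) (hPO hy) (hPp x hx) (hPp y hy) hxy
  rw [R.t_of_one H.d0 hV1]
  rcases hB with hB | ⟨hAB, hBu⟩
  · left
    rw [hB, zero_pow (by have := H.ge; omega), mul_zero, Int.cast_zero]
  · right
    have hBd : B ^ d = 1 := by
      rcases hBu with h1 | h1
      · rw [h1, one_pow]
      · rw [h1, H.ev.neg_one_pow]
    have h1 : A * B ^ (d - 1) = -1 := by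
      rw [hAB]
      have : -B * B ^ (d - 1) = -(B ^ (d - 1) * B) := by ring
      rw [this, pow_sub_one_mul H.d0, hBd]
    rw [h1]
    norm_num

theorem AllG.one (hH : AllG d a c) (hd2 : 2 ≤ d) (ha : a ≠ 0)
    (h0 : a * c ^ (d - 1) ≠ 0) (h1 : a * c ^ (d - 1) ≠ -1) (T : Finset ℚ)
    (hT : ∀ x ∈ T, x ∈ periodicPts (cen d a c)) : T.card ≤ 1 := by
  rcases setup hd2 ha T (fun x hx => per_sub_pre _ (hT x hx)) with h |
    ⟨OQ, l, A, B, V, O, φ, R, hTO, -⟩
  · exact card_le_one_of_zero h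
  · obtain ⟨TZ, hTZ, hcard, hper⟩ := R.lift_per hTO hT
    refine hcard.trans ?_
    by_contra hcon
    rcases hH.t_of_two R hTZ hper hcon with h2 | h2
    · exact h0 h2
    · exact h1 h2

theorem AllG.cyc (hH : AllG d a c) (hd2 : 2 ≤ d) (ha : a ≠ 0) {x : ℚ}
    (hx : x ∈ periodicPts (cen d a c)) : cen d a c (cen d a c x) = x := by
  have hd0 : d ≠ 0 := by omega
  rcases setup hd2 ha {x} (fun y hy => by
    rw [mem_singleton] at hy
    rw [hy]
    exact per_sub_pre _ hx) with h | ⟨OQ, l, A, B, V, O, φ, R, hTO, -⟩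
  · obtain ⟨h1, h2⟩ := h x (by simp)
    unfold cen
    rw [h1, h2, zero_pow hd0, mul_zero, zero_add, zero_pow hd0, mul_zero, zero_add]
  · obtain ⟨n, hn, hnx⟩ := R.surj x (hTO (by simp))
    have pn : Per φ n := (R.per_iff hn).2 (by rw [hnx]; exact hx)
    have h1 := cycG (hH _ _ _ _ _ _ _ R) R.sys R.A0 R.V0 hn pn
    have h2 := R.iter hn 2
    have h3 : φ^[2] n = n := h1
    rw [h3, hnx] at h2
    exact h2.symm

theorem AllG.shape (hH : AllG d a c) (hde : Even d) (hd2 : 2 ≤ d) (ha : a ≠ 0) : Shape d a c :=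
  shape_of hde hd2 ha (fun _ _ _ _ _ _ _ R => tailG (hH _ _ _ _ _ _ _ R) R.sys R.A0 R.V0)

theorem AllG.three (hH : AllG d a c) (hd2 : 2 ≤ d) (ha : a ≠ 0) (T : Finset ℚ)
    (hT : ∀ x ∈ T, x ∈ preperiodicPts (cen d a c)) : T.card ≤ 3 := by
  rcases setup hd2 ha T hT with h | ⟨OQ, l, A, B, V, O, φ, R, hTO, hpre⟩
  · have := card_le_one_of_zero h
    omega
  · obtain ⟨TZ, hTZ, hcard, -⟩ := R.lift hTO
    exact (hcard.trans (card_le_card hTZ)).trans
      (threeG (hH _ _ _ _ _ _ _ R) R.sys R.A0 R.V0 hpre)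

theorem AllG.preTwo (hH : AllG d a c) (hd2 : 2 ≤ d) (ha : a ≠ 0)
    (h0 : a * c ^ (d - 1) ≠ 0) (h1 : a * c ^ (d - 1) ≠ -1) (h2 : a * c ^ (d - 1) ≠ -2)
    (T : Finset ℚ) (hT : ∀ x ∈ T, x ∈ preperiodicPts (cen d a c)) : T.card ≤ 2 := by
  rcases setup hd2 ha T hT with h | ⟨OQ, l, A, B, V, O, φ, R, hTO, hpre⟩
  · have := card_le_one_of_zero h
    omega
  · obtain ⟨TZ, hTZ, hcard, -⟩ := R.lift hTO
    have H := hH _ _ _ _ _ _ _ R
    obtain ⟨P, hPO, hPp, -, h3⟩ := pre_subset H.ev H.d0 R.sys R.A0 R.V0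
      (tailG H R.sys R.A0 R.V0) hpre
    have hP1 : P.card ≤ 1 := by
      by_contra hcon
      rcases hH.t_of_two R hPO hPp hcon with h4 | h4
      · exact h0 h4
      · exact h1 h4
    have h5 := card_sym P
    have h6 := card_le_card hTZ
    rcases h3 with h3 | ⟨h3, -, -⟩
    · have := card_le_card h3
      omega
    · exfalso
      obtain ⟨h7, h8⟩ := cheb_t H.ev H.d0 h3
      apply h2
      rw [R.t_of_one H.d0 h7, h8]
      norm_num

end

end Pool.Agent.W2helper96.F5
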