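import Pool.Agent.W2helper96.QP.Dio5

/-!
# The descent for `z ^ 2 = m ^ 4 - 150 m ^ 2 S ^ 2 + 1125 S ^ 4`
-/

set_option autoImplicit false

namespace Pool.Agent.W2helper96.F5

open Pool.Agent.W2helper96.QP

theorem three_prime : Prime (3 : ℤ) := Int.prime_three

theorem tw_pos {M N Y : ℤ} (hc : IsCoprime M N) (hM : 0 < M) (hN : 0 < N)
    (h : M * N = 1125 * Y ^ 4) (h5 : (5 : ℤ) ∣ M) :
    (∃ x y : ℤ, M = 1125 * y ^ 4 ∧ N = x ^ 4 ∧ (x * y) ^ 2 = Y ^ 2) ∨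
      ∃ x y : ℤ, M = 125 * y ^ 4 ∧ N = 9 * x ^ 4 ∧ (x * y) ^ 2 = Y ^ 2 := by
  have hN5 : IsCoprime (125 : ℤ) N := by
    have h1 : IsCoprime 5 N := hc.of_isCoprime_of_dvd_left h5
    have h2 : (125 : ℤ) = 5 ^ 3 := by norm_num
    rw [h2]
    exact h1.pow_left
  have h3 : (3 : ℤ) ∣ M * N := ⟨375 * Y ^ 4, by rw [h]; ring⟩
  rcases three_prime.dvd_or_dvd h3 with h4 | h4
  · left
    have hN3 : IsCoprime (9 : ℤ) N := by
      have h1 : IsCoprime 3 N := hc.of_isCoprime_of_dvd_left h4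
      have h2 : (9 : ℤ) = 3 ^ 2 := by norm_num
      rw [h2]
      exact h1.pow_left
    have hN6 : IsCoprime (1125 : ℤ) N := by
      have h2 : (1125 : ℤ) = 9 * 125 := by norm_num
      rw [h2]
      exact hN3.mul_left hN5
    obtain ⟨m, rfl⟩ : (1125 : ℤ) ∣ M := hN6.dvd_of_dvd_mul_right ⟨Y ^ 4, h⟩
    have hm : 0 < m := by omega
    have hmN : m * N = Y ^ 4 := by
      apply mul_left_cancel₀ (show (1125 : ℤ) ≠ 0 by norm_num)
      rw [← h]; ring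
    have hcm : IsCoprime m N := hc.of_isCoprime_of_dvd_left (dvd_mul_left _ _)
    obtain ⟨y, hy⟩ := pow_split hcm hmN hm (by decide)
    obtain ⟨x, hx⟩ := pow_split hcm.symm (by rw [mul_comm]; exact hmN) hN (by decide)
    refine ⟨x, y, by rw [hy], hx, ?_⟩
    apply sq_of_pow4
    rw [← hmN, hy, hx]; ring
  · right
    have hM3 : IsCoprime (9 : ℤ) M := by
      have h1 : IsCoprime 3 M := (hc.of_isCoprime_of_dvd_right h4).symm
      have h2 : (9 : ℤ) = 3 ^ 2 := by norm_num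
      rw [h2]
      exact h1.pow_left
    obtain ⟨m, rfl⟩ : (125 : ℤ) ∣ M := hN5.dvd_of_dvd_mul_right ⟨9 * Y ^ 4, by rw [h]; ring⟩
    obtain ⟨n, rfl⟩ : (9 : ℤ) ∣ N := hM3.dvd_of_dvd_mul_left ⟨125 * Y ^ 4, by rw [h]; ring⟩
    have hm : 0 < m := by omega
    have hn : 0 < n := by omega
    have hmn : m * n = Y ^ 4 := by
      apply mul_left_cancel₀ (show (1125 : ℤ) ≠ 0 by norm_num)
      rw [← h]; ring
    have hcm : IsCoprime m n :=
      (hc.of_isCoprime_of_dvd_left (dvd_mul_left _ _)).of_isCoprime_of_dvd_right (dvd_mul_left _ _)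
    obtain ⟨y, hy⟩ := pow_split hcm hmn hm (by decide)
    obtain ⟨x, hx⟩ := pow_split hcm.symm (by rw [mul_comm]; exact hmn) hn (by decide)
    refine ⟨x, y, by rw [hy], by rw [hx], ?_⟩
    apply sq_of_pow4
    rw [← hmn, hy, hx]; ring

theorem tw_split {M N Y : ℤ} (hc : IsCoprime M N) (hY : Y ≠ 0) (h : M * N = 1125 * Y ^ 4) :
    ∃ x y : ℤ, IsCoprime x y ∧ (x * y) ^ 2 = Y ^ 2 ∧ ¬ (5 : ℤ) ∣ x ∧
      ((¬ (3 : ℤ) ∣ x ∧ (M + N = x ^ 4 + 1125 * y ^ 4 ∨ M + N = -(x ^ 4 + 1125 * y ^ 4))) ∨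
        (¬ (3 : ℤ) ∣ y ∧ (M + N = 9 * x ^ 4 + 125 * y ^ 4 ∨ M + N = -(9 * x ^ 4 + 125 * y ^ 4)))) := by
  have fin1 : ∀ x y : ℤ, IsCoprime (x ^ 4) (1125 * y ^ 4) →
      IsCoprime x y ∧ ¬ (5 : ℤ) ∣ x ∧ ¬ (3 : ℤ) ∣ x := by
    intro x y hxy
    have h1 : IsCoprime x (1125 * y ^ 4) := (IsCoprime.pow_left_iff (by norm_num)).1 hxy
    refine ⟨h1.of_isCoprime_of_dvd_right ((dvd_pow_self _ (by norm_num)).mul_left _), ?_, ?_⟩
    · intro h5
      exact five_prime.not_isUnit (h1.isUnit_of_dvd' h5 (⟨225 * y ^ 4, by ring⟩))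
    · intro h5
      exact three_prime.not_isUnit (h1.isUnit_of_dvd' h5 (⟨375 * y ^ 4, by ring⟩))
  have fin2 : ∀ x y : ℤ, IsCoprime (9 * x ^ 4) (125 * y ^ 4) →
      IsCoprime x y ∧ ¬ (5 : ℤ) ∣ x ∧ ¬ (3 : ℤ) ∣ y := by
    intro x y hxy
    refine ⟨(hxy.of_isCoprime_of_dvd_right ((dvd_pow_self _ (by norm_num)).mul_left _)
      ).of_isCoprime_of_dvd_left ((dvd_pow_self _ (by norm_num)).mul_left _), ?_, ?_⟩
    · intro h5
      exact five_prime.not_isUnit (hxy.isUnit_of_dvd' ((h5.pow (by norm_num)).mul_left _)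
        (⟨25 * y ^ 4, by ring⟩))
    · intro h5
      exact three_prime.not_isUnit (hxy.isUnit_of_dvd' (⟨3 * x ^ 4, by ring⟩)
        ((h5.pow (by norm_num)).mul_left _))
  have pos : ∀ {M N : ℤ}, IsCoprime M N → 0 < M → 0 < N → M * N = 1125 * Y ^ 4 →
      ∃ x y : ℤ, IsCoprime x y ∧ (x * y) ^ 2 = Y ^ 2 ∧ ¬ (5 : ℤ) ∣ x ∧
      ((¬ (3 : ℤ) ∣ x ∧ M + N = x ^ 4 + 1125 * y ^ 4) ∨
        (¬ (3 : ℤ) ∣ y ∧ M + N = 9 * x ^ 4 + 125 * y ^ 4)) := by
    intro M N hc hM hN h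
    have h5 : (5 : ℤ) ∣ M * N := ⟨225 * Y ^ 4, by rw [h]; ring⟩
    rcases five_prime.dvd_or_dvd h5 with h4 | h4
    · rcases tw_pos hc hM hN h h4 with ⟨x, y, h1, h2, h3⟩ | ⟨x, y, h1, h2, h3⟩
      · rw [h1, h2] at hc
        obtain ⟨g1, g2, g3⟩ := fin1 x y hc.symm
        exact ⟨x, y, g1, h3, g2, Or.inl ⟨g3, by rw [h1, h2]; ring⟩⟩
      · rw [h1, h2] at hc
        obtain ⟨g1, g2, g3⟩ := fin2 x y hc.symm
        exact ⟨x, y, g1, h3, g2, Or.inr ⟨g3, by rw [h1, h2]; ring⟩⟩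
    · rcases tw_pos hc.symm hN hM (by rw [mul_comm]; exact h) h4 with
        ⟨x, y, h1, h2, h3⟩ | ⟨x, y, h1, h2, h3⟩
      · rw [h1, h2] at hc
        obtain ⟨g1, g2, g3⟩ := fin1 x y hc
        exact ⟨x, y, g1, h3, g2, Or.inl ⟨g3, by rw [h1, h2]⟩⟩
      · rw [h1, h2] at hc
        obtain ⟨g1, g2, g3⟩ := fin2 x y hc
        exact ⟨x, y, g1, h3, g2, Or.inr ⟨g3, by rw [h1, h2]⟩⟩
  have hpos : 0 < M * N := by
    rw [h]
    have : 0 < Y ^ 4 := by positivity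
    positivity
  rcases mul_pos_iff.1 hpos with ⟨hp1, hp2⟩ | ⟨hp1, hp2⟩
  · obtain ⟨x, y, g1, g2, g3, g4⟩ := pos hc hp1 hp2 h
    exact ⟨x, y, g1, g2, g3, g4.imp (fun g => ⟨g.1, Or.inl g.2⟩) (fun g => ⟨g.1, Or.inl g.2⟩)⟩
  · obtain ⟨x, y, g1, g2, g3, g4⟩ := pos hc.neg_neg (by linarith) (by linarith)
      (by rw [neg_mul_neg]; exact h)
    refine ⟨x, y, g1, g2, g3, g4.imp (fun g => ⟨g.1, Or.inr ?_⟩) (fun g => ⟨g.1, Or.inr ?_⟩)⟩
    · linarith [g.2]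
    · linarith [g.2]

/-- coprimality of the two factors -/
theorem tw_cop {P Q X Y S : ℤ} (hXY : IsCoprime X Y) (h5 : ¬ (5 : ℤ) ∣ X) (h3 : ¬ (3 : ℤ) ∣ X)
    (hsum : P + Q = S) (hS : ∀ z : ℤ, Prime z → z ∣ S → z ∣ 15 * Y → z ∣ X)
    (hY : Y ≠ 0) (h : P * Q = 1125 * Y ^ 4) : IsCoprime P Q := by
  apply isCoprime_of_prime_dvd
  · rintro ⟨h1, -⟩
    rw [h1, zero_mul] at h
    have : Y ^ 4 ≠ 0 := pow_ne_zero _ hY
    omega
  intro z hz hzP hzQ
  have hzS : z ∣ S := by rw [← hsum]; exact dvd_add hzP hzQ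
  have h1 : z ∣ 3 * (3 * (5 * (5 * (5 * Y ^ 4)))) := by
    have : 3 * (3 * (5 * (5 * (5 * Y ^ 4)))) = P * Q := by rw [h]; ring
    rw [this]; exact hzP.mul_right _
  have key : z ∣ 3 ∨ z ∣ 5 ∨ z ∣ Y := by
    rcases hz.dvd_or_dvd h1 with h2 | h2
    · exact Or.inl h2
    rcases hz.dvd_or_dvd h2 with h2 | h2
    · exact Or.inl h2
    rcases hz.dvd_or_dvd h2 with h2 | h2
    · exact Or.inr (Or.inl h2)
    rcases hz.dvd_or_dvd h2 with h2 | h2
    · exact Or.inr (Or.inl h2)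
    rcases hz.dvd_or_dvd h2 with h2 | h2
    · exact Or.inr (Or.inl h2)
    · exact Or.inr (Or.inr (hz.dvd_of_dvd_pow h2))
  rcases key with h2 | h2 | h2
  · have h4 : z ∣ X := hS z hz hzS (by
      have : 15 * Y = 3 * (5 * Y) := by ring
      rw [this]; exact h2.mul_right _)
    exact h3 (((hz.associated_of_dvd three_prime h2).dvd').trans h4)
  · have h4 : z ∣ X := hS z hz hzS (by
      have : 15 * Y = 5 * (3 * Y) := by ring
      rw [this]; exact h2.mul_right _)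
    exact h5 (((hz.associated_of_dvd five_prime h2).dvd').trans h4)
  · exact hz.not_isUnit (hXY.isUnit_of_dvd' (hS z hz hzS (h2.mul_left _)) h2)

theorem sq3 {x : ℤ} (h : ¬ (3 : ℤ) ∣ x) : x ^ 2 % 3 = 1 := by
  have h1 : x % 3 = 1 ∨ x % 3 = 2 := by omega
  rcases h1 with h1 | h1
  · obtain ⟨i, hi⟩ : ∃ i, x = 3 * i + 1 := ⟨x / 3, by omega⟩
    have : x ^ 2 = 3 * (3 * i ^ 2 + 2 * i) + 1 := by rw [hi]; ring
    omega
  · obtain ⟨i, hi⟩ : ∃ i, x = 3 * i + 2 := ⟨x / 3, by omega⟩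
    have : x ^ 2 = 3 * (3 * i ^ 2 + 4 * i + 1) + 1 := by rw [hi]; ring
    omega

theorem sq3' (x : ℤ) : x ^ 2 % 3 = 0 ∨ x ^ 2 % 3 = 1 := by
  by_cases h : (3 : ℤ) ∣ x
  · left
    obtain ⟨i, hi⟩ := h
    have : x ^ 2 = 3 * (3 * i ^ 2) := by rw [hi]; ring
    omega
  · exact Or.inr (sq3 h)

theorem pow4_3 {x : ℤ} (h : ¬ (3 : ℤ) ∣ x) : x ^ 4 % 3 = 1 := by
  have h1 := sq3 h
  obtain ⟨i, hi⟩ : ∃ i, x ^ 2 = 3 * i + 1 := ⟨x ^ 2 / 3, by omega⟩
  have : x ^ 4 = 3 * (3 * i ^ 2 + 2 * i) + 1 := by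
    have : x ^ 4 = (x ^ 2) ^ 2 := by ring
    rw [this, hi]; ring
  omega

theorem pow4_16 {x : ℤ} (h : ¬ (2 : ℤ) ∣ x) : x ^ 4 % 16 = 1 := by
  have h1 := sq_odd h
  obtain ⟨i, hi⟩ : ∃ i, x ^ 2 = 8 * i + 1 := ⟨x ^ 2 / 8, by omega⟩
  have : x ^ 4 = 16 * (4 * i ^ 2 + i) + 1 := by
    have : x ^ 4 = (x ^ 2) ^ 2 := by ring
    rw [this, hi]; ring
  omega

theorem tw_three {m S z : ℤ} (hc : IsCoprime m S)
    (he : z ^ 2 = m ^ 4 - 150 * m ^ 2 * S ^ 2 + 1125 * S ^ 4) : ¬ (3 : ℤ) ∣ m := by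
  intro h
  have hS : ¬ (3 : ℤ) ∣ S := fun h1 => three_prime.not_isUnit (hc.isUnit_of_dvd' h h1)
  obtain ⟨k, rfl⟩ := h
  have hz : (3 : ℤ) ∣ z := by
    apply three_prime.dvd_of_dvd_pow (n := 2)
    rw [he]
    exact ⟨27 * k ^ 4 - 450 * k ^ 2 * S ^ 2 + 375 * S ^ 4, by ring⟩
  obtain ⟨w, rfl⟩ := hz
  have h1 : w ^ 2 = 3 * (3 * k ^ 4 - 50 * k ^ 2 * S ^ 2 + 41 * S ^ 4) + 2 * S ^ 4 := by
    have : 9 * w ^ 2 = 9 * (3 * (3 * k ^ 4 - 50 * k ^ 2 * S ^ 2 + 41 * S ^ 4) + 2 * S ^ 4) := by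
      linear_combination he
    linarith
  have h2 := pow4_3 hS
  have h3 := sq3' w
  omega

/-- the second step, `y` odd: `m ^ 2 = x ^ 4 + 75 x ^ 2 y ^ 2 + 1125 y ^ 4` leads to
`(2 x) ^ 2 = u ^ 4 - 150 u ^ 2 v ^ 2 + 1125 v ^ 4` with `u`, `v` odd -/
theorem tw_second {m x y : ℤ} (hxy : IsCoprime x y) (h5 : ¬ (5 : ℤ) ∣ x) (h3 : ¬ (3 : ℤ) ∣ x)
    (hy : ¬ (2 : ℤ) ∣ y) (he : m ^ 2 = x ^ 4 + 75 * (x * y) ^ 2 + 1125 * y ^ 4) :
    ∃ u v : ℤ, IsCoprime u v ∧ ¬ (5 : ℤ) ∣ u ∧ ¬ (2 : ℤ) ∣ u ∧ ¬ (2 : ℤ) ∣ v ∧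
      (2 * x) ^ 2 = u ^ 4 - 150 * u ^ 2 * v ^ 2 + 1125 * v ^ 4 := by
  have hy0 : y ≠ 0 := by rintro rfl; exact hy (dvd_zero _)
  have h1 : (2 * x ^ 2 + 75 * y ^ 2 - 2 * m) * (2 * x ^ 2 + 75 * y ^ 2 + 2 * m) =
      1125 * y ^ 4 := by linear_combination -4 * he
  have hcop : IsCoprime (2 * x ^ 2 + 75 * y ^ 2 - 2 * m) (2 * x ^ 2 + 75 * y ^ 2 + 2 * m) := by
    apply tw_cop (S := 4 * x ^ 2 + 150 * y ^ 2) hxy h5 h3 (by ring) ?_ hy0 h1
    intro z hz hzS hzY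
    have h2 : z ∣ 4 * x ^ 2 := by
      have : 4 * x ^ 2 = (4 * x ^ 2 + 150 * y ^ 2) - 15 * y * (10 * y) := by ring
      rw [this]; exact dvd_sub hzS (hzY.mul_right _)
    rcases hz.dvd_or_dvd h2 with h4 | h4
    · exfalso
      have h6 : z ∣ 2 := hz.dvd_of_dvd_pow (n := 2) (by norm_num; exact h4)
      have h7 : (2 : ℤ) ∣ 15 * y := ((hz.associated_of_dvd Int.prime_two h6).dvd').trans hzY
      omega
    · exact hz.dvd_of_dvd_pow h4
  obtain ⟨u, v, huv, hsq, hu5, hs⟩ := tw_split hcop hy0 h1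
  have hsum : (2 * x ^ 2 + 75 * y ^ 2 - 2 * m) + (2 * x ^ 2 + 75 * y ^ 2 + 2 * m) =
      4 * x ^ 2 + 150 * y ^ 2 := by ring
  rw [hsum] at hs
  have hpr : u * v = y ∨ u * v = -y := sq_eq_sq_iff_eq_or_eq_neg.1 hsq
  have hu : ¬ (2 : ℤ) ∣ u := by
    intro h
    apply hy
    rcases hpr with h8 | h8
    · rw [← h8]; exact h.mul_right _
    · rw [← dvd_neg, ← h8]; exact h.mul_right _
  have hv : ¬ (2 : ℤ) ∣ v := by
    intro h
    apply hy
    rcases hpr with h8 | h8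
    · rw [← h8]; exact h.mul_left _
    · rw [← dvd_neg, ← h8]; exact h.mul_left _
  have p1 : 0 < y ^ 2 := by positivity
  have p2 : 0 ≤ u ^ 4 := by positivity
  have p3 : 0 ≤ v ^ 4 := by positivity
  rcases hs with ⟨-, hs | hs⟩ | ⟨hv3, hs | hs⟩
  · refine ⟨u, v, huv, hu5, hu, hv, ?_⟩
    rw [← hsq] at hs
    linear_combination hs
  · exfalso
    linarith [sq_nonneg x]
  · exfalso
    have h6 := sq3 h3
    have h7 := pow4_3 hv3
    omega
  · exfalso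
    linarith [sq_nonneg x]

/-- **`m` and `S` odd** -/
theorem tw_odd {m S z : ℤ} (hc : IsCoprime m S) (h5 : ¬ (5 : ℤ) ∣ m) (hm : ¬ (2 : ℤ) ∣ m)
    (hS : ¬ (2 : ℤ) ∣ S) (he : z ^ 2 = m ^ 4 - 150 * m ^ 2 * S ^ 2 + 1125 * S ^ 4) : False := by
  have h3 := tw_three hc he
  have hS0 : S ≠ 0 := by rintro rfl; exact hS (dvd_zero _)
  have m2 := sq_odd hm
  have s2 := sq_odd hS
  obtain ⟨u, hu⟩ : ∃ u, m ^ 2 - 75 * S ^ 2 = 2 * u := ⟨(m ^ 2 - 75 * S ^ 2) / 2, by omega⟩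
  have e0 : z ^ 2 = 4 * (u ^ 2 - 1125 * S ^ 4) := by
    have : z ^ 2 = (m ^ 2 - 75 * S ^ 2) ^ 2 - 4500 * S ^ 4 := by rw [he]; ring
    rw [this, hu]; ring
  obtain ⟨v, rfl⟩ : (2 : ℤ) ∣ z :=
    Int.prime_two.dvd_of_dvd_pow (n := 2) ⟨2 * (u ^ 2 - 1125 * S ^ 4), by rw [e0]; ring⟩
  have e1 : (u - v) * (u + v) = 1125 * S ^ 4 := by linarith
  have hcop : IsCoprime (u - v) (u + v) := by
    apply tw_cop (S := m ^ 2 - 75 * S ^ 2) hc h5 h3 (by rw [hu]; ring) ?_ hS0 e1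
    intro y hy hyS hyY
    have h2 : y ∣ m ^ 2 := by
      have : m ^ 2 = (m ^ 2 - 75 * S ^ 2) + 15 * S * (5 * S) := by ring
      rw [this]; exact dvd_add hyS (hyY.mul_right _)
    exact hy.dvd_of_dvd_pow h2
  obtain ⟨x, y, hxy, hsq, hx5, hs⟩ := tw_split hcop hS0 e1
  have hsum : (u - v) + (u + v) = m ^ 2 - 75 * S ^ 2 := by rw [hu]; ring
  rw [hsum] at hs
  have hpr : x * y = S ∨ x * y = -S := sq_eq_sq_iff_eq_or_eq_neg.1 hsq
  have hx : ¬ (2 : ℤ) ∣ x := by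
    intro h
    apply hS
    rcases hpr with h8 | h8
    · rw [← h8]; exact h.mul_right _
    · rw [← dvd_neg, ← h8]; exact h.mul_right _
  have hy : ¬ (2 : ℤ) ∣ y := by
    intro h
    apply hS
    rcases hpr with h8 | h8
    · rw [← h8]; exact h.mul_left _
    · rw [← dvd_neg, ← h8]; exact h.mul_left _
  rcases hs with ⟨hx3, hs | hs⟩ | ⟨hy3, hs | hs⟩
  · obtain ⟨a, b, -, -, ha, hb, hab⟩ := tw_second (m := m) hxy hx5 hx3 hy
      (by rw [hsq]; linarith)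
    have a2 := sq_odd ha
    have b2 := sq_odd hb
    have a4 := pow4_16 ha
    have b4 := pow4_16 hb
    have x2 := sq_odd hx
    obtain ⟨i, hi⟩ : ∃ i, a ^ 2 = 8 * i + 1 := ⟨a ^ 2 / 8, by omega⟩
    obtain ⟨j, hj⟩ : ∃ j, b ^ 2 = 8 * j + 1 := ⟨b ^ 2 / 8, by omega⟩
    have h6 : 150 * a ^ 2 * b ^ 2 = 16 * (600 * i * j + 75 * i + 75 * j + 9) + 6 := by
      rw [mul_assoc, hi, hj]; ring
    have h7 : (2 * x) ^ 2 = 4 * x ^ 2 := by ring
    omega
  · have h6 := pow4_3 hx3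
    have h7 := sq3 h3
    omega
  · have h6 := pow4_3 hy3
    have h7 := sq3 h3
    omega
  · have h6 := pow4_16 hx
    have h7 := pow4_16 hy
    omega

/-- **The descent.** -/
theorem tw_desc (n : ℕ) : ∀ m S z : ℤ, S.natAbs = n → IsCoprime m S → ¬ (5 : ℤ) ∣ m →
    ¬ (2 : ℤ) ∣ m → (2 : ℤ) ∣ S → z ^ 2 = m ^ 4 - 150 * m ^ 2 * S ^ 2 + 1125 * S ^ 4 → S = 0 := by
  induction n using Nat.strong_induction_on with
  | _ n ih =>
    intro m S z hn hc h5 hm hS he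
    by_contra hS0
    have h3 := tw_three hc he
    obtain ⟨S', hS'⟩ := hS
    have m2 := sq_odd hm
    have hS2 : S ^ 2 = 4 * S' ^ 2 := by rw [hS']; ring
    have hz : z % 2 = 1 := by
      apply odd_of_sq (y := z ^ 2) rfl
      have h6 := pow4_16 hm
      have : z ^ 2 = m ^ 4 + 2 * (-75 * m ^ 2 * S ^ 2 + 9000 * S' ^ 4) := by
        rw [he, hS']; ring
      omega
    obtain ⟨P, hP⟩ : ∃ P, m ^ 2 - 75 * S ^ 2 - z = 2 * P :=
      ⟨(m ^ 2 - 75 * S ^ 2 - z) / 2, by omega⟩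
    have e1 : P * (P + z) = 1125 * S ^ 4 := by
      have e2 : 4 * (P * (P + z)) = 4 * (1125 * S ^ 4) := by
        have e3 : 4 * (P * (P + z)) = (2 * P) * (2 * P + 2 * z) := by ring
        rw [e3, ← hP]
        linear_combination -he
      linarith
    have hsum : P + (P + z) = m ^ 2 - 75 * S ^ 2 := by linear_combination -hP
    have hcop : IsCoprime P (P + z) := by
      apply tw_cop hc h5 h3 hsum ?_ hS0 e1
      intro y hy hyS hyY
      have h2 : y ∣ m ^ 2 := by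
        have : m ^ 2 = (m ^ 2 - 75 * S ^ 2) + 15 * S * (5 * S) := by ring
        rw [this]; exact dvd_add hyS (hyY.mul_right _)
      exact hy.dvd_of_dvd_pow h2
    obtain ⟨x, y, hxy, hsq, hx5, hs⟩ := tw_split hcop hS0 e1
    rw [hsum] at hs
    have hpr : x * y = S ∨ x * y = -S := sq_eq_sq_iff_eq_or_eq_neg.1 hsq
    have hxye : (2 : ℤ) ∣ x * y := by
      rcases hpr with h8 | h8
      · rw [h8, hS']; exact dvd_mul_right _ _
      · rw [h8, hS']; exact (dvd_mul_right _ _).neg_right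
    have hpar : (¬ (2 : ℤ) ∣ x ∧ (2 : ℤ) ∣ y) ∨ ((2 : ℤ) ∣ x ∧ ¬ (2 : ℤ) ∣ y) := by
      rcases Int.prime_two.dvd_or_dvd hxye with h6 | h6
      · right
        exact ⟨h6, fun h7 => Int.prime_two.not_isUnit (hxy.isUnit_of_dvd' h6 h7)⟩
      · left
        exact ⟨fun h7 => Int.prime_two.not_isUnit (hxy.isUnit_of_dvd' h7 h6), h6⟩
    rcases hs with ⟨hx3, hs | hs⟩ | ⟨hy3, hs | hs⟩
    · have e4 : m ^ 2 = x ^ 4 + 75 * (x * y) ^ 2 + 1125 * y ^ 4 := by rw [hsq]; linarith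
      rcases hpar with ⟨hx, hy⟩ | ⟨hx, hy⟩
      swap
      · obtain ⟨a, b, hab, ha5, ha, hb, hab'⟩ := tw_second hxy hx5 hx3 hy e4
        exact tw_odd hab ha5 ha hb hab'
      obtain ⟨y1, rfl⟩ := hy
      have hy0 : y1 ≠ 0 := by
        rintro rfl
        apply hS0
        have : S ^ 2 = 0 := by rw [← hsq]; ring
        exact (pow_eq_zero_iff (by norm_num)).1 this
      have x2 := sq_odd hx
      obtain ⟨P', hP'⟩ : ∃ P', x ^ 2 + 150 * y1 ^ 2 - m = 2 * P' := by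
        refine ⟨(x ^ 2 + 150 * y1 ^ 2 - m) / 2, ?_⟩
        omega
      have e5 : P' * (P' + m) = 1125 * y1 ^ 4 := by
        have e6 : 4 * (P' * (P' + m)) = 4 * (1125 * y1 ^ 4) := by
          have e7 : 4 * (P' * (P' + m)) = (2 * P') * (2 * P' + 2 * m) := by ring
          rw [e7, ← hP']
          linear_combination -e4
        linarith
      have hsum' : P' + (P' + m) = x ^ 2 + 150 * y1 ^ 2 := by linear_combination -hP'
      have hxy1 : IsCoprime x y1 := hxy.of_isCoprime_of_dvd_right (dvd_mul_left _ _)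
      have hcop' : IsCoprime P' (P' + m) := by
        apply tw_cop hxy1 hx5 hx3 hsum' ?_ hy0 e5
        intro w hw hwS hwY
        have h2 : w ∣ x ^ 2 := by
          have : x ^ 2 = (x ^ 2 + 150 * y1 ^ 2) - 15 * y1 * (10 * y1) := by ring
          rw [this]; exact dvd_sub hwS (hwY.mul_right _)
        exact hw.dvd_of_dvd_pow h2
      obtain ⟨a, b, hab, hsq', ha5, hs'⟩ := tw_split hcop' hy0 e5
      rw [hsum'] at hs'
      have p1 : 0 < y1 ^ 2 := by positivity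
      have p2 : 0 ≤ a ^ 4 := by positivity
      have p3 : 0 ≤ b ^ 4 := by positivity
      rcases hs' with ⟨ha3, hs' | hs'⟩ | ⟨hb3, hs' | hs'⟩
      · have e8 : x ^ 2 = a ^ 4 - 150 * a ^ 2 * b ^ 2 + 1125 * b ^ 4 := by
          rw [← hsq'] at hs'; linear_combination hs'
        by_cases hb : (2 : ℤ) ∣ b
        · have ha : ¬ (2 : ℤ) ∣ a :=
            fun h7 => Int.prime_two.not_isUnit (hab.isUnit_of_dvd' h7 hb)
          have hsz : b.natAbs < n := by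
            have h1 : b.natAbs ∣ y1.natAbs := by
              apply Int.natAbs_dvd_natAbs.2
              apply (Int.pow_dvd_pow_iff (n := 2) (by norm_num)).1
              rw [← hsq']; exact pow_dvd_pow_of_dvd (dvd_mul_left _ _) 2
            have h2 : (2 * y1).natAbs ∣ S.natAbs := by
              apply Int.natAbs_dvd_natAbs.2
              apply (Int.pow_dvd_pow_iff (n := 2) (by norm_num)).1
              rw [← hsq]; exact pow_dvd_pow_of_dvd (dvd_mul_left _ _) 2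
            have h4 := Nat.le_of_dvd (Int.natAbs_pos.2 hy0) h1
            have h5 := Nat.le_of_dvd (Int.natAbs_pos.2 hS0) h2
            have h6 := Int.natAbs_pos.2 hy0
            rw [Int.natAbs_mul] at h5
            norm_num at h5
            omega
          have hb0 := ih _ hsz a b x rfl hab ha5 ha hb e8
          rw [hb0, mul_zero] at hsq'
          apply hy0
          have : y1 ^ 2 = 0 := by rw [← hsq']; norm_num
          exact (pow_eq_zero_iff (by norm_num)).1 this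
        · by_cases ha : (2 : ℤ) ∣ a
          · obtain ⟨a1, rfl⟩ := ha
            have b4 := pow4_16 hb
            have : x ^ 2 = 8 * (2 * a1 ^ 4 - 75 * a1 ^ 2 * b ^ 2) + 1125 * b ^ 4 := by
              rw [e8]; ring
            omega
          · exact tw_odd hab ha5 ha hb e8
      · linarith [sq_nonneg x]
      · have h6 := sq3 hx3
        have h7 := pow4_3 hb3
        omega
      · linarith [sq_nonneg x]
    · have h6 := pow4_3 hx3
      have h7 := sq3 h3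
      omega
    · have h6 := pow4_3 hy3
      have h7 := sq3 h3
      omega
    · rcases hpar with ⟨hx, hy⟩ | ⟨hx, hy⟩
      · have h6 := pow4_16 hx
        obtain ⟨y1, rfl⟩ := hy
        have h7 : (2 * y1) ^ 4 = 16 * y1 ^ 4 := by ring
        have h8 : S' ^ 2 % 4 = 0 ∨ S' ^ 2 % 4 = 1 := by
          rcases Int.emod_two_eq_zero_or_one S' with h9 | h9
          · obtain ⟨i, hi⟩ : ∃ i, S' = 2 * i := ⟨S' / 2, by omega⟩
            left
            have : S' ^ 2 = 4 * i ^ 2 := by rw [hi]; ring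
            omega
          · right
            have := sq_odd (x := S') (by omega)
            omega
        omega
      · have h6 := pow4_16 hy
        obtain ⟨x1, rfl⟩ := hx
        have h7 : (2 * x1) ^ 4 = 16 * x1 ^ 4 := by ring
        have h8 : S' ^ 2 % 4 = 0 ∨ S' ^ 2 % 4 = 1 := by
          rcases Int.emod_two_eq_zero_or_one S' with h9 | h9
          · obtain ⟨i, hi⟩ : ∃ i, S' = 2 * i := ⟨S' / 2, by omega⟩
            left
            have : S' ^ 2 = 4 * i ^ 2 := by rw [hi]; ring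
            omega
          · right
            have := sq_odd (x := S') (by omega)
            omega
        omega

end Pool.Agent.W2helper96.F5
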