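import Pool.Agent.W2helper96.F5.TwA
import Pool.Agent.W2helper96.F5.Eis

/-!
# `X ^ 4 + X ^ 2 Y ^ 2 + Y ^ 4 = k Z ^ 5`, `k = 1, 3`, `X + Y` odd
-/

set_option autoImplicit false

namespace Pool.Agent.W2helper96.F5

open Pool.Agent.W2helper96.QP Pool.Agent.W2helper96.Eis

/-- the quartic form -/
def Phi (a b : ℤ) : ℤ := -a ^ 4 - 5 * a ^ 3 * b + 10 * a * b ^ 3 + 5 * b ^ 4

/-- a square which is a product of coprime factors -/
theorem sq_fac {a b c : ℤ} (hab : IsCoprime a b) (h : a * b = c ^ 2) :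
    ∃ t : ℤ, b = t ^ 2 ∨ b = -t ^ 2 := by
  obtain ⟨d, hd⟩ := exists_associated_pow_of_mul_eq_pow' hab.symm (by rw [mul_comm]; exact h)
  rcases Int.associated_iff.1 hd with h1 | h1
  · exact ⟨d, Or.inl h1.symm⟩
  · exact ⟨d, Or.inr (by rw [h1, neg_neg])⟩

/-- **The curve of genus one.** -/
theorem tw_main {a b W : ℤ} (hc : IsCoprime a b) (ha4 : (4 : ℤ) ∣ a) (h : a * Phi a b = W ^ 2) :
    a = 0 := by
  have hb : ¬ (2 : ℤ) ∣ b := by
    intro h2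
    have h3 : (2 : ℤ) ∣ a := by omega
    exact Int.prime_two.not_isUnit (hc.isUnit_of_dvd' h3 h2)
  have b4 := pow4_16 hb
  by_cases h5 : (5 : ℤ) ∣ a
  · obtain ⟨S, rfl⟩ := h5
    obtain ⟨S1, hS1⟩ : ∃ S1, S = 4 * S1 := ⟨S / 4, by omega⟩
    obtain ⟨Φ', hΦ⟩ : ∃ Φ', Φ' = b ^ 4 + 10 * S * b ^ 3 - 125 * S ^ 3 * b - 125 * S ^ 4 :=
      ⟨_, rfl⟩
    have e1 : Phi (5 * S) b = 5 * Φ' := by rw [hΦ, Phi]; ring
    rw [e1] at h
    obtain ⟨W', rfl⟩ : (5 : ℤ) ∣ W :=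
      five_prime.dvd_of_dvd_pow (n := 2) ⟨5 * (S * Φ'), by rw [← h]; ring⟩
    have h1 : S * Φ' = W' ^ 2 := by
      have : 25 * (S * Φ') = 25 * W' ^ 2 := by linear_combination h
      linarith
    have hcS : IsCoprime S b := hc.of_isCoprime_of_dvd_left (dvd_mul_left _ _)
    have hcop : IsCoprime S Φ' := by
      have e : Φ' = b ^ 4 + S * (10 * b ^ 3 - 125 * S ^ 2 * b - 125 * S ^ 3) := by rw [hΦ]; ring
      rw [e]
      exact hcS.pow_right.add_mul_left_right _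
    obtain ⟨t, ht⟩ := sq_fac hcop h1
    have hto : ¬ (2 : ℤ) ∣ t := by
      rintro ⟨i, rfl⟩
      have e : (2 * i) ^ 2 = 4 * i ^ 2 := by ring
      have e2 : Φ' = b ^ 4 + 8 * (5 * S1 * b ^ 3 - 1000 * S1 ^ 3 * b - 4000 * S1 ^ 4) := by
        rw [hΦ, hS1]; ring
      rcases ht with ht | ht <;> omega
    have t2 := sq_odd hto
    have e2 : Φ' = b ^ 4 + 8 * (5 * S1 * b ^ 3 - 1000 * S1 ^ 3 * b - 4000 * S1 ^ 4) := by
      rw [hΦ, hS1]; ring
    have ht' : Φ' = t ^ 2 := by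
      rcases ht with ht | ht
      · exact ht
      · exfalso; omega
    have h5b : ¬ (5 : ℤ) ∣ b := fun h6 =>
      five_prime.not_isUnit (hc.isUnit_of_dvd' (dvd_mul_right _ _) h6)
    have hfin := tw_desc (2 * S1).natAbs (b + 5 * (2 * S1)) (2 * S1) t rfl
      (by
        have h6 : IsCoprime b (2 * S1) :=
          (hcS.of_isCoprime_of_dvd_left ⟨2, by rw [hS1]; ring⟩).symm
        exact (IsCoprime.add_mul_right_left h6 5))
      (by
        intro h6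
        apply h5b
        have : b = (b + 5 * (2 * S1)) - 5 * (2 * S1) := by ring
        rw [this]; exact dvd_sub h6 (dvd_mul_right _ _))
      (by omega) (dvd_mul_right _ _)
      (by rw [← ht', hΦ, hS1]; ring)
    rw [hS1]
    have : S1 = 0 := by omega
    rw [this]
    norm_num
  · exfalso
    have hcop : IsCoprime a (Phi a b) := by
      have h6 : IsCoprime a (5 * b ^ 4) :=
        (five_prime.coprime_iff_not_dvd.2 h5).symm.mul_right hc.pow_right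
      have e : Phi a b = 5 * b ^ 4 + a * (-a ^ 3 - 5 * a ^ 2 * b + 10 * b ^ 3) := by
        unfold Phi; ring
      rw [e]
      exact h6.add_mul_left_right _
    obtain ⟨t, ht⟩ := sq_fac hcop h
    obtain ⟨a1, rfl⟩ := ha4
    have e2 : Phi (4 * a1) b = 5 * b ^ 4 + 8 * (-32 * a1 ^ 4 - 40 * a1 ^ 3 * b + 5 * a1 * b ^ 3) := by
      unfold Phi; ring
    have hto : ¬ (2 : ℤ) ∣ t := by
      rintro ⟨i, rfl⟩
      have e : (2 * i) ^ 2 = 4 * i ^ 2 := by ring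
      rcases ht with ht | ht <;> omega
    have t2 := sq_odd hto
    rcases ht with ht | ht <;> omega

/-- coprime parameters -/
theorem par_cop {X Y a b k : ℤ} (hk : k = 1 ∨ k = 3) (hc : IsCoprime X Y)
    (h1 : (k * Y) ^ 2 = a * Phi a b) (h2 : (k * X) ^ 2 = b * Phi b a) : IsCoprime a b := by
  have key : ∀ (p a b X k : ℤ), (k = 1 ∨ k = 3) → Prime p → p ∣ a → p ∣ b →
      (k * X) ^ 2 = a * Phi a b → p ∣ X := by
    rintro p a b X k hk hp ⟨a', rfl⟩ ⟨b', rfl⟩ h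
    have e : (k * X) ^ 2 = p ^ 5 * (a' * Phi a' b') := by rw [h]; unfold Phi; ring
    by_cases h3 : p ∣ 3
    · have h4 : p = 3 ∨ p = -3 :=
        Int.associated_iff.1 ((hp.dvd_prime_iff_associated three_prime).1 h3)
      have h5 : (243 : ℤ) ∣ (k * X) ^ 2 := by
        rcases h4 with rfl | rfl
        · exact ⟨a' * Phi a' b', by rw [e]; ring⟩
        · exact ⟨-(a' * Phi a' b'), by rw [e]; ring⟩
      have h6 : (3 : ℤ) ∣ X := by
        rcases hk with rfl | rfl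
        · have : (3 : ℤ) ∣ (1 * X) ^ 2 := Dvd.dvd.trans ⟨81, by norm_num⟩ h5
          rw [one_mul] at this
          exact three_prime.dvd_of_dvd_pow this
        · obtain ⟨c, hc⟩ := h5
          have : X ^ 2 = 27 * c := by nlinarith
          exact three_prime.dvd_of_dvd_pow (n := 2) ⟨9 * c, by rw [this]; ring⟩
      rcases h4 with rfl | rfl
      · exact h6
      · exact (neg_dvd).2 h6
    · have h4 : p ∣ k * X := by
        apply hp.dvd_of_dvd_pow (n := 2)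
        rw [e]
        exact ⟨p ^ 4 * (a' * Phi a' b'), by ring⟩
      rcases hp.dvd_or_dvd h4 with h5 | h5
      · exfalso
        rcases hk with rfl | rfl
        · exact hp.not_isUnit (isUnit_of_dvd_one h5)
        · exact h3 h5
      · exact h5
  apply isCoprime_of_prime_dvd
  · rintro ⟨rfl, rfl⟩
    have hk0 : k ≠ 0 := by rcases hk with rfl | rfl <;> norm_num
    have e1 : (k * Y) ^ 2 = 0 := by rw [h1]; ring
    have e2 : (k * X) ^ 2 = 0 := by rw [h2]; ring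
    have f1 : Y = 0 := (mul_eq_zero.1 ((pow_eq_zero_iff (by norm_num)).1 e1)).resolve_left hk0
    have f2 : X = 0 := (mul_eq_zero.1 ((pow_eq_zero_iff (by norm_num)).1 e2)).resolve_left hk0
    rw [f1, f2] at hc
    exact not_isCoprime_zero_zero hc
  · intro p hp ha hb
    exact hp.not_isUnit (hc.isUnit_of_dvd' (key p b a X k hk hp hb ha h2) (key p a b Y k hk hp ha hb h1))

/-- the description of the solutions by the Eisenstein integers -/
theorem eis_param {X Y Z k : ℤ} (hk : k = 1 ∨ k = 3) (hc : IsCoprime X Y) (hZ : ¬ (3 : ℤ) ∣ Z)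
    (h : X ^ 4 + X ^ 2 * Y ^ 2 + Y ^ 4 = k * Z ^ 5) :
    ∃ a b : ℤ, IsCoprime a b ∧ (k * Y) ^ 2 = a * Phi a b ∧ (k * X) ^ 2 = b * Phi b a := by
  obtain ⟨Θ, hΘ⟩ : ∃ Θ : eis, Θ = ((X ^ 2 + Y ^ 2 : ℤ) : eis) + ((Y ^ 2 : ℤ) : eis) * w := ⟨_, rfl⟩
  obtain ⟨Θ', hΘ'⟩ : ∃ Θ' : eis, Θ' = ((X ^ 2 : ℤ) : eis) + ((-Y ^ 2 : ℤ) : eis) * w := ⟨_, rfl⟩
  have hN : Θ * Θ' = ((k * Z ^ 5 : ℤ) : eis) := by
    rw [hΘ, hΘ', norm_Theta, h]
  have hcom : ∀ π : eis, Prime π → π ∣ Θ → π ∣ Θ' → π ∣ 1 + 2 * w := fun π hπ h1 h2 =>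
    common hc hπ (by rw [← hΘ]; exact h1) (by rw [← hΘ']; exact h2)
  have hZ3 : IsCoprime (3 : ℤ) (Z ^ 5) := (three_prime.coprime_iff_not_dvd.2 hZ).pow_right
  have hZ0 : Z ≠ 0 := by rintro rfl; exact hZ (dvd_zero _)
  have hmain : ∃ ρ : eis, ((k : ℤ) : eis) ^ 2 * Θ = ρ ^ 5 := by
    rcases hk with rfl | rfl
    · -- `Θ`, `Θ'` are coprime
      have hcop : IsCoprime Θ Θ' := by
        apply isCoprime_of_prime_dvd
        · rintro ⟨h1, -⟩
          rw [h1, zero_mul] at hN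
          have h2 : (1 * Z ^ 5 : ℤ) = 0 := by exact_mod_cast hN.symm
          rw [one_mul] at h2
          exact hZ0 ((pow_eq_zero_iff (by norm_num)).1 h2)
        · intro π hπ h1 h2
          have h3 := dvd_three (hcom π hπ h1 h2)
          refine int_cop hZ3 hπ h3 ?_
          have h4 : π ∣ Θ * Θ' := h1.mul_right _
          rw [hN, one_mul] at h4
          exact h4
      obtain ⟨ρ, hρ⟩ := fifth (c := ((Z : ℤ) : eis)) hcop (by rw [hN]; push_cast; ring)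
      exact ⟨ρ, by rw [← hρ]; push_cast; ring⟩
    · -- `Θ = (1 + 2 w) Θ₁`
      have hl : (1 + 2 * w : eis) * (1 + 2 * w) = -3 := by linear_combination (4 : eis) * w_sq
      have hs : ∃ m : ℤ, X ^ 2 + 2 * Y ^ 2 = 3 * m := by
        have h3 : (3 : ℤ) ∣ (X ^ 2 + 2 * Y ^ 2) ^ 2 :=
          ⟨Z ^ 5 + X ^ 2 * Y ^ 2 + Y ^ 4, by linear_combination h⟩
        exact three_prime.dvd_of_dvd_pow h3
      obtain ⟨m, hm⟩ := hs
      have hX : X ^ 2 = 3 * m - 2 * Y ^ 2 := by linarith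
      obtain ⟨Θ₁, hΘ₁⟩ : ∃ Θ₁ : eis, Θ₁ = ((Y ^ 2 - m : ℤ) : eis) + ((Y ^ 2 - 2 * m : ℤ) : eis) * w :=
        ⟨_, rfl⟩
      obtain ⟨Θ₂, hΘ₂⟩ : ∃ Θ₂ : eis, Θ₂ = ((-m : ℤ) : eis) + ((Y ^ 2 - 2 * m : ℤ) : eis) * w :=
        ⟨_, rfl⟩
      have h1 : Θ = (1 + 2 * w) * Θ₁ := by
        rw [hΘ, hΘ₁, hX]
        push_cast
        linear_combination (-(2 : eis) * ((Y : eis) ^ 2 - 2 * m)) * w_sq
      have h2 : Θ' = (1 + 2 * w) * Θ₂ := by
        rw [hΘ', hΘ₂, hX]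
        push_cast
        linear_combination (-(2 : eis) * ((Y : eis) ^ 2 - 2 * m)) * w_sq
      have h3ne : (3 : eis) ≠ 0 := by
        intro h3
        have h4 : ((3 : ℤ) : eis) = ((0 : ℤ) : eis) := by push_cast; exact h3
        have h5 : (3 : ℤ) = 0 := by exact_mod_cast h4
        norm_num at h5
      have hN2 : Θ₁ * Θ₂ = (((-Z : ℤ)) : eis) ^ 5 := by
        have e1 : (3 : eis) * (Θ₁ * Θ₂) = 3 * (((-Z : ℤ)) : eis) ^ 5 := by
          have e2 : Θ * Θ' = (-3 : eis) * (Θ₁ * Θ₂) := by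
            rw [h1, h2, ← hl]; ring
          rw [e2] at hN
          push_cast at hN ⊢
          linear_combination (-1 : eis) * hN
        exact mul_left_cancel₀ h3ne e1
      have hcop : IsCoprime Θ₁ Θ₂ := by
        apply isCoprime_of_prime_dvd
        · rintro ⟨g1, -⟩
          rw [g1, zero_mul] at hN2
          have g2 : (0 : ℤ) = (-Z) ^ 5 := by exact_mod_cast hN2
          have g3 := (pow_eq_zero_iff (by norm_num)).1 g2.symm
          exact hZ0 (by omega)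
        · intro π hπ g1 g2
          have g3 := dvd_three (hcom π hπ (by rw [h1]; exact g1.mul_left _)
            (by rw [h2]; exact g2.mul_left _))
          refine int_cop hZ3 hπ g3 ?_
          have h4 : π ∣ Θ₁ * Θ₂ := g1.mul_right _
          rw [hN2] at h4
          have h5 : (((-Z : ℤ)) : eis) ^ 5 = -((Z ^ 5 : ℤ) : eis) := by push_cast; ring
          rw [h5] at h4
          exact (dvd_neg).1 h4
      obtain ⟨ρ, hρ⟩ := fifth hcop hN2
      refine ⟨(1 + 2 * w) * ρ, ?_⟩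
      rw [mul_pow, ← hρ, h1]
      have e5 : (1 + 2 * w : eis) ^ 5 = 9 * (1 + 2 * w) := by
        have : (1 + 2 * w : eis) ^ 5 =
          ((1 + 2 * w) * (1 + 2 * w)) * ((1 + 2 * w) * (1 + 2 * w)) * (1 + 2 * w) := by ring
        rw [this, hl]; ring
      rw [e5]
      push_cast
      ring
  obtain ⟨ρ, hρ⟩ := hmain
  obtain ⟨x, y, rfl⟩ := eis_rep ρ
  have hco := coord (P := k ^ 2 * (X ^ 2 + Y ^ 2)) (Q := k ^ 2 * Y ^ 2) (x := x) (y := y) (by
    rw [← hρ, hΘ]; push_cast; ring)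
  obtain ⟨hP, hQ⟩ := hco
  have g1 : (k * Y) ^ 2 = y * Phi y (-x) := by
    unfold Phi; linear_combination hQ
  have g2 : (k * X) ^ 2 = (-x) * Phi (-x) y := by
    unfold Phi; linear_combination hP - hQ
  exact ⟨y, -x, par_cop hk hc g1 g2, g1, g2⟩

theorem Phi_odd {a b : ℤ} (hc : IsCoprime a b) : ¬ (2 : ℤ) ∣ Phi a b := by
  intro h
  have hab : ¬ ((2 : ℤ) ∣ a ∧ (2 : ℤ) ∣ b) := fun h1 =>
    Int.prime_two.not_isUnit (hc.isUnit_of_dvd' h1.1 h1.2)
  rcases Int.even_or_odd' a with ⟨i, rfl | rfl⟩ <;> rcases Int.even_or_odd' b with ⟨j, rfl | rfl⟩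
  · exact hab ⟨⟨i, rfl⟩, ⟨j, rfl⟩⟩
  · have e : Phi (2 * i) (2 * j + 1) = 1 + 2 * (-8 * i ^ 4 - 20 * i ^ 3 * (2 * j + 1) +
        10 * i * (2 * j + 1) ^ 3 + 2 + 20 * j + 60 * j ^ 2 + 80 * j ^ 3 + 40 * j ^ 4) := by
      unfold Phi; ring
    omega
  · have e : Phi (2 * i + 1) (2 * j) = 1 + 2 * (-1 - 4 * i - 12 * i ^ 2 - 16 * i ^ 3 - 8 * i ^ 4 -
        5 * (2 * i + 1) ^ 3 * j + 40 * (2 * i + 1) * j ^ 3 + 40 * j ^ 4) := by
      unfold Phi; ring
    omega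
  · have e : Phi (2 * i + 1) (2 * j + 1) = 1 + 2 * (-1 - 4 * i - 12 * i ^ 2 - 16 * i ^ 3 - 8 * i ^ 4 -
        5 * (2 * i + 1) ^ 3 * j - 15 * i - 30 * i ^ 2 - 20 * i ^ 3 - 2 +
        5 * (2 * i + 1) * (2 * j + 1) ^ 3 + 2 + 20 * j + 60 * j ^ 2 + 80 * j ^ 3 + 40 * j ^ 4) := by
      unfold Phi; ring
    omega

/-- **One of the two unknowns is even: it is zero.** -/
theorem tw_even {X Y Z k : ℤ} (hk : k = 1 ∨ k = 3) (hc : IsCoprime X Y) (hZ : ¬ (3 : ℤ) ∣ Z)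
    (h : X ^ 4 + X ^ 2 * Y ^ 2 + Y ^ 4 = k * Z ^ 5) (hY : (2 : ℤ) ∣ Y) : Y = 0 := by
  obtain ⟨a, b, hab, h1, -⟩ := eis_param hk hc hZ h
  have ho := Phi_odd hab
  have h4 : (4 : ℤ) ∣ a * Phi a b := by
    rw [← h1]
    obtain ⟨c, rfl⟩ := hY
    exact ⟨(k * c) ^ 2, by ring⟩
  have hc4 : IsCoprime (4 : ℤ) (Phi a b) := by
    have : IsCoprime ((2 : ℤ) ^ 2) (Phi a b) := (Int.prime_two.coprime_iff_not_dvd.2 ho).pow_left
    norm_num at this
    exact this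
  have ha4 : (4 : ℤ) ∣ a := hc4.dvd_of_dvd_mul_right h4
  have ha := tw_main hab ha4 h1.symm
  rw [ha, zero_mul] at h1
  have hk0 : k ≠ 0 := by rcases hk with rfl | rfl <;> norm_num
  exact (mul_eq_zero.1 ((pow_eq_zero_iff (by norm_num)).1 h1)).resolve_left hk0

/-- the sum is odd: one of the two unknowns is zero -/
theorem tw_sum {X Y Z k : ℤ} (hk : k = 1 ∨ k = 3) (hc : IsCoprime X Y) (hZ : ¬ (3 : ℤ) ∣ Z)
    (h : X ^ 4 + X ^ 2 * Y ^ 2 + Y ^ 4 = k * Z ^ 5) (hs : ¬ (2 : ℤ) ∣ X + Y) : X = 0 ∨ Y = 0 := by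
  by_cases hY : (2 : ℤ) ∣ Y
  · exact Or.inr (tw_even hk hc hZ h hY)
  · exact Or.inl (tw_even hk hc.symm hZ (by rw [← h]; ring) (by omega))

end Pool.Agent.W2helper96.F5
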