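import Pool.Agent.W2helper96.F5.TwB
import Pool.Agent.W2helper96.F5.SixI

/-!
# `u ^ 4 + u ^ 2 w ^ 2 + w ^ 4 = k z ^ 5`, `k = 1, 3`

If `u`, `w` are coprime and the valuations of `u ^ 2 + u w + w ^ 2` and `u ^ 2 - u w + w ^ 2` at all
primes `p ≥ 5` are divisible by five then `u w = 0` or `u = ± w`.
-/

set_option autoImplicit false

namespace Pool.Agent.W2helper96.F5

open Pool.Agent.W2helper96.QP Pool.Agent.W2helper96.Eis

theorem par_mod {a b W : ℤ} (ha : ¬ (2 : ℤ) ∣ a) (hb : ¬ (2 : ℤ) ∣ b) (hW : ¬ (2 : ℤ) ∣ W)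
    (h : a * Phi a b = W ^ 2) : b % 8 = 1 := by
  obtain ⟨α, hα⟩ : ∃ α, a ^ 2 = 1 + 8 * α := ⟨a ^ 2 / 8, by have := sq_odd ha; omega⟩
  obtain ⟨β, hβ⟩ : ∃ β, b ^ 2 = 1 + 8 * β := ⟨b ^ 2 / 8, by have := sq_odd hb; omega⟩
  have hW8 := sq_odd hW
  have e : a * Phi a b = 4 * a + 5 * b + 8 * (-(a + 5 * b) * (2 * α + 8 * α ^ 2) +
      10 * b * (α + β + 8 * α * β) + 5 * a * (2 * β + 8 * β ^ 2)) := by
    unfold Phi
    linear_combination (-(a + 5 * b) * (a ^ 2 + 1 + 8 * α) + 10 * b * b ^ 2) * hα +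
      (10 * b * (1 + 8 * α) + 5 * a * (b ^ 2 + 1 + 8 * β)) * hβ
  omega

theorem par_sq {a b W : ℤ} (hc : IsCoprime a b) (hW : ¬ (2 : ℤ) ∣ W) (ha8 : a % 8 = 1)
    (h : a * Phi a b = W ^ 2) : (∃ S, a = S ^ 2) ∧ ∃ t, Phi a b = t ^ 2 := by
  have hW8 := sq_odd hW
  by_cases h5 : (5 : ℤ) ∣ a
  · exfalso
    obtain ⟨S, rfl⟩ := h5
    obtain ⟨Φ', hΦ⟩ : ∃ Φ', Φ' = b ^ 4 + 10 * S * b ^ 3 - 125 * S ^ 3 * b - 125 * S ^ 4 :=
      ⟨_, rfl⟩
    have e1 : Phi (5 * S) b = 5 * Φ' := by rw [hΦ, Phi]; ring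
    rw [e1] at h
    obtain ⟨W', rfl⟩ : (5 : ℤ) ∣ W :=
      five_prime.dvd_of_dvd_pow (n := 2) ⟨5 * (S * Φ'), by rw [← h]; ring⟩
    have h1 : Φ' * S = W' ^ 2 := by
      have : 25 * (Φ' * S) = 25 * W' ^ 2 := by linear_combination h
      linarith
    have hcS : IsCoprime S b := hc.of_isCoprime_of_dvd_left (dvd_mul_left _ _)
    have hcop : IsCoprime S Φ' := by
      have e : Φ' = b ^ 4 + S * (10 * b ^ 3 - 125 * S ^ 2 * b - 125 * S ^ 3) := by rw [hΦ]; ring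
      rw [e]
      exact hcS.pow_right.add_mul_left_right _
    obtain ⟨t, ht⟩ := sq_fac hcop.symm h1
    have hto : ¬ (2 : ℤ) ∣ t := by
      rintro ⟨i, rfl⟩
      have e : (2 * i) ^ 2 = 4 * i ^ 2 := by ring
      rcases ht with ht | ht <;> omega
    have t2 := sq_odd hto
    rcases ht with ht | ht <;> omega
  · have hcop : IsCoprime a (Phi a b) := by
      have h6 : IsCoprime a (5 * b ^ 4) :=
        (five_prime.coprime_iff_not_dvd.2 h5).symm.mul_right hc.pow_right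
      have e : Phi a b = 5 * b ^ 4 + a * (-a ^ 3 - 5 * a ^ 2 * b + 10 * b ^ 3) := by
        unfold Phi; ring
      rw [e]
      exact h6.add_mul_left_right _
    constructor
    · obtain ⟨t, ht⟩ := sq_fac hcop.symm (by rw [mul_comm]; exact h)
      refine ⟨t, ht.resolve_right ?_⟩
      intro ht
      have hto : ¬ (2 : ℤ) ∣ t := by
        rintro ⟨i, rfl⟩
        have e : (2 * i) ^ 2 = 4 * i ^ 2 := by ring
        omega
      have t2 := sq_odd hto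
      omega
    · obtain ⟨t, ht⟩ := sq_fac hcop h
      refine ⟨t, ht.resolve_right ?_⟩
      intro ht
      obtain ⟨k, hk⟩ : ∃ k, a = 8 * k + 1 := ⟨a / 8, by omega⟩
      have h2 : Phi a b % 8 = 1 := by
        have e : Phi a b + 8 * (k * Phi a b) = W ^ 2 := by rw [← h, hk]; ring
        omega
      have hto : ¬ (2 : ℤ) ∣ t := by
        rintro ⟨i, rfl⟩
        have e : (2 * i) ^ 2 = 4 * i ^ 2 := by ring
        omega
      have t2 := sq_odd hto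
      omega

theorem Phi_mod {a b : ℤ} (ha : (3 : ℤ) ∣ a) (hb : ¬ (3 : ℤ) ∣ b) : Phi a b % 3 = 2 := by
  have h := pow4_3 hb
  obtain ⟨k, rfl⟩ := ha
  have e : Phi (3 * k) b = 5 * b ^ 4 + 3 * (-27 * k ^ 4 - 45 * k ^ 3 * b + 10 * k * b ^ 3) := by
    unfold Phi; ring
  omega

/-- **`X`, `Y` odd, `k = 1`: no solutions.** -/
theorem tw_odd_odd {X Y Z : ℤ} (hc : IsCoprime X Y) (hZ : ¬ (3 : ℤ) ∣ Z)
    (h : X ^ 4 + X ^ 2 * Y ^ 2 + Y ^ 4 = Z ^ 5) (hX : ¬ (2 : ℤ) ∣ X) (hY : ¬ (2 : ℤ) ∣ Y) :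
    False := by
  obtain ⟨a, b, hab, h1, h2⟩ := eis_param (k := 1) (Or.inl rfl) hc hZ (by rw [one_mul]; exact h)
  rw [one_mul] at h1 h2
  have hY2 : ¬ (2 : ℤ) ∣ Y ^ 2 := fun h3 => hY (Int.prime_two.dvd_of_dvd_pow h3)
  have hX2 : ¬ (2 : ℤ) ∣ X ^ 2 := fun h3 => hX (Int.prime_two.dvd_of_dvd_pow h3)
  have oa : ¬ (2 : ℤ) ∣ a := fun h3 => hY2 (by rw [h1]; exact h3.mul_right _)
  have ob : ¬ (2 : ℤ) ∣ b := fun h3 => hX2 (by rw [h2]; exact h3.mul_right _)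
  have hb8 := par_mod oa ob hY h1.symm
  have ha8 := par_mod ob oa hX h2.symm
  obtain ⟨⟨S, hS⟩, t, ht⟩ := par_sq hab hY ha8 h1.symm
  obtain ⟨⟨R, hR⟩, s, hs⟩ := par_sq hab.symm hX hb8 h2.symm
  have t3 := sq3' t
  have s3 := sq3' s
  by_cases a3 : (3 : ℤ) ∣ a
  · have b3 : ¬ (3 : ℤ) ∣ b := fun h3 => three_prime.not_isUnit (hab.isUnit_of_dvd' a3 h3)
    have := Phi_mod a3 b3
    omega
  by_cases b3 : (3 : ℤ) ∣ b
  · have := Phi_mod b3 a3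
    omega
  have S3 := sq3' S
  have R3 := sq3' R
  obtain ⟨i, hi⟩ : ∃ i, a = 3 * i + 1 := ⟨a / 3, by omega⟩
  obtain ⟨j, hj⟩ : ∃ j, b = 3 * j + 1 := ⟨b / 3, by omega⟩
  have e : ∀ a b i j : ℤ, a = 3 * i + 1 → b = 3 * j + 1 → (3 : ℤ) ∣ Phi a b := by
    rintro a b i j rfl rfl
    refine ⟨3 + i * (-(27 * i ^ 3 + 36 * i ^ 2 + 18 * i + 4)) -
      5 * (i * (9 * i ^ 2 + 9 * i + 3) * (3 * j + 1) + j) +
      10 * (i * (3 * j + 1) ^ 3 + j * (9 * j ^ 2 + 9 * j + 3)) +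
      5 * (j * (27 * j ^ 3 + 36 * j ^ 2 + 18 * j + 4)), ?_⟩
    unfold Phi
    ring
  have h3Y : (3 : ℤ) ∣ Y := three_prime.dvd_of_dvd_pow (n := 2)
    (by rw [h1]; exact (e a b i j hi hj).mul_left _)
  have h3X : (3 : ℤ) ∣ X := three_prime.dvd_of_dvd_pow (n := 2)
    (by rw [h2]; exact (e b a j i hj hi).mul_left _)
  exact three_prime.not_isUnit (hc.isUnit_of_dvd' h3X h3Y)

/-- `3 ∣ u + w`, both odd -/
theorem no_pm' {u w : ℤ} (hc : IsCoprime u w) (ou : u % 2 = 1) (ow : w % 2 = 1)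
    (hu3 : ¬ (3 : ℤ) ∣ u) (h3 : (3 : ℤ) ∣ u + w) (hs : u + w ≠ 0)
    (v2 : V5 (u ^ 2 + u * w + w ^ 2)) (v3 : V5 (u ^ 2 - u * w + w ^ 2)) :
    False := by
  obtain ⟨o1, o2⟩ := odd_phi ou ow
  obtain ⟨β, hβ⟩ := form (z := u ^ 2 + u * w + w ^ 2) (by omega) 0 0
    ⟨0, by rw [val_two_odd o1]⟩ ⟨0, by rw [val_three_not (phi3_not hu3 h3)]⟩ v2
  obtain ⟨γ, hγ⟩ := form (z := u ^ 2 - u * w + w ^ 2) (by omega) 0 1
    ⟨0, by rw [val_two_odd o2]⟩ ⟨0, by rw [val_three_of (Or.inl (phi6_mod hu3 h3))]⟩ v3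
  have f2 : β ^ 5 = u ^ 2 + u * w + w ^ 2 := by rw [hβ]; ring
  have f3 : 3 * γ ^ 5 = u ^ 2 - u * w + w ^ 2 := by rw [hγ]; ring
  obtain ⟨z, hz⟩ := h3
  have hz2 : (2 : ℤ) ∣ z := by omega
  have oβ : β % 2 = 1 := odd_of_pow5 (by omega)
  have oγ : γ % 2 = 1 := odd_of_pow5 (by omega)
  have e1 : β ^ 5 - γ ^ 5 = 6 * z ^ 2 := by
    have h6 : 3 * (β ^ 5 - γ ^ 5) = 3 * (6 * z ^ 2) := by
      have h7 : 3 * (6 * z ^ 2) = 2 * (3 * z) ^ 2 := by ring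
      rw [h7, ← hz]
      linear_combination 3 * f2 - f3
    linarith
  have hmod : (β - γ) % 4 = 0 := by
    have m1 := pow5_mod4 oβ
    have m2 := pow5_mod4 oγ
    obtain ⟨i, hi⟩ := hz2
    have m3 : 6 * z ^ 2 = 4 * (6 * i ^ 2) := by rw [hi]; ring
    omega
  have hcop : IsCoprime β γ := by
    apply isCoprime_of_prime_dvd
    · rintro ⟨h7, -⟩
      rw [h7] at oβ
      norm_num at oβ
    intro p hp hpβ hpγ
    have h6 : p ∣ u ^ 2 + u * w + w ^ 2 := by rw [← f2]; exact hpβ.pow (by norm_num)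
    have h7 : p ∣ u ^ 2 - u * w + w ^ 2 := by
      rw [← f3]; exact (hpγ.pow (by norm_num)).mul_left _
    have h8 : p ∣ 2 * (u * w) := by
      have : 2 * (u * w) = (u ^ 2 + u * w + w ^ 2) - (u ^ 2 - u * w + w ^ 2) := by ring
      rw [this]; exact dvd_sub h6 h7
    rcases hp.dvd_or_dvd h8 with h9 | h9
    · have h10 : (2 : ℤ) ∣ β := (hp.associated_of_dvd Int.prime_two h9).dvd'.trans hpβ
      omega
    · rcases hp.dvd_or_dvd h9 with h10 | h10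
      · have h11 : p ∣ w ^ 2 := by
          have : w ^ 2 = (u ^ 2 + u * w + w ^ 2) - u * (u + w) := by ring
          rw [this]; exact dvd_sub h6 (h10.mul_right _)
        exact hp.not_isUnit (hc.isUnit_of_dvd' h10 (hp.dvd_of_dvd_pow h11))
      · have h11 : p ∣ u ^ 2 := by
          have : u ^ 2 = (u ^ 2 + u * w + w ^ 2) - w * (u + w) := by ring
          rw [this]; exact dvd_sub h6 (h10.mul_right _)
        exact hp.not_isUnit (hc.isUnit_of_dvd' (hp.dvd_of_dvd_pow h11) h10)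
  have h6 := K6 rfl (x := β) (y := γ) (z := z) (by omega) hmod hcop e1
  rw [h6, sub_self] at e1
  have h7 : z ^ 2 = 0 := by linarith
  have h8 : z = 0 := (pow_eq_zero_iff (by norm_num)).1 h7
  apply hs
  rw [hz, h8, mul_zero]

/-- **The equation `u ^ 4 + u ^ 2 w ^ 2 + w ^ 4 = k z ^ 5`, `k = 1, 3`.** -/
theorem arith {u w : ℤ} (hc : IsCoprime u w) (hne : u ≠ w) (hne' : u ≠ -w)
    (v2 : V5 (u ^ 2 + u * w + w ^ 2)) (v3 : V5 (u ^ 2 - u * w + w ^ 2)) : u = 0 ∨ w = 0 := by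
  have fN : (u ^ 2 + u * w + w ^ 2) * (u ^ 2 - u * w + w ^ 2) =
      u ^ 4 + u ^ 2 * w ^ 2 + w ^ 4 := by ring
  have hpar : ¬ ((2 : ℤ) ∣ u ∧ (2 : ℤ) ∣ w) := fun h1 =>
    Int.prime_two.not_isUnit (hc.isUnit_of_dvd' h1.1 h1.2)
  have odd1 : (u ^ 4 + u ^ 2 * w ^ 2 + w ^ 4) % 2 = 1 := by
    rcases Int.even_or_odd' u with ⟨i, hi | hi⟩ <;> rcases Int.even_or_odd' w with ⟨j, hj | hj⟩
    · exact absurd ⟨⟨i, hi⟩, ⟨j, hj⟩⟩ hpar
    · have : u ^ 4 + u ^ 2 * w ^ 2 + w ^ 4 = 1 + 2 * (8 * i ^ 4 + 2 * i ^ 2 * w ^ 2 +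
          4 * j + 12 * j ^ 2 + 16 * j ^ 3 + 8 * j ^ 4) := by rw [hi, hj]; ring
      omega
    · have : u ^ 4 + u ^ 2 * w ^ 2 + w ^ 4 = 1 + 2 * (8 * j ^ 4 + 2 * j ^ 2 * u ^ 2 +
          4 * i + 12 * i ^ 2 + 16 * i ^ 3 + 8 * i ^ 4) := by rw [hi, hj]; ring
      omega
    · have s1 := sq_odd (x := u) (by omega)
      have s2 := sq_odd (x := w) (by omega)
      obtain ⟨k, hk⟩ : ∃ k, u ^ 2 = 8 * k + 1 := ⟨u ^ 2 / 8, by omega⟩
      obtain ⟨l, hl⟩ : ∃ l, w ^ 2 = 8 * l + 1 := ⟨w ^ 2 / 8, by omega⟩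
      have : u ^ 4 + u ^ 2 * w ^ 2 + w ^ 4 = 1 + 2 * (32 * k ^ 2 + 8 * k + 1 +
          32 * k * l + 4 * k + 4 * l + 32 * l ^ 2 + 8 * l) := by
        have : u ^ 4 + u ^ 2 * w ^ 2 + w ^ 4 = (u ^ 2) ^ 2 + u ^ 2 * w ^ 2 + (w ^ 2) ^ 2 := by ring
        rw [this, hk, hl]; ring
      omega
  obtain ⟨N, hN⟩ : ∃ N, N = u ^ 4 + u ^ 2 * w ^ 2 + w ^ 4 := ⟨_, rfl⟩
  rw [← hN] at odd1
  have hN0 : N ≠ 0 := by omega
  have hf3 : u ^ 2 + u * w + w ^ 2 ≠ 0 := by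
    intro h0
    apply hN0
    rw [hN, ← fN, h0, zero_mul]
  have hf6 : u ^ 2 - u * w + w ^ 2 ≠ 0 := by
    intro h0
    apply hN0
    rw [hN, ← fN, h0, mul_zero]
  have vN : V5 N := by
    rw [hN, ← fN]
    exact V5_mul hf3 hf6 v2 v3
  by_cases h3 : (3 : ℤ) ∣ u ∨ (3 : ℤ) ∣ w
  · -- `k = 1`
    have hN3 : ¬ (3 : ℤ) ∣ N := by
      intro h4
      rcases h3 with h3 | h3
      · have h5 : (3 : ℤ) ∣ w ^ 4 := by
          have : w ^ 4 = N - u * (u ^ 3 + u * w ^ 2) := by rw [hN]; ring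
          rw [this]; exact dvd_sub h4 (h3.mul_right _)
        exact three_prime.not_isUnit (hc.isUnit_of_dvd' h3 (three_prime.dvd_of_dvd_pow h5))
      · have h5 : (3 : ℤ) ∣ u ^ 4 := by
          have : u ^ 4 = N - w * (w ^ 3 + w * u ^ 2) := by rw [hN]; ring
          rw [this]; exact dvd_sub h4 (h3.mul_right _)
        exact three_prime.not_isUnit (hc.isUnit_of_dvd' (three_prime.dvd_of_dvd_pow h5) h3)
    obtain ⟨Z, hZ⟩ := form hN0 0 0 ⟨0, by rw [val_two_odd odd1]⟩ ⟨0, by rw [val_three_not hN3]⟩ vN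
    have hZ5 : u ^ 4 + u ^ 2 * w ^ 2 + w ^ 4 = Z ^ 5 := by rw [← hN, hZ]; ring
    have hZ3 : ¬ (3 : ℤ) ∣ Z := by
      intro h4
      apply hN3
      rw [hN, hZ5]
      exact h4.pow (by norm_num)
    by_cases hs : (2 : ℤ) ∣ u + w
    · exact (tw_odd_odd hc hZ3 hZ5 (by omega) (by omega)).elim
    · exact tw_sum (Or.inl rfl) hc hZ3 (by rw [one_mul]; exact hZ5) hs
  · -- `k = 3`
    push Not at h3
    obtain ⟨u3, w3⟩ := h3
    by_cases hs : (2 : ℤ) ∣ u + w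
    · exfalso
      have ou : u % 2 = 1 := by omega
      have ow : w % 2 = 1 := by omega
      by_cases h4 : (3 : ℤ) ∣ u - w
      · refine no_pm' (u := u) (w := -w) hc.neg_right ou (by omega) u3 (by rwa [← sub_eq_add_neg])
          (by intro h0; exact hne (by linarith)) ?_ ?_
        · rw [show u ^ 2 + u * -w + (-w) ^ 2 = u ^ 2 - u * w + w ^ 2 by ring]
          exact v3
        · rw [show u ^ 2 - u * -w + (-w) ^ 2 = u ^ 2 + u * w + w ^ 2 by ring]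
          exact v2
      · exact no_pm' hc ou ow u3 (three_add_of u3 w3 h4) (by intro h0; exact hne' (by linarith)) v2 v3
    · have su := sq3 u3
      have sw := sq3 w3
      obtain ⟨i, hi⟩ : ∃ i, u ^ 2 = 3 * i + 1 := ⟨u ^ 2 / 3, by omega⟩
      obtain ⟨j, hj⟩ : ∃ j, w ^ 2 = 3 * j + 1 := ⟨w ^ 2 / 3, by omega⟩
      have hN9 : N % 9 = 3 := by
        have e : N = 3 + 9 * (i ^ 2 + i * j + j ^ 2 + i + j) := by
          have : N = (u ^ 2) ^ 2 + u ^ 2 * w ^ 2 + (w ^ 2) ^ 2 := by rw [hN]; ring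
          rw [this, hi, hj]; ring
        omega
      obtain ⟨Z, hZ⟩ := form hN0 0 1 ⟨0, by rw [val_two_odd odd1]⟩
        ⟨0, by rw [val_three_of (Or.inl hN9)]⟩ vN
      have hZ5 : u ^ 4 + u ^ 2 * w ^ 2 + w ^ 4 = 3 * Z ^ 5 := by rw [← hN, hZ]; ring
      have hZ3 : ¬ (3 : ℤ) ∣ Z := by
        rintro ⟨k, rfl⟩
        rw [← hN] at hZ5
        have : N = 9 * (81 * k ^ 5) := by rw [hZ5]; ring
        omega
      exact tw_sum (Or.inr rfl) hc hZ3 hZ5 hs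

end Pool.Agent.W2helper96.F5
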