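import Pool.Agent.W2helper96.F5.Strong

/-!
# Exponents divisible by four: one exceptional prime (exponent five)
-/

set_option autoImplicit false

namespace Pool.Agent.W2helper96.F5

open Finset Pool.Agent.T6.H62.UB Pool.Agent.W2helper83.UC

section

variable {d m : ℕ} {A B : ℤ} {V : ℕ} {O : Finset ℤ} {φ : ℤ → ℤ}

/-- `4 ∣ d`, `m = d / 4` -/
def WkA (d m : ℕ) : Prop := ∃ e : ℕ, 0 < e ∧ d = 4 * e ∧ m = e

theorem WkA.m0 (hs : WkA d m) : m ≠ 0 := by
  obtain ⟨e, he, -, rfl⟩ := hs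
  omega

theorem WkA.pow (hs : WkA d m) : ∃ a : ℕ, d = 2 ^ a * m := by
  obtain ⟨e, he, rfl, rfl⟩ := hs
  exact ⟨2, rfl⟩

theorem WkA.d0 (hs : WkA d m) : d ≠ 0 := by
  obtain ⟨e, he, rfl, -⟩ := hs
  omega

/-- `V` even -/
theorem wk_even (hs : WkA d m) (h : Sys d A B V O φ) (hA : A ≠ 0) (hV : 0 < V)
    (hV2 : 2 ∣ V) {u w : ℤ} (hu : u ∈ O) (hw : w ∈ O) (pu : Per φ u) (pw : Per φ w) (hne : u ≠ w)
    (hS : ∀ p : ℕ, p.Prime → p ≠ 2 → p ∣ V →
      5 ∣ padicValInt p (u ^ d - w ^ d) ∨ (p : ℤ) ∣ u ^ m - w ^ m) :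
    ¬ (4 : ℤ) ∣ u ^ m - w ^ m := by
  obtain ⟨e, he, rfl, rfl⟩ := hs
  exact A_even h he hA hV hV2 hu hw pu pw hne hS

/-- the hypothesis of the pair lemmas, if the pair does not rise -/
theorem hS_rise (hm0 : m ≠ 0) (hp : ∃ a : ℕ, d = 2 ^ a * m) {p1 : ℕ} (H : Hyp d m V p1 p1)
    (h : Sys d A B V O φ) (hA : A ≠ 0) (hV : 0 < V) {u w : ℤ} (hu : u ∈ O) (hw : w ∈ O)
    (pu : Per φ u) (pw : Per φ w) (hne : u ≠ w)
    (hr : ¬ (¬ (p1 : ℤ) ∣ u - w ∧ (p1 : ℤ) ∣ φ u - φ w)) :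
    ∀ p : ℕ, p.Prime → p ≠ 2 → p ∣ V →
      5 ∣ padicValInt p (u ^ d - w ^ d) ∨ (p : ℤ) ∣ u ^ m - w ^ m := by
  obtain ⟨a, ha⟩ := hp
  have hd0 : d ≠ 0 := by rw [ha]; exact mul_ne_zero (by positivity) hm0
  have hn := per_NM pu pw hne
  push Not at hr
  intro p hp hp2 hpV
  by_cases hrel : Rel m p
  · by_cases h3 : 5 ∣ padicValNat p d
    · left
      exact val_pow_sub_dvd h hA hd0 hV hp hp2 hpV
        ⟨(H.one p hp hp2 hpV hrel).1, fun _ => ⟨h3, (H.one p hp hp2 hpV hrel).2⟩⟩ hu hw hn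
    · have hpp : p = p1 := by rcases H.two p hp hp2 hpV hrel h3 with h4 | h4 <;> exact h4
      subst hpp
      by_cases h1 : (p : ℤ) ∣ u - w
      · exact Or.inr (h1.trans (sub_dvd_pow_sub_pow _ _ m))
      · left
        have h2 := val_step h hA hV hp hu hw hn.step.ne
        rw [padicValInt.eq_zero_of_not_dvd (h.not_dvd_A hp hpV), zero_add,
          padicValInt.eq_zero_of_not_dvd (hr h1), add_zero] at h2
        rw [h2]
        exact (H.one p hp hp2 hpV hrel).1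
  · have h1 := dvd_pow_sub h hp hpV hu hw
    rw [ha] at h1
    exact Or.inr (irrelevant hp hm0 h1 (h.not_dvd hd0 hp hpV hw) hrel)

/-- **One exceptional prime: at most four periodic points.** -/
theorem card_four (hs : WkA d m) {p1 : ℕ} (H : Hyp d m V p1 p1) (h : Sys d A B V O φ)
    (hA : A ≠ 0) (hV : 0 < V) (P : Finset ℤ) (hP : P ⊆ O) (hPp : ∀ x ∈ P, Per φ x) :
    P.card ≤ 4 := by
  classical
  have hd0 := hs.d0
  have hm0 := hs.m0
  by_cases hV2 : 2 ∣ V
  · -- pairs in the same class modulo four rise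
    have hodd : ∀ x ∈ O, ¬ (2 : ℤ) ∣ x := fun x hx => odd_of_even_V h hd0 hV2 hx
    have rise : ∀ x y : ℤ, x ∈ O → y ∈ O → Per φ x → Per φ y → x ≠ y → x % 4 = y % 4 →
        ¬ (p1 : ℤ) ∣ x - y ∧ (p1 : ℤ) ∣ φ x - φ y := by
      intro x y hx hy px py hne h4
      by_contra hcon
      exact wk_even hs h hA hV hV2 hx hy px py hne
        (hS_rise hm0 hs.pow H h hA hV hx hy px py hne hcon) (four_dvd_of_mod h4 m)
    have three : ∀ x y z : ℤ, x ∈ O → y ∈ O → z ∈ O → Per φ x → Per φ y → Per φ z →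
        x ≠ y → x ≠ z → y ≠ z → x % 4 = y % 4 → x % 4 = z % 4 → False := by
      intro x y z hx hy hz px py pz hxy hxz hyz h1 h2
      have r1 := (rise x y hx hy px py hxy h1).2
      have r2 := (rise x z hx hz px pz hxz h2).2
      have r3 := (rise y z hy hz py pz hyz (by omega)).2
      have n1 : φ x ≠ φ y := fun h3 => hxy (per_inj px py (k := 1) h3)
      have n2 : φ x ≠ φ z := fun h3 => hxz (per_inj px pz (k := 1) h3)
      have n3 : φ y ≠ φ z := fun h3 => hyz (per_inj py pz (k := 1) h3)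
      have o1 := hodd _ (h.maps x hx)
      have o2 := hodd _ (h.maps y hy)
      have o3 := hodd _ (h.maps z hz)
      have hc : φ x % 4 = φ y % 4 ∨ φ x % 4 = φ z % 4 ∨ φ y % 4 = φ z % 4 := by omega
      rcases hc with hc | hc | hc
      · exact (rise _ _ (h.maps x hx) (h.maps y hy) (px.iter 1) (py.iter 1) n1 hc).1 r1
      · exact (rise _ _ (h.maps x hx) (h.maps z hz) (px.iter 1) (pz.iter 1) n2 hc).1 r2
      · exact (rise _ _ (h.maps y hy) (h.maps z hz) (py.iter 1) (pz.iter 1) n3 hc).1 r3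
    have h5 : P.card ≤ 2 * (P.image (fun u : ℤ => u % 4)).card := by
      apply card_le_mul_card_image
      intro b _
      by_contra hcon
      obtain ⟨x, y, z, hx, hy, hz, hxy, hxz, hyz⟩ := two_lt_card_iff.1 (not_le.1 hcon)
      rw [mem_filter] at hx hy hz
      exact three x y z (hP hx.1) (hP hy.1) (hP hz.1) (hPp x hx.1) (hPp y hy.1) (hPp z hz.1)
        hxy hxz hyz (by rw [hx.2, hy.2]) (by rw [hx.2, hz.2])
    have h6 := image_mod4 P fun u hu => hodd u (hP hu)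
    omega
  · obtain ⟨e, he, rfl, rfl⟩ := hs
    -- parity
    have h1 := pigeon P ∅ (fun u => u % 2) (fun _ _ => 0) 2 (fun _ => 1) (image_parity P)
      (by simp) (by
        intro x hx y hy hκ _
        by_contra hne
        apply odd_sum h ⟨2 * m, by ring⟩ hA hV hV2 (hP hx) (hP hy) (hPp x hx) (hPp y hy) hne
        have hκ' : x % 2 = y % 2 := hκ
        omega)
    rw [prod_empty] at h1
    omega

end

end Pool.Agent.W2helper96.F5
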